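import Pool.Agent.Lib.MP_732f67_ag.X.Rx
import Pool.Agent.Lib.MP_732f67_ag.R.Main

/-!
Existence of Galois models with normal crossings.
-/

namespace Pool.Agent.KM

theorem rx (d : ℕ) : RX d := rx_of d fun _ _ _ _ => KMR.main_R d

end Pool.Agent.KM
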