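import Pool.Agent.Lib.MP_732f67_ag.X.Bnd
import Pool.Agent.Lib.MP_732f67_ag.N.GrE

/-!
Automorphisms acting on the model.
-/

namespace Pool.Agent.KM

variable {K : Type} [Field K] [Algebra ℂ K] {n : ℕ} {M : KMR.Mdl ℂ K ⊥} {γ : K ≃ₐ[ℂ] K}

private theorem act_mem {O : Subalgebra ℂ K} {x : K} : γ x ∈ gm γ O ↔ x ∈ O := by
  constructor
  · rintro ⟨y, hy, hyx⟩
    have h1 : γ y = γ x := hyx
    rw [← γ.injective h1]
    exact hy
  · intro hx
    exact ⟨x, hx, rfl⟩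

/-- images of local rings -/
private theorem act_loc {A O : Subalgebra ℂ K} (h : LocAt A O) : LocAt (gm γ A) (gm γ O) := by
  rw [pt_locAt_iff] at h ⊢
  obtain ⟨h3, h4, h5⟩ := h
  let e : O ≃ₐ[ℂ] gm γ O := O.equivMapOfInjective (γ : K →ₐ[ℂ] K) γ.injective
  refine ⟨Subalgebra.map_mono h3, e.toRingEquiv.isLocalRing, ?_⟩
  intro x hx
  obtain ⟨y, rfl⟩ := γ.surjective x
  obtain ⟨a, ha, b, hb, hb0, hbO, hab⟩ := h5 y (act_mem.1 hx)
  refine ⟨γ a, ⟨a, ha, rfl⟩, γ b, ⟨b, hb, rfl⟩, (map_ne_zero_iff γ γ.injective).2 hb0, ?_, ?_⟩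
  · rw [← map_inv₀]
    exact act_mem.2 hbO
  · rw [hab, map_div₀]

/-- the image of a closed point -/
private theorem act_eq {O O' : Subalgebra ℂ K} (h : ∀ a, a ∈ O ↔ γ a ∈ O') : gm γ O = O' := by
  ext x
  obtain ⟨y, rfl⟩ := γ.surjective x
  rw [act_mem]
  exact h y

/-- PROOF. A closed point `O = M.O c φ ≤ Q` (`exists_clp`), `Q` is a local ring of `O`; `gm γ O = M.O c' φ'` and `gm γ Q` is
a local ring of it, hence of `M.R c'` (`LocAt.trans`). -/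
theorem act_gm (hM : M.Ok0 n) (hγ : M.Act γ) {Q : Subalgebra ℂ K} (hQ : Q ∈ YS M) :
    gm γ Q ∈ YS M := by
  obtain ⟨c, hc⟩ := hQ
  obtain ⟨σ, -, -, -, hpt⟩ := hγ
  obtain ⟨φ, hφ, -⟩ := exists_clp (hM.fg c) hc ∅ fun t ht => absurd ht (Finset.notMem_empty t)
  obtain ⟨c', φ', h1, -⟩ := hpt c φ
  have h2 : LocAt (M.O c φ) Q := locAt_of_locAt (locAt_loc φ) hc hφ
  have h3 := act_loc (γ := γ) h2
  rw [act_eq h1] at h3
  exact ⟨c', (locAt_loc φ').trans h3⟩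

/-- PROOF. Let `V = P i`, `j = lab i`, `V' = gm γ V`, a prime divisor in `YS M` (`act_gm`, `prim_gm`), and let `σ` be as
in `Act`. CLAIM: `On M V' (σ j)`. Let `M.R c ≤ V`; a closed point `M.O c φ ≤ V`, `gm γ` of it is
`M.O c' φ' ≤ V'`. `V' ≠ K` and some `x c' j₂`, `j₂ ∈ S c'`, is not a unit at `V'`: otherwise the element `γ (x c j)` of
`Ψ` would be a unit of `V'` (`un_of_v`), and `x c j` a unit of `V`. So `On M V' j₂`, `At c' φ' j₂` and
`j₂ = σ l` with `At c φ l`. By `div_ord` at `V'`: `v j₂ (γ (x c j)) = 1` (`x c j` is a uniformizer of `V`, so `γ (x c j)`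
is one of `V'`), and it is equal to `v l (x c j)`, so `l = j` (`v_x'`).
Now let `O' ≤ V`, `O' ≤ V'`, `M.R c ≤ O'`: `j ∈ S c` and `σ j ∈ S c` (`on_mono`, `on_iff`), so `σ j = j`, and `V = V'` by
`div_on`. -/
theorem act_strict (hM : M.Ok0 n) (hF : M.F = ⊤) {J : Type} {P : J → Subalgebra ℂ K}
    {B : J → Subalgebra ℂ K → Kˣ} {lab : J → M.J} (h : BX M P B lab) (hγ : M.Act γ) (i : J)
    {O' : Subalgebra ℂ K} (hO' : O' ∈ YS M) (h1 : O' ≤ P i) (h2 : O' ≤ gm γ (P i)) :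
    gm γ (P i) = P i := by
  obtain ⟨hV, hp⟩ := h.bd.mem i
  have hon := h.on (P i) hV i le_rfl
  have hV' := act_gm hM hγ hV
  have hp' := prim_gm (γ := γ) hp
  obtain ⟨σ, hΨ, hv, hstr, hpt⟩ := hγ
  have hclaim : On M (gm γ (P i)) (σ (lab i)) := by
    obtain ⟨c, hc, hj, hu⟩ := hon
    obtain ⟨φ, hφ, -⟩ := exists_clp (hM.fg c) (ys_le hM hV hc) ∅
      fun t ht => absurd ht (Finset.notMem_empty t)
    obtain ⟨c', φ', h3, h4⟩ := hpt c φ
    have h5 : M.O c' φ' ≤ gm γ (P i) := by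
      rw [← act_eq h3]
      exact gm_mono hφ
    have hc' : M.R c' ≤ gm γ (P i) := (locAt_loc φ').le.trans h5
    have ha := hM.x_Ψ c _ hj
    have ha' := hΨ _ ha
    have hval : (KMR.ga γ (M.x c (lab i)) : K) = γ (M.x c (lab i) : K) := rfl
    have hnu : ¬ Un (gm γ (P i)) (KMR.ga γ (M.x c (lab i)) : K) := by
      rw [hval, un_gm]
      exact hu
    have h6 : ∃ j₂ ∈ M.S c', M.v j₂ (KMR.ga γ (M.x c (lab i))) ≠ 0 ∧
        ¬ Un (gm γ (P i)) (M.x c' j₂ : K) := by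
      by_contra hcon
      push Not at hcon
      exact hnu (un_of_v hM hc' ha' hcon)
    obtain ⟨j₂, hj₂, -, hu₂⟩ := h6
    have hon₂ : On M (gm γ (P i)) j₂ := ⟨c', hc', hj₂, hu₂⟩
    have hat : M.At c' φ' (σ (σ.symm j₂)) := by
      rw [Equiv.apply_symm_apply]
      exact ⟨hj₂, fun hun => hu₂ ⟨hun.1, h5 hun.2.1, h5 hun.2.2⟩⟩
    have hl : σ.symm j₂ ∈ M.S c := ((h4 _).2 hat).1
    have h7 := div_ord hM hF hV' hp' hon₂ ha'
    have h8 : oD (gm γ (P i)) (γ (M.x c (lab i) : K)) = 1 := by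
      rw [oD_gm hp]
      exact oD_unif hp (div_unif hM hF hV hp hc hj hu)
    rw [hval] at h7
    have h9 : M.v j₂ (KMR.ga γ (M.x c (lab i))) = 1 := by
      rw [← oD_eq hp' h7, h8]
    have h10 := hv _ ha (σ.symm j₂)
    rw [Equiv.apply_symm_apply, h9] at h10
    have h11 : σ.symm j₂ = lab i := by
      by_contra hne
      have h12 := hM.v_x' c _ hl _ hj hne
      omega
    rw [← h11, Equiv.apply_symm_apply]
    exact hon₂
  obtain ⟨c, hc⟩ := hO'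
  have hcle : M.R c ≤ O' := hc.le
  have h3 := ((on_iff hM hcle).1 (on_mono hM hcle h1 hon)).1
  have h4 := ((on_iff hM hcle).1 (on_mono hM hcle h2 hclaim)).1
  have h5 : σ (lab i) = lab i := hstr c _ h3 h4
  rw [h5] at hclaim
  exact div_on hM hF ⟨c, hc⟩ hV' hp' h2 hclaim hV hp h1 hon

end Pool.Agent.KM
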