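import Pool.Agent.Lib.MP_732f67_ag.X.BndA

/-!
The irreducible components of the boundary and their local equations.
-/

namespace Pool.Agent.KM

variable {K : Type} [Field K] [Algebra ℂ K] {n : ℕ} {M : KMR.Mdl ℂ K ⊥}

/-- a uniformizer times a unit -/
theorem bnd_unif {O : Subalgebra ℂ K} {a b : K} (h : Unif O a) (h1 : Un O (a / b)) :
    Unif O b := by
  have ha0 : a ≠ 0 := h.ne_zero
  have hb0 : b ≠ 0 := fun h0 => h1.1 (by rw [h0, div_zero])
  refine ⟨?_, fun h2 => h.2.1 ?_, fun x hx => (h.2.2 x hx).imp id fun h2 => ?_⟩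
  · have h3 : b = a * (a / b)⁻¹ := by
      rw [inv_div, mul_div_cancel₀ _ ha0]
    rw [h3]
    exact O.mul_mem h.1 h1.2.2
  · have h3 : a⁻¹ = (a / b)⁻¹ * b⁻¹ := by
      rw [← mul_inv, div_mul_cancel₀ _ hb0]
    rw [h3]
    exact O.mul_mem h1.2.2 h2
  · have h3 : x / b = x / a * (a / b) := by
      rw [div_mul_div_cancel₀ ha0]
    rw [h3]
    exact O.mul_mem h2 h1.2.1

/-- a unit is not a uniformizer -/
theorem bnd_not_un {O : Subalgebra ℂ K} {a : K} (h : Unif O a) : ¬ Un O a :=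
  fun h1 => h.2.1 h1.2.2

/-- PROOF. `J` = the finite type of the `V ∈ YS M` with `PrimDiv V` and a label (`div_fin`), `P V = V`,
`lab V` = the label, `B V = bq M V (lab V)`. `Bd.eqn`: for a prime divisor `O ∈ YS M`, `O ≤ V` only if `O = V`
(`PrimDiv.eq_of_le`), `div_unif`. `ex`: `exists_div`. `one`: `div_on`. -/
theorem exists_bx (hM : M.Ok0 n) (hF : M.F = ⊤) :
    ∃ (J : Type) (_ : Fintype J) (P : J → Subalgebra ℂ K) (B : J → Subalgebra ℂ K → Kˣ)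
      (lab : J → M.J), BX M P B lab := by
  classical
  have hfin := div_fin hM hF
  have hlab : ∀ V : {V : Subalgebra ℂ K | V ∈ YS M ∧ PrimDiv V ∧ ∃ j, On M V j},
      On M V.1 V.2.2.2.choose := fun V => V.2.2.2.choose_spec
  have hchart : ∀ Q ∈ YS M, ∃ c, M.R c ≤ Q := fun Q ⟨c, hc⟩ => ⟨c, hc.le⟩
  refine ⟨{V : Subalgebra ℂ K | V ∈ YS M ∧ PrimDiv V ∧ ∃ j, On M V j}, hfin.fintype,
    fun V => V.1, fun V => bq M V.1 V.2.2.2.choose, fun V => V.2.2.2.choose,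
    ⟨⟨fun V => ⟨V.2.1, V.2.2.1⟩, Subtype.val_injective, fun V O hO hp => ⟨fun h => ?_, fun h => ?_⟩⟩,
      fun V => bq_car hM hF V.2.1 V.2.2.1 (hlab V), fun Q hQ V h => ?_, fun Q hQ V h c hc => ?_,
      fun Q hQ j hj => ?_, fun Q hQ V V' h h' he => ?_, fun Q hQ V h => ?_⟩⟩
  · obtain ⟨c, hc⟩ := hchart O hO
    have h1 : On M O V.2.2.2.choose := by
      rw [h]
      exact hlab V
    have h2 := (on_iff hM hc).1 h1
    exact bnd_unif (div_unif hM hF hO hp hc h2.1 h2.2) (bq_un hM (hlab V) (le_of_eq h) hc)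
  · have h1 : ¬ O ≤ V.1 := fun h2 => h (hp.eq_of_le V.2.2.1 h2)
    rw [bq_off _ h1, Units.val_one]
    exact Un.one O
  · obtain ⟨c, hc⟩ := hchart Q hQ
    exact on_mono hM hc h (hlab V)
  · exact bq_un hM (hlab V) h hc
  · obtain ⟨c, hc⟩ := hchart Q hQ
    have h1 := (on_iff hM hc).1 hj
    obtain ⟨V, hV, hQV, hp, hu, -⟩ := exists_div hM hF hQ hc h1.1 h1.2
    have h2 : On M V j := ⟨c, hc.trans hQV, h1.1, bnd_not_un hu⟩
    exact ⟨⟨V, hV, hp, j, h2⟩, hQV, div_lab hM hF hV hp (hlab ⟨V, hV, hp, j, h2⟩) h2⟩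
  · refine Subtype.ext (div_on hM hF hQ V.2.1 V.2.2.1 h (hlab V) V'.2.1 V'.2.2.1 h' ?_)
    have h1 := hlab V'
    have he' : V.2.2.2.choose = V'.2.2.2.choose := he
    rwa [← he'] at h1
  · show Un Q ((bq M V.1 V.2.2.2.choose Q : Kˣ) : K)
    rw [bq_off _ h, Units.val_one]
    exact Un.one Q

/-- off the boundary -/
theorem BX.off_iff (hM : M.Ok0 n) {J : Type} {P : J → Subalgebra ℂ K}
    {B : J → Subalgebra ℂ K → Kˣ} {lab : J → M.J} (h : BX M P B lab) {Q : Subalgebra ℂ K}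
    (hQ : Q ∈ YS M) : (∀ i, Un Q (B i Q : K)) ↔ ∀ j, ¬ On M Q j := by
  refine ⟨fun h1 j hj => ?_, fun h1 i => ?_⟩
  · obtain ⟨i, hi, rfl⟩ := h.ex Q hQ j hj
    obtain ⟨c, hc⟩ := hQ
    have h2 := (on_iff hM hc.le).1 hj
    refine h2.2 ?_
    have h3 := (h.un Q ⟨c, hc⟩ i hi c hc.le).mul (h1 i)
    rwa [div_mul_cancel₀ _ (B i Q).ne_zero] at h3
  · by_cases hi : Q ≤ P i
    · exact absurd (h.on Q hQ i hi) (h1 _)
    · exact h.off Q hQ i hi

end Pool.Agent.KM
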