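import Pool.Agent.Lib.MP_732f67_ag.X.Prm

/-!
The irreducible components of the boundary and their local equations.
-/

namespace Pool.Agent.KM

variable {K : Type} [Field K] [Algebra ℂ K] {n : ℕ} {M : KMR.Mdl ℂ K ⊥}

/-- the local equation of the boundary divisor `V` with the label `j` -/
noncomputable def bq (M : KMR.Mdl ℂ K ⊥) (V : Subalgebra ℂ K) (j : M.J)
    (Q : Subalgebra ℂ K) : Kˣ := by
  classical exact if h : Q ≤ V ∧ ∃ c, M.R c ≤ Q then M.x h.2.choose j else 1

theorem bq_off {V Q : Subalgebra ℂ K} (j : M.J) (h : ¬ Q ≤ V) : bq M V j Q = 1 := by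
  rw [bq, dif_neg fun h1 => h h1.1]

/-- PROOF. `x_div`, `on_mono`, `on_iff`. -/
theorem bq_un (hM : M.Ok0 n) {V Q : Subalgebra ℂ K} {j : M.J} (hj : On M V j) (h : Q ≤ V)
    {c : M.ι} (hc : M.R c ≤ Q) : Un Q ((M.x c j : K) / bq M V j Q) := by
  have h1 : Q ≤ V ∧ ∃ c, M.R c ≤ Q := ⟨h, c, hc⟩
  rw [bq, dif_pos h1]
  have hc' := h1.2.choose_spec
  have hQ := on_mono hM hc h hj
  exact x_div hM hc hc' ((on_iff hM hc).1 hQ).1 ((on_iff hM hc').1 hQ).1

/-- PROOF. Let `O ∈ YS M`, `M.R c ≤ O`. If not `O ≤ V`: there is `y ∈ O`, `y ∉ V`, `S = {y}`. If `O ≤ V`: `V` is the local ring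
of `M.R c` at a prime ideal `p`, which is finitely generated, `p = (g_1, ..)`, and `g_i / x c j ∈ O` by
`div_gen`. `S` = generators of `M.R c` and the `g_i / x c j`. Let `O' ∈ YS M`, `S ⊆ O'`; then `M.R c ≤ O'`,
`O'` is a local ring of `M.R c` at `p'` (`ys_le`). If `O' ≤ V`: `bq_un` for both. Otherwise `bq O' = 1`, and not `p ⊆ p'`; some
`g_i` is a unit of `O'`, hence `x c j` is a unit of `O'`. -/
theorem bq_car (hM : M.Ok0 n) (hF : M.F = ⊤) {V : Subalgebra ℂ K} (hV : V ∈ YS M)
    (hp : PrimDiv V) {j : M.J} (hj : On M V j) : IsCar (YS M) (bq M V j) := by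
  classical
  intro O hO
  obtain ⟨c, hcO⟩ := hO
  by_cases hOV : O ≤ V
  · have hcV : M.R c ≤ V := hcO.le.trans hOV
    have hjO := on_mono hM hcO.le hOV hj
    have hjS : j ∈ M.S c := ((on_iff hM hcO.le).1 hjO).1
    have hjV : ¬ Un V (M.x c j : K) := ((on_iff hM hcV).1 hj).2
    obtain ⟨p, hpp, hpV⟩ := ys_le hM hV hcV
    have hft : Algebra.FiniteType ℂ (M.R c) := (Subalgebra.fg_iff_finiteType _).1 (hM.fg c)
    have hN : IsNoetherianRing (M.R c) := Algebra.FiniteType.isNoetherianRing ℂ _
    obtain ⟨G, hG⟩ := (isNoetherianRing_iff_ideal_fg _).1 hN p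
    obtain ⟨T, hT⟩ := hM.fg c
    have hb0 : ∀ b : M.R c, b ∉ p → (b : K) ≠ 0 := fun b hb h0 => hb (by
      have : b = 0 := Subtype.ext h0
      rw [this]
      exact p.zero_mem)
    have hbq := bq_un hM hj hOV hcO.le
    have hxR : (M.x c j : K) ∈ M.R c := hM.x_R c j hjS
    refine ⟨T ∪ G.image (fun g : M.R c => (g : K) / M.x c j) ∪
      {(M.x c j : K) / bq M V j O, ((M.x c j : K) / bq M V j O)⁻¹}, ?_, ?_⟩
    · intro s hs
      rw [Finset.mem_union, Finset.mem_union, Finset.mem_image, Finset.mem_insert,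
        Finset.mem_singleton] at hs
      rcases hs with (hs | ⟨g, hg, rfl⟩) | (rfl | rfl)
      · apply hcO.le
        rw [← hT]
        exact Algebra.subset_adjoin hs
      · refine div_gen hM hF ⟨c, hcO⟩ hcO.le hjS hV hp hOV hjV g (hcO.le g.2) fun hu => ?_
        have hgp : g ∈ p := by
          rw [← hG]
          exact Ideal.subset_span hg
        obtain ⟨a, b, hb, hab⟩ := (hpV _).1 hu.2.2
        have h1 : g * a = b := Subtype.ext (by
          change (g : K) * a = b
          have h2 := hb0 b hb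
          rw [eq_div_iff h2] at hab
          rw [← hab, ← mul_assoc, mul_inv_cancel₀ hu.1, one_mul])
        exact hb (h1 ▸ p.mul_mem_right a hgp)
      · exact hbq.2.1
      · exact hbq.2.2
    · intro O' hO' hS
      have hcO' : M.R c ≤ O' := by
        rw [← hT]
        refine Algebra.adjoin_le fun s hs => hS s ?_
        exact Finset.mem_union_left _ (Finset.mem_union_left _ hs)
      have hu1 : Un O' ((M.x c j : K) / bq M V j O) :=
        ⟨hbq.1, hS _ (Finset.mem_union_right _ (Finset.mem_insert_self _ _)),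
          hS _ (Finset.mem_union_right _ (Finset.mem_insert_of_mem
            (Finset.mem_singleton_self _)))⟩
      have hu2 : Un O' ((M.x c j : K) / bq M V j O') := by
        by_cases hO'V : O' ≤ V
        · exact bq_un hM hj hO'V hcO'
        · rw [bq_off j hO'V, Units.val_one, div_one]
          obtain ⟨p', hpp', hpO'⟩ := ys_le hM hO' hcO'
          have hnot : ¬ p ≤ p' := by
            intro hle
            apply hO'V
            intro x hx
            obtain ⟨a, b, hb, rfl⟩ := (hpO' x).1 hx
            exact (hpV _).2 ⟨a, b, fun h => hb (hle h), rfl⟩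
          obtain ⟨g, hg, hgp'⟩ : ∃ g ∈ G, g ∉ p' := by
            by_contra hcon
            push Not at hcon
            apply hnot
            rw [← hG]
            exact Ideal.span_le.2 hcon
          refine ⟨Units.ne_zero _, hcO' hxR, ?_⟩
          have hg0 : (g : K) ≠ 0 := fun h0 => hgp' (by
            have : g = 0 := Subtype.ext h0
            rw [this]
            exact p'.zero_mem)
          have h1 : (g : K)⁻¹ ∈ O' := (hpO' _).2 ⟨1, g, hgp', by
            change (g : K)⁻¹ = (1 : K) / g
            rw [one_div]⟩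
          have h2 : (g : K) / M.x c j ∈ O' := hS _ (Finset.mem_union_left _
            (Finset.mem_union_right _ (Finset.mem_image_of_mem _ hg)))
          have h3 := O'.mul_mem h2 h1
          rwa [div_mul_eq_mul_div, mul_inv_cancel₀ hg0, one_div] at h3
      have h3 := hu2.div hu1
      have h4 : (M.x c j : K) / bq M V j O' / ((M.x c j : K) / bq M V j O) =
          ((bq M V j O / bq M V j O' : Kˣ) : K) := by
        have := Units.ne_zero (M.x c j)
        have := Units.ne_zero (bq M V j O)
        have := Units.ne_zero (bq M V j O')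
        rw [Units.val_div_eq_div_val]
        field_simp
      rwa [h4] at h3
  · obtain ⟨y, hy, hyV⟩ := SetLike.not_le_iff_exists.1 hOV
    refine ⟨{y}, fun s hs => ?_, fun O' _ hS => ?_⟩
    · rw [Finset.mem_singleton] at hs
      rw [hs]
      exact hy
    · have hO'V : ¬ O' ≤ V := fun h => hyV (h (hS y (Finset.mem_singleton_self y)))
      rw [bq_off j hOV, bq_off j hO'V, div_one, Units.val_one]
      exact Un.one O'

end Pool.Agent.KM
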