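import Pool.Agent.Lib.MP_732f67_ag.X.Defs
import Pool.Agent.Lib.MP_732f67_ag.G.EtE
import Pool.Agent.Lib.MP_732f67_ag.R.EtCh
import Pool.Agent.Lib.MP_732f67_ag.N.PrR

/-!
Standard étale charts are smooth, their coordinates give bases of the differentials.
-/

namespace Pool.Agent.KM

open Polynomial

open scoped KaehlerDifferential

variable {K : Type} [Field K] [Algebra ℂ K] {n : ℕ} {A Q : Subalgebra ℂ K} {z : Fin n → K}
  {y u : K}

/-- the elements of `ℂ[z, y]` are values of polynomials -/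
theorem SmA_ev {a : K} (ha : a ∈ Algebra.adjoin ℂ (Set.range z ∪ {y})) :
    ∃ p : (MvPolynomial (Fin n) ℂ)[X], ev z y p = a := by
  induction ha using Algebra.adjoin_induction with
  | mem x hx =>
    rcases hx with ⟨i, rfl⟩ | hx
    · refine ⟨C (MvPolynomial.X i), ?_⟩
      rw [ev, eval₂_C]
      exact MvPolynomial.aeval_X z i
    · rw [Set.mem_singleton_iff] at hx
      refine ⟨X, ?_⟩
      rw [ev, eval₂_X, hx]
  | algebraMap c =>
    refine ⟨C (MvPolynomial.C c), ?_⟩
    rw [ev, eval₂_C]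
    exact MvPolynomial.aeval_C z c
  | add a b _ _ h1 h2 =>
    obtain ⟨p, rfl⟩ := h1
    obtain ⟨q, rfl⟩ := h2
    refine ⟨p + q, ?_⟩
    rw [ev, eval₂_add]
    rfl
  | mul a b _ _ h1 h2 =>
    obtain ⟨p, rfl⟩ := h1
    obtain ⟨q, rfl⟩ := h2
    refine ⟨p * q, ?_⟩
    rw [ev, eval₂_mul]
    rfl

/-- the elements of `ℂ[z, y, u]` have denominators `u⁻¹ ^ N` -/
theorem SmA_den (hu : u ≠ 0) (hi : u⁻¹ ∈ Algebra.adjoin ℂ (Set.range z ∪ {y})) {a : K}
    (ha : a ∈ Algebra.adjoin ℂ (Set.range z ∪ {y, u})) :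
    ∃ N : ℕ, a * u⁻¹ ^ N ∈ Algebra.adjoin ℂ (Set.range z ∪ {y}) := by
  induction ha using Algebra.adjoin_induction with
  | mem x hx =>
    rcases hx with hx | hx | hx
    · refine ⟨0, ?_⟩
      rw [pow_zero, mul_one]
      exact Algebra.subset_adjoin (Or.inl hx)
    · refine ⟨0, ?_⟩
      rw [pow_zero, mul_one]
      exact Algebra.subset_adjoin (Or.inr hx)
    · rw [Set.mem_singleton_iff] at hx
      refine ⟨1, ?_⟩
      rw [pow_one, hx, mul_inv_cancel₀ hu]
      exact one_mem _
  | algebraMap c =>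
    refine ⟨0, ?_⟩
    rw [pow_zero, mul_one]
    exact Subalgebra.algebraMap_mem _ c
  | add a b _ _ h1 h2 =>
    obtain ⟨N, h1⟩ := h1
    obtain ⟨M, h2⟩ := h2
    refine ⟨N + M, ?_⟩
    have h3 : (a + b) * u⁻¹ ^ (N + M) =
        a * u⁻¹ ^ N * u⁻¹ ^ M + b * u⁻¹ ^ M * u⁻¹ ^ N := by
      rw [pow_add]
      ring
    rw [h3]
    exact add_mem (mul_mem h1 (pow_mem hi M)) (mul_mem h2 (pow_mem hi N))
  | mul a b _ _ h1 h2 =>
    obtain ⟨N, h1⟩ := h1
    obtain ⟨M, h2⟩ := h2
    refine ⟨N + M, ?_⟩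
    have h3 : a * b * u⁻¹ ^ (N + M) = a * u⁻¹ ^ N * (b * u⁻¹ ^ M) := by
      rw [pow_add]
      ring
    rw [h3]
    exact mul_mem h1 h2

/-- a standard étale chart is étale over the affine space, smoothness and the differentials of its
local rings -/
theorem SmA_main (h : IsCh A z y u) (hQ : LocAt A Q) :
    Algebra.FormallySmooth ℂ Q ∧ ∃ x : Fin n → Q, (∀ i, (x i : K) = z i) ∧
      ∃ b : Module.Basis (Fin n) Q Ω[Q⁄ℂ], ∀ i, b i = KaehlerDifferential.D ℂ Q (x i) := by
  classical
  obtain ⟨f, hfm, hfi, hf0, hfd, hfdA⟩ := h.pol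
  have hzA : ∀ i, z i ∈ A := fun i => by
    rw [h.A_eq]
    exact Algebra.subset_adjoin (Or.inl ⟨i, rfl⟩)
  have hyA : y ∈ A := by
    rw [h.A_eq]
    exact Algebra.subset_adjoin (Or.inr (Or.inl rfl))
  have huA : u ∈ A := by
    rw [h.A_eq]
    exact Algebra.subset_adjoin (Or.inr (Or.inr rfl))
  have hle := hQ.le
  obtain ⟨q, hq, hqQ⟩ := hQ
  let zA : Fin n → A := fun i => ⟨z i, hzA i⟩
  let zQ : Fin n → Q := fun i => ⟨z i, hle (hzA i)⟩
  let _ : Algebra (MvPolynomial (Fin n) ℂ) K :=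
    (MvPolynomial.aeval z : MvPolynomial (Fin n) ℂ →ₐ[ℂ] K).toRingHom.toAlgebra
  have hinj : Function.Injective (algebraMap (MvPolynomial (Fin n) ℂ) K) := h.tb.1
  have hfs : FaithfulSMul (MvPolynomial (Fin n) ℂ) K :=
    (faithfulSMul_iff_algebraMap_injective _ _).2 hinj
  have hev : ∀ p : (MvPolynomial (Fin n) ℂ)[X], ev z y p = aeval y p := fun p => rfl
  -- the kernel of the evaluation
  have hint : IsIntegral (MvPolynomial (Fin n) ℂ) y := ⟨f, hfm, hf0⟩
  have hker : ∀ p : (MvPolynomial (Fin n) ℂ)[X], ev z y p = 0 → f ∣ p := by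
    intro p hp
    have h1 : minpoly (MvPolynomial (Fin n) ℂ) y ∣ p := minpoly.isIntegrallyClosed_dvd hint hp
    have h2 : minpoly (MvPolynomial (Fin n) ℂ) y ∣ f := minpoly.isIntegrallyClosed_dvd hint hf0
    obtain ⟨c, hc⟩ := h2
    rcases hfi.isUnit_or_isUnit hc with h3 | h3
    · exact absurd h3 (minpoly.not_isUnit _ _)
    · obtain ⟨c', rfl⟩ := h3
      have h4 : f ∣ minpoly (MvPolynomial (Fin n) ℂ) y := by
        rw [hc]
        exact (Units.mul_right_dvd).2 dvd_rfl
      exact h4.trans h1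
  -- the standard étale pair
  obtain ⟨g, hg⟩ := SmA_ev h.u_inv
  obtain ⟨N, hN⟩ := SmA_den h.u_ne h.u_inv (h.A_eq ▸ hfdA)
  obtain ⟨p₁, hp₁⟩ := SmA_ev hN
  have hcond : ∃ p₁ p₂ n, derivative f * p₁ + f * p₂ = g ^ n := by
    have h1 : ev z y (g ^ N - derivative f * p₁) = 0 := by
      rw [hev] at hg hp₁ ⊢
      rw [map_sub, map_pow, map_mul, hg, hp₁]
      have h2 : aeval y (derivative f) ≠ 0 := hfd
      have h3 : ev z y (derivative f) = aeval y (derivative f) := rfl
      rw [h3, ← mul_assoc, mul_inv_cancel₀ h2, one_mul, sub_self]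
    obtain ⟨p₂, hp₂⟩ := hker _ h1
    exact ⟨p₁, p₂, N, by rw [← hp₂]; ring⟩
  let E : StandardEtalePair (MvPolynomial (Fin n) ℂ) := ⟨f, hfm, g, hcond⟩
  let _ : Algebra (MvPolynomial (Fin n) ℂ) A :=
    (MvPolynomial.aeval zA : MvPolynomial (Fin n) ℂ →ₐ[ℂ] A).toRingHom.toAlgebra
  have hAK : ∀ p : MvPolynomial (Fin n) ℂ,
      ((algebraMap (MvPolynomial (Fin n) ℂ) A p : A) : K) = algebraMap _ K p := fun p =>
    (MvPolynomial.aeval_algebraMap_apply K zA p).symm
  have haA : ∀ p : (MvPolynomial (Fin n) ℂ)[X],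
      ((aeval (⟨y, hyA⟩ : A) p : A) : K) = aeval y p := by
    intro p
    rw [aeval_def, aeval_def, eval₂_eq_sum_range, eval₂_eq_sum_range, ← Subalgebra.coe_val,
      map_sum]
    refine Finset.sum_congr rfl fun i _ => ?_
    rw [map_mul, map_pow, Subalgebra.coe_val, hAK]
  have hmap : E.HasMap (⟨y, hyA⟩ : A) := by
    refine ⟨Subtype.ext ?_, IsUnit.of_mul_eq_one (⟨u, huA⟩ : A) (Subtype.ext ?_)⟩
    · rw [haA]
      exact hf0
    · show ((aeval (⟨y, hyA⟩ : A) g : A) : K) * u = 1
      rw [haA, ← hev, hg, inv_mul_cancel₀ h.u_ne]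
  have hX : ∀ p : (MvPolynomial (Fin n) ℂ)[X],
      ((E.lift (⟨y, hyA⟩ : A) hmap (aeval E.X p) : A) : K) = aeval y p := by
    intro p
    rw [← haA, ← aeval_algHom_apply, E.lift_X]
  have hbij : Function.Bijective (E.lift (⟨y, hyA⟩ : A) hmap) := by
    constructor
    · rw [injective_iff_map_eq_zero]
      intro w hw
      let S : StandardEtalePresentation (MvPolynomial (Fin n) ℂ) E.Ring :=
        ⟨E, E.X, StandardEtalePair.hasMap_X, by
          simpa [StandardEtalePair.lift_X_left] using Function.bijective_id⟩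
      obtain ⟨p, N, hp⟩ := S.exists_mul_aeval_x_g_pow_eq_aeval_x w
      have hp' : w * (aeval E.X g) ^ N = aeval E.X p := hp
      have h1 : aeval y p = 0 := by
        rw [← hX, ← hp', map_mul, hw, zero_mul]
        rfl
      obtain ⟨c, rfl⟩ := hker p h1
      have h2 : aeval E.X f = 0 := (StandardEtalePair.hasMap_X (P := E)).1
      rw [map_mul, h2, zero_mul] at hp'
      exact (IsUnit.mul_left_eq_zero ((StandardEtalePair.hasMap_X (P := E)).2.pow N)).1 hp'
    · intro a
      have h1 : ∀ b ∈ Algebra.adjoin ℂ (Set.range z ∪ {y, u}),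
          ∃ w : E.Ring, ((E.lift (⟨y, hyA⟩ : A) hmap w : A) : K) = b := by
        intro b hb
        induction hb using Algebra.adjoin_induction with
        | mem x hx =>
          rcases hx with ⟨i, rfl⟩ | hx | hx
          · refine ⟨algebraMap (MvPolynomial (Fin n) ℂ) E.Ring (MvPolynomial.X i), ?_⟩
            rw [AlgHom.commutes, hAK]
            exact MvPolynomial.aeval_X z i
          · refine ⟨E.X, ?_⟩
            rw [E.lift_X, hx]
          · rw [Set.mem_singleton_iff] at hx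
            have hu1 : IsUnit (aeval E.X g : E.Ring) := (StandardEtalePair.hasMap_X (P := E)).2
            refine ⟨(hu1.unit⁻¹ : (E.Ring)ˣ), ?_⟩
            have h2 : aeval E.X g * ((hu1.unit⁻¹ : (E.Ring)ˣ) : E.Ring) = 1 :=
              hu1.mul_val_inv
            have h4 : aeval y g * ((E.lift (⟨y, hyA⟩ : A) hmap
                ((hu1.unit⁻¹ : (E.Ring)ˣ) : E.Ring) : A) : K) = 1 := by
              rw [← hX, ← Subalgebra.coe_mul, ← map_mul, h2, map_one]
              rfl
            rw [← hev, hg] at h4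
            rw [hx]
            have h5 := h.u_ne
            field_simp at h4
            exact h4
        | algebraMap c =>
          refine ⟨algebraMap (MvPolynomial (Fin n) ℂ) E.Ring (MvPolynomial.C c), ?_⟩
          rw [AlgHom.commutes, hAK]
          exact MvPolynomial.aeval_C z c
        | add b c _ _ h1 h2 =>
          obtain ⟨w, rfl⟩ := h1
          obtain ⟨w', rfl⟩ := h2
          exact ⟨w + w', by rw [map_add]; rfl⟩
        | mul b c _ _ h1 h2 =>
          obtain ⟨w, rfl⟩ := h1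
          obtain ⟨w', rfl⟩ := h2
          exact ⟨w * w', by rw [map_mul]; rfl⟩
      obtain ⟨w, hw⟩ := h1 a (by
        rw [← h.A_eq]
        exact a.2)
      exact ⟨w, Subtype.ext hw⟩
  have hEtA : Algebra.FormallyEtale (MvPolynomial (Fin n) ℂ) A :=
    Algebra.FormallyEtale.of_equiv (AlgEquiv.ofBijective _ hbij)
  -- the local ring
  let _ : Algebra A Q := (Subalgebra.inclusion hle).toRingHom.toAlgebra
  have hloc : IsLocalization.AtPrime Q q := prR_isLocalization hle q hqQ
  let _ : Algebra (MvPolynomial (Fin n) ℂ) Q :=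
    (MvPolynomial.aeval zQ : MvPolynomial (Fin n) ℂ →ₐ[ℂ] Q).toRingHom.toAlgebra
  have : IsScalarTower ℂ (MvPolynomial (Fin n) ℂ) Q :=
    IsScalarTower.of_algebraMap_eq' (MvPolynomial.aeval zQ).comp_algebraMap.symm
  have : IsScalarTower (MvPolynomial (Fin n) ℂ) A Q := by
    refine IsScalarTower.of_algebraMap_eq fun p => Subtype.ext ?_
    have h1 : ((MvPolynomial.aeval zQ p : Q) : K) = MvPolynomial.aeval z p :=
      (MvPolynomial.aeval_algebraMap_apply K zQ p).symm
    exact h1.trans (hAK p).symm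
  have : Algebra.FormallyEtale A Q := .of_isLocalization q.primeCompl
  have : Algebra.FormallyEtale (MvPolynomial (Fin n) ℂ) Q :=
    Algebra.FormallyEtale.comp (MvPolynomial (Fin n) ℂ) A Q
  refine ⟨Algebra.FormallySmooth.comp ℂ (MvPolynomial (Fin n) ℂ) Q, zQ, fun i => rfl,
    ((KaehlerDifferential.mvPolynomialBasis ℂ (Fin n)).baseChange Q).map
      (KaehlerDifferential.tensorKaehlerEquivOfFormallyEtale ℂ (MvPolynomial (Fin n) ℂ) Q),
    fun i => ?_⟩
  simp only [Module.Basis.map_apply, Module.Basis.baseChange_apply,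
    KaehlerDifferential.mvPolynomialBasis_apply,
    KaehlerDifferential.tensorKaehlerEquivOfFormallyEtale_apply,
    KaehlerDifferential.mapBaseChange_tmul, one_smul, KaehlerDifferential.map_D]
  congr 1
  exact MvPolynomial.aeval_X zQ i

/-- PROOF. `A` is the localization away from `u⁻¹` of `ℂ[z][Y] / (f)` (`f` is monic and irreducible, `ℂ[z]` is normal, so
the kernel of `ℂ[z][Y] → K` is generated by `f`), and `f' (y)` is invertible in `A`: `A` is a standard étale
algebra over `P = MvPolynomial (Fin n) ℂ` (Mathlib: `StandardEtalePair`, `Algebra.IsStandardEtale`, or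
formally smooth and formally unramified directly), so it is formally étale over `P`, and formally smooth over
`ℂ`; a localization of `A` is formally étale over `A`. -/
theorem ch_etale (h : IsCh A z y u) (hQ : LocAt A Q) : Algebra.FormallySmooth ℂ Q :=
  (SmA_main h hQ).1

end Pool.Agent.KM
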