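import Pool.Agent.Lib.MP_732f67_ag.X.Sm
import Pool.Agent.Lib.MP_732f67_ag.X.SmA
import Pool.Agent.Lib.MP_732f67_ag.X.Bnd
import Pool.Agent.Lib.MP_732f67_ag.R.Can
import Pool.Agent.Lib.MP_732f67_ag.G.Nbh2

/-!
The model is smooth and has normal crossings; the canonical divisor.
-/

namespace Pool.Agent.KM

variable {K : Type} [Field K] [Algebra ℂ K] {n : ℕ} {M : KMR.Mdl ℂ K ⊥} {Q : Subalgebra ℂ K}
  {c : M.ι}

theorem cdn_frac {A B : Subalgebra ℂ K} (h : A ≤ B) (hA : FracEq A) : FracEq B := by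
  intro w
  obtain ⟨a, b, hb, hab⟩ := hA w
  exact ⟨⟨a, h a.2⟩, ⟨b, h b.2⟩, hb, hab⟩

/-- PROOF. `KMR.OkR.trd` and `M.F = ⊤`. -/
theorem ys_trdeg (hM : M.Ok0 n) (hF : M.F = ⊤) : Algebra.trdeg ℂ K = n := by
  obtain ⟨t, -, hi, ha⟩ := hM.trd
  have hb : IsTranscendenceBasis ℂ t := by
    rw [hi.isTranscendenceBasis_iff_isAlgebraic]
    refine ⟨fun a => ha a ?_⟩
    rw [hF]
    trivial
  rw [← hb.cardinalMk_eq_trdeg, Cardinal.mk_fin]

/-- PROOF. A closed point `O = M.O c φ ≤ Q` (`exists_clp`) with the parameters `z` (`OkP.par`); `KMR.exists_ch`: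
`M.R c ≤ A ≤ O`, `Ch A z y u`; `isCh_of_ch`. `S` = generators of `M.R c` and `A`. If `O' ∈ YS M`, `S ⊆ O'`, then `O'` is
a local ring of `M.R c` (`ys_le`), hence of `A` (`LocAt.of_le`): `ch_etale`, `ch_cd`. -/
theorem ys_cd (hM : M.Ok0 n) (hF : M.F = ⊤) (hQ : Q ∈ YS M) (hc : M.R c ≤ Q) :
    ∃ (A : Subalgebra ℂ K) (z : Fin n → K) (y u : K), IsCh A z y u ∧ LocAt A Q ∧
      (∀ j ∈ M.S c, ¬ Un Q (M.x c j : K) → ∃ i, z i = M.x c j) ∧
      ∃ S : Finset K, (∀ s ∈ S, s ∈ Q) ∧ ∀ O' ∈ YS M, (∀ s ∈ S, s ∈ O') → LocAt A O' := by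
  classical
  have hloc := ys_le hM hQ hc
  obtain ⟨φ, hφQ, -⟩ := exists_clp (hM.fg c) hloc ∅ fun t ht => absurd ht (Finset.notMem_empty t)
  obtain ⟨z, hz, hzx⟩ := hM.par c φ
  obtain ⟨A, y, u, hRA, hA, -, hch⟩ := KMR.exists_ch (ys_dim hM hF c) φ z hz ∅
    fun t ht => absurd ht (Finset.notMem_empty t)
  have hfr := cdn_frac hRA (ys_frac hM hF c)
  have hAQ : A ≤ Q := hA.trans hφQ
  refine ⟨A, z, y, u, isCh_of_ch hch hfr (ys_trdeg hM hF), hloc.of_le hRA hAQ, ?_, ?_⟩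
  · intro j hj hu
    refine hzx j ⟨hj, fun hu' => hu ?_⟩
    exact ⟨hu'.1, hφQ hu'.2.1, hφQ hu'.2.2⟩
  · have hS : ((Finset.univ.image z ∪ {y, u} : Finset K) : Set K) = Set.range z ∪ {y, u} := by
      rw [Finset.coe_union, Finset.coe_image, Finset.coe_univ, Set.image_univ, Finset.coe_insert,
        Finset.coe_singleton]
    refine ⟨Finset.univ.image z ∪ {y, u}, fun s hs => hAQ ?_, fun O' hO' hsO => ?_⟩
    · rw [hch.A_eq]
      refine Algebra.subset_adjoin ?_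
      rw [← hS]
      exact hs
    · have hAO : A ≤ O' := by
        rw [hch.A_eq]
        refine Algebra.adjoin_le fun s hs => hsO s ?_
        rw [← hS] at hs
        exact hs
      exact (ys_le hM hO' (hRA.trans hAO)).of_le hRA hAO

theorem ys_smooth (hM : M.Ok0 n) (hF : M.F = ⊤) : ∀ O ∈ YS M, Algebra.FormallySmooth ℂ O := by
  intro O hO
  obtain ⟨c, hc⟩ := hO
  obtain ⟨A, z, y, u, h1, h2, -⟩ := ys_cd hM hF ⟨c, hc⟩ hc.le
  exact ch_etale h1 h2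

/-- PROOF. `ys_cd`, `IsCh.closed`, `nbh2_closed`. -/
theorem ys_normal (hM : M.Ok0 n) (hF : M.F = ⊤) : Normal (YS M) := by
  intro O hO w hw
  obtain ⟨c, hc⟩ := hO
  obtain ⟨A, z, y, u, h1, h2, -⟩ := ys_cd hM hF ⟨c, hc⟩ hc.le
  exact nbh2_closed h2 le_rfl h2.le h1.closed hw

/-- PROOF. `exists_clo_off`: a closed point `O = M.O c φ ≤ Q` off the boundary; `CoordP`: the `x i - e i` are parameters
of `O`. `KMR.exists_ch`, `isCh_of_ch`, `ch_cd`, `cd_sub`. -/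
theorem off_cd (hM : M.Ok0 n) (hF : M.F = ⊤) {x : Fin n → K} (hx : M.CoordP x)
    (hQ : Q ∈ YS M) (h : ∀ j, ¬ On M Q j) : Cd Q x := by
  obtain ⟨c, hc⟩ := hQ
  obtain ⟨φ, hφQ, ho⟩ := exists_clo_off hM hc.le ⟨c, hc⟩ h
  obtain ⟨e, he⟩ := hx c φ ho
  obtain ⟨A, y, u, hRA, hA, -, hch⟩ := KMR.exists_ch (ys_dim hM hF c) φ _ he ∅
    fun t ht => absurd ht (Finset.notMem_empty t)
  have hfr := cdn_frac hRA (ys_frac hM hF c)
  have hAQ : A ≤ Q := hA.trans hφQ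
  exact cd_sub (ch_cd (isCh_of_ch hch hfr (ys_trdeg hM hF)) (hc.of_le hRA hAQ))

end Pool.Agent.KM
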