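import Pool.Agent.Lib.MP_732f67_ag.X.Cdn
import Pool.Agent.Lib.MP_732f67_ag.N.LbE
import Pool.Agent.Lib.MP_732f67_ag.N.FrC

/-!
The canonical divisor of the model; normal crossings.
-/

namespace Pool.Agent.KM

variable {K : Type} [Field K] [Algebra ℂ K] {n : ℕ} {M : KMR.Mdl ℂ K ⊥}

/-- PROOF. `κ Q = (nj Δ z)⁻¹` for a chosen `z` with `Cd Q z` (`nj_ne`: the `z i` are a transcendence basis of `K`, `ys_cd`).
The property is `nj_un`. `IsCar`: `z`, `S` from `ys_cd` for `O`: `κ O' * nj Δ z` is a unit of `O'` for all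
`O' ∈ YS M` which contain `S`, in particular for `O`, and then `κ O * nj Δ z` is also a unit of `O'` when the
unit `κ O * nj Δ z` of `O` and its inverse are in `S`. -/
theorem exists_kap (hM : M.Ok0 n) (hF : M.F = ⊤) {Δ : Fin n → Derivation ℂ K K}
    (hΔ : LinearIndependent K Δ) : ∃ κ : Subalgebra ℂ K → Kˣ, IsCar (YS M) κ ∧
      ∀ O ∈ YS M, ∀ z : Fin n → K, Cd O z → Un O ((κ O : K) * nj Δ z) := by
  classical
  have h1 : ∀ Q : Subalgebra ℂ K, ∃ κ : Kˣ, Q ∈ YS M →
      ∀ z : Fin n → K, Cd Q z → Un Q ((κ : K) * nj Δ z) := by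
    intro Q
    by_cases hQ : Q ∈ YS M
    · obtain ⟨c, hc⟩ := id hQ
      obtain ⟨A, z, y, u, hA, hl, -⟩ := ys_cd hM hF hQ hc.le
      have h0 : nj Δ z ≠ 0 := nj_ne hA.tb hΔ
      refine ⟨(Units.mk0 _ h0)⁻¹, fun _ z' hz' => ?_⟩
      obtain ⟨x, hx, hb⟩ := ch_cd hA hl
      obtain ⟨x', hx', hb'⟩ := hz'
      obtain ⟨w, hw, he⟩ := nj_un (Δ := Δ) hb' hb
      have e1 : (fun l => (x l : K)) = z := funext hx
      have e2 : (fun l => (x' l : K)) = z' := funext hx'
      rw [e1, e2] at he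
      rw [he, Units.val_inv_eq_inv_val, Units.val_mk0, mul_comm w, inv_mul_cancel_left₀ h0]
      exact hw
    · exact ⟨1, fun h => absurd h hQ⟩
  choose κ hκ using h1
  refine ⟨κ, fun O hO => ?_, fun O hO => hκ O hO⟩
  obtain ⟨c, hc⟩ := id hO
  obtain ⟨A, z, y, u, hA, hl, -, S, hS, hS'⟩ := ys_cd hM hF hO hc.le
  have h2 := hκ O hO z (ch_cd hA hl)
  refine ⟨insert ((κ O : K) * nj Δ z) (insert ((κ O : K) * nj Δ z)⁻¹ S), ?_, ?_⟩
  · intro s hs
    rw [Finset.mem_insert, Finset.mem_insert] at hs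
    rcases hs with rfl | rfl | hs
    exacts [h2.2.1, h2.2.2, hS s hs]
  · intro O' hO' hs
    have h3 := hκ O' hO' z (ch_cd hA (hS' O' hO' fun s h =>
      hs s (Finset.mem_insert_of_mem (Finset.mem_insert_of_mem h))))
    have h4 : Un O' ((κ O : K) * nj Δ z) :=
      ⟨h2.1, hs _ (Finset.mem_insert_self _ _),
        hs _ (Finset.mem_insert_of_mem (Finset.mem_insert_self _ _))⟩
    have h5 := h4.div h3
    rw [mul_div_mul_right _ _ (right_ne_zero_of_mul h2.1)] at h5
    rw [Units.val_div_eq_div_val]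
    exact h5

/-- PROOF. `ys_cd` for a chart `c` of `O`: `z`, and `x` from `Cd`. `co i = some l` if `O ≤ P i` and `z l = M.x c (lab i)`
(`BX.on`), `co i = none` otherwise. If `co i = co i' = some l`: `x c (lab i) = x c (lab i')`, so `lab i = lab i'`
(`v_x`, `v_x'`), and `i = i'` (`BX.one`). The rest is `BX.un`, `BX.off` and `exists_kap`. -/
theorem ys_snc (hM : M.Ok0 n) (hF : M.F = ⊤) {Δ : Fin n → Derivation ℂ K K}
    (hΔ : LinearIndependent K Δ) {J : Type} {P : J → Subalgebra ℂ K}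
    {B : J → Subalgebra ℂ K → Kˣ} {lab : J → M.J} (h : BX M P B lab)
    {κ : Subalgebra ℂ K → Kˣ} (hκ : IsCar (YS M) κ)
    (hκ' : ∀ O ∈ YS M, ∀ z : Fin n → K, Cd O z → Un O ((κ O : K) * nj Δ z)) :
    Snc n (YS M) B Δ κ where
  proj := ys_proj hM hF
  dim := ys_trdeg hM hF
  frame := hΔ
  smooth := ys_smooth hM hF
  car := h.car
  kcar := hκ
  snc O hO := by
    classical
    obtain ⟨c, hc⟩ := id hO
    obtain ⟨A, z, y, u, hA, hl, hz, -⟩ := ys_cd hM hF hO hc.le
    have hcd := ch_cd hA hl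
    obtain ⟨x, hx, hb⟩ := id hcd
    have hex : (fun l => (x l : K)) = z := funext hx
    have h1 : ∀ i, ∃ o : Option (Fin n), (O ≤ P i → ∃ l, o = some l ∧ z l = M.x c (lab i)) ∧
        (¬ O ≤ P i → o = none) := by
      intro i
      by_cases hi : O ≤ P i
      · obtain ⟨hi1, hi2⟩ := (on_iff hM hc.le).1 (h.on O hO i hi)
        obtain ⟨l, hl⟩ := hz _ hi1 hi2
        exact ⟨some l, fun _ => ⟨l, rfl, hl⟩, fun h => absurd hi h⟩
      · exact ⟨none, fun h => absurd h hi, fun _ => rfl⟩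
    choose co hco hco' using h1
    refine ⟨x, co, hb, ?_, ?_, ?_⟩
    · intro i i' l hi hi'
      have a1 : O ≤ P i := by
        by_contra hcon
        rw [hco' i hcon] at hi
        exact absurd hi (by simp)
      have a2 : O ≤ P i' := by
        by_contra hcon
        rw [hco' i' hcon] at hi'
        exact absurd hi' (by simp)
      obtain ⟨l1, e1, f1⟩ := hco i a1
      obtain ⟨l2, e2, f2⟩ := hco i' a2
      rw [hi] at e1
      rw [hi'] at e2
      obtain rfl := Option.some.inj e1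
      obtain rfl := Option.some.inj e2
      have g1 := (on_iff hM hc.le).1 (h.on O hO i a1)
      have g2 := (on_iff hM hc.le).1 (h.on O hO i' a2)
      have hxx : M.x c (lab i) = M.x c (lab i') := Units.ext (by rw [← f1, f2])
      refine h.one O hO i i' a1 a2 ?_
      by_contra hne
      have b1 := hM.v_x' c (lab i) g1.1 (lab i') g2.1 hne
      rw [← hxx, hM.v_x c (lab i) g1.1] at b1
      exact one_ne_zero b1
    · intro i
      rw [hex]
      by_cases hi : O ≤ P i
      · obtain ⟨l, e1, f1⟩ := hco i hi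
        rw [e1]
        show Un O ((B i O : K) / z l)
        rw [f1]
        have h2 := (h.un O hO i hi c hc.le).inv
        rw [inv_div] at h2
        exact h2
      · rw [hco' i hi]
        show Un O ((B i O : K) / 1)
        rw [div_one]
        exact h.off O hO i hi
    · rw [hex]
      exact hκ' O hO z hcd

end Pool.Agent.KM
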