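import Pool.Agent.Lib.MP_732f67_ag.X.Defs
import Pool.Agent.Lib.MP_732f67_ag.G.PtC
import Pool.Agent.Lib.MP_732f67_ag.R.Et

/-!
Closed points of a model inside its own field of functions.
-/

namespace Pool.Agent.KM

variable {K : Type} [Field K] [Algebra ℂ K] {n : ℕ} {M : KMR.Mdl ℂ K ⊥}

theorem locAt_loc {A : Subalgebra ℂ K} (φ : A →ₐ[ℂ] ℂ) : LocAt A (KMR.Loc A φ) :=
  ⟨RingHom.ker φ, RingHom.ker_isPrime φ, fun _ =>
    ⟨fun ⟨a, b, hb, h⟩ => ⟨a, b, fun h0 => hb h0, h⟩, fun ⟨a, b, hb, h⟩ => ⟨a, b, fun h0 => hb h0, h⟩⟩⟩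

/-- Every local ring of a finitely generated algebra contains a closed point which contains
finitely many given elements of it.

PROOF. Let `O` be the local ring of `A` at `P`, `t = a_t / b_t` for `t ∈ T`, `b = ∏ b_t ∉ P`. `A` is a Jacobson
ring: there is a maximal ideal `m ≥ P` with `b ∉ m`, its residue field is `ℂ`. -/
theorem exists_clp {A O : Subalgebra ℂ K} (hA : A.FG) (h : LocAt A O) (T : Finset K)
    (hT : ∀ t ∈ T, t ∈ O) :
    ∃ φ : A →ₐ[ℂ] ℂ, KMR.Loc A φ ≤ O ∧ ∀ t ∈ T, t ∈ KMR.Loc A φ := by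
  classical
  obtain ⟨P, hP, h⟩ := h
  choose! a b hb hab using fun t (ht : t ∈ T) => (h t).1 (hT t ht)
  have hprod : ∏ t ∈ T, b t ∉ P := by
    intro h0
    obtain ⟨t, ht, h1⟩ := (hP.prod_mem_iff).1 h0
    exact hb t ht h1
  obtain ⟨φ, hφ, hφb⟩ : ∃ φ : A →ₐ[ℂ] ℂ, (∀ a ∈ P, φ a = 0) ∧ φ (∏ t ∈ T, b t) ≠ 0 := by
    by_contra hcon
    push Not at hcon
    obtain ⟨N, hN⟩ := KMR.exists_pow_mem hA P (∏ t ∈ T, b t) hcon
    exact hprod (hP.mem_of_pow_mem N hN)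
  refine ⟨φ, ?_, fun t ht => ?_⟩
  · rintro x ⟨c, d, hd, rfl⟩
    exact (h _).2 ⟨c, d, fun h0 => hd (hφ d h0), rfl⟩
  · refine ⟨a t, b t, fun h0 => hφb ?_, hab t ht⟩
    rw [map_prod]
    exact Finset.prod_eq_zero ht h0

/-- a local ring of `A` which contains the local ring `O` of `A` is a local ring of `O` -/
theorem locAt_of_locAt {A O O' : Subalgebra ℂ K} (h : LocAt A O) (h' : LocAt A O')
    (hle : O ≤ O') : LocAt O O' := h'.of_le h.le hle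

theorem ys_frac (hM : M.Ok0 n) (hF : M.F = ⊤) (c : M.ι) : FracEq (M.R c) := by
  intro x
  obtain ⟨b, hb, d, hd, hd0, hx⟩ := hM.frac c x (by rw [hF]; exact IntermediateField.mem_top)
  exact ⟨⟨b, hb⟩, ⟨d, hd⟩, hd0, hx⟩

theorem ys_dim (hM : M.Ok0 n) (hF : M.F = ⊤) (c : M.ι) : KMR.Dim (M.R c) n := by
  obtain ⟨t, _, ht2, ht3⟩ := hM.trd
  have hmem : ∀ a : K, a ∈ M.F := fun a => by
    rw [hF]
    exact IntermediateField.mem_top
  exact ⟨hM.fg c, t, fun i => hM.frac c (t i) (hmem _), ht2, fun a _ => ht3 a (hmem a)⟩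

/-- the valuation ring `⊤` contains a chart -/
theorem ys_ne (hM : M.Ok0 n) : Nonempty M.ι := by
  obtain ⟨c, _⟩ := hM.complete ⊤ fun _ => ValuationSubring.mem_top _
  exact ⟨c⟩

theorem ys_loc (c : M.ι) (φ : M.R c →ₐ[ℂ] ℂ) : M.O c φ ∈ YS M := ⟨c, locAt_loc φ⟩

end Pool.Agent.KM
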