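import Pool.Agent.Lib.MP_732f67_ag.N.Defs
import Pool.Agent.Lib.MP_732f67_ag.R.MainDef

/-!
From Part R to Part N: definitions.

`M : Mdl ℂ K ⊥` is a model of the field `K` inside `K` itself (`M.F = ⊤`).
-/

namespace Pool.Agent.KMR

variable {k Ω : Type} [Field k] [Field Ω] [Algebra k Ω] {G : Subgroup (Ω ≃ₐ[k] Ω)}

/-- the automorphism `γ` acts on the model: it permutes the labels and the closed points, and a
label meets its image only if it is fixed -/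
def Mdl.Act (M : Mdl k Ω G) (γ : Ω ≃ₐ[k] Ω) : Prop :=
  ∃ σ : Equiv.Perm M.J, (∀ a ∈ M.Ψ, ga γ a ∈ M.Ψ) ∧
    (∀ a ∈ M.Ψ, ∀ j, M.v (σ j) (ga γ a) = M.v j a) ∧
    (∀ c, ∀ j ∈ M.S c, σ j ∈ M.S c → σ j = j) ∧
    ∀ c (φ : M.R c →ₐ[k] k), ∃ c', ∃ φ' : M.R c' →ₐ[k] k,
      (∀ a, a ∈ M.O c φ ↔ γ a ∈ M.O c' φ') ∧ ∀ j, M.At c φ j ↔ M.At c' φ' (σ j)

end Pool.Agent.KMR

namespace Pool.Agent.KM

open scoped KaehlerDifferential

variable {K : Type} [Field K] [Algebra ℂ K]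

/-- the local rings of the model `M` -/
def YS (M : KMR.Mdl ℂ K ⊥) : Set (Subalgebra ℂ K) := {Q | ∃ c, LocAt (M.R c) Q}

/-- the label `j` passes through `Q` -/
def On (M : KMR.Mdl ℂ K ⊥) (Q : Subalgebra ℂ K) (j : M.J) : Prop :=
  ∃ c, M.R c ≤ Q ∧ j ∈ M.S c ∧ ¬ Un Q (M.x c j : K)

/-- the differentials of the `z i` form a basis of the differentials of `O` -/
def Cd {n : ℕ} (O : Subalgebra ℂ K) (z : Fin n → K) : Prop :=
  ∃ x : Fin n → O, (∀ i, (x i : K) = z i) ∧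
    ∃ b : Module.Basis (Fin n) O Ω[O⁄ℂ], ∀ i, b i = KaehlerDifferential.D ℂ O (x i)

/-- the `P i` are the irreducible components of the boundary, with the local equations `B i` -/
structure BX (M : KMR.Mdl ℂ K ⊥) {J : Type} (P : J → Subalgebra ℂ K)
    (B : J → Subalgebra ℂ K → Kˣ) (lab : J → M.J) : Prop where
  bd : Bd (YS M) P B
  car : ∀ i, IsCar (YS M) (B i)
  on : ∀ Q ∈ YS M, ∀ i, Q ≤ P i → On M Q (lab i)
  un : ∀ Q ∈ YS M, ∀ i, Q ≤ P i → ∀ c, M.R c ≤ Q → Un Q ((M.x c (lab i) : K) / B i Q)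
  ex : ∀ Q ∈ YS M, ∀ j, On M Q j → ∃ i, Q ≤ P i ∧ lab i = j
  one : ∀ Q ∈ YS M, ∀ i i', Q ≤ P i → Q ≤ P i' → lab i = lab i' → i = i'
  off : ∀ Q ∈ YS M, ∀ i, ¬ Q ≤ P i → Un Q (B i Q : K)

/-- the result of Part R inside the function field `K` of the model; `K` is a finite extension of
`F`, with a group `G'` of automorphisms such that `K ^ G' = F ^ G` -/
structure Emd (F : Type) [Field F] [Algebra ℂ F] (d : ℕ) (G : Subgroup (F ≃ₐ[ℂ] F))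
    (Φ : Finset F) (x : Fin d → F) where
  K : Type
  [fld : Field K]
  [alg : Algebra ℂ K]
  i : F →ₐ[ℂ] K
  fin : (i : F →+* K).Finite
  M : KMR.Mdl ℂ K ⊥
  ok : M.Ok0 d
  top : M.F = ⊤
  G' : Subgroup (K ≃ₐ[ℂ] K)
  finG : Finite G'
  grp : ∀ γ' ∈ G', ∃ γ ∈ G, ∀ x, γ' (i x) = i (γ x)
  fix : ∀ x : K, (∀ γ' ∈ G', γ' x = x) → ∃ y : F, (∀ γ ∈ G, γ y = y) ∧ i y = x
  act : ∀ γ' ∈ G', M.Act γ'
  psi : ∀ φ ∈ Φ, ∃ a ∈ M.Ψ, (a : K) = i φ ∧ M.Cmp a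
  coord : M.CoordP fun l => i (x l)
  f : F
  f_adj : f ∈ Algebra.adjoin ℂ (Set.range x)
  f_psi : ∃ a ∈ M.Ψ, (a : K) = i f
  off : ∀ c (φ : M.R c →ₐ[ℂ] ℂ), (∀ l, i (x l) ∈ M.O c φ) → KMR.Un (M.O c φ) (i f) →
    M.Off c φ

attribute [instance] Emd.fld Emd.alg

end Pool.Agent.KM
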