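import Pool.Agent.Lib.MP_732f67_ag.X.Fld

/-!
The field of invariants inside the algebraic closure: finiteness.
-/

namespace Pool.Agent.KM

variable {F : Type} [Field F] [Algebra ℂ F] {G : Subgroup (F ≃ₐ[ℂ] F)}

/-- PROOF. `F = ℂ(S)` for a finite set `S`, the elements of `S` are algebraic over `ℂ(x)`. -/
theorem fld_ext {d : ℕ} {x : Fin d → F} (hx : IsTranscendenceBasis ℂ x)
    (hF : ∃ S : Finset F, IntermediateField.adjoin ℂ (S : Set F) = ⊤) :
    KMR.Fext (KMR.kt (k := ℂ) fun l => emb F (x l)) (emb F).fieldRange := by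
  classical
  obtain ⟨S, hS⟩ := hF
  have hle : KMR.kt (k := ℂ) (fun l => emb F (x l)) ≤ (emb F).fieldRange := by
    rw [KMR.kt, IntermediateField.adjoin_le_iff]
    rintro _ ⟨l, rfl⟩
    exact ⟨x l, rfl⟩
  refine ⟨hle, S.image (emb F), ?_, ?_⟩
  · intro a ha
    obtain ⟨y, -, rfl⟩ := Finset.mem_image.1 ha
    have h1 : Algebra.IsAlgebraic (Algebra.adjoin ℂ (Set.range x)) F := hx.isAlgebraic
    obtain ⟨p, hp0, hp⟩ := h1.isAlgebraic y
    have hmem : ∀ c : Algebra.adjoin ℂ (Set.range x),
        emb F (c : F) ∈ KMR.kt (k := ℂ) (fun l => emb F (x l)) := by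
      intro c
      have h2 : (Algebra.adjoin ℂ (Set.range x)).map (emb F) ≤
          (KMR.kt (k := ℂ) (fun l => emb F (x l))).toSubalgebra := by
        rw [AlgHom.map_adjoin]
        refine Algebra.adjoin_le ?_
        rintro _ ⟨_, ⟨l, rfl⟩, rfl⟩
        exact IntermediateField.subset_adjoin _ _ ⟨l, rfl⟩
      exact h2 ⟨c, c.2, rfl⟩
    let f : Algebra.adjoin ℂ (Set.range x) →+* KMR.kt (k := ℂ) (fun l => emb F (x l)) :=
      (((emb F : F →+* AlgebraicClosure F).comp
        (algebraMap (Algebra.adjoin ℂ (Set.range x)) F)).codRestrict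
          (KMR.kt (k := ℂ) (fun l => emb F (x l))) hmem)
    have hf : ∀ c, ((f c : KMR.kt (k := ℂ) (fun l => emb F (x l))) : AlgebraicClosure F) =
        emb F (c : F) := fun c => rfl
    have hfi : Function.Injective f := by
      intro c c' h
      have h3 := congrArg
        (fun z : KMR.kt (k := ℂ) (fun l => emb F (x l)) => (z : AlgebraicClosure F)) h
      exact Subtype.ext ((emb F).injective h3)
    refine ⟨p.map f, (Polynomial.map_ne_zero_iff hfi).2 hp0, ?_⟩
    rw [Polynomial.aeval_def, Polynomial.eval₂_map]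
    have h4 : (algebraMap (KMR.kt (k := ℂ) (fun l => emb F (x l))) (AlgebraicClosure F)).comp f =
        (emb F : F →+* AlgebraicClosure F).comp
          (algebraMap (Algebra.adjoin ℂ (Set.range x)) F) := by
      ext c
      rfl
    rw [h4]
    have h5 := congrArg (emb F) hp
    rw [Polynomial.aeval_def, map_zero] at h5
    rw [← h5]
    exact (Polynomial.hom_eval₂ p (algebraMap (Algebra.adjoin ℂ (Set.range x)) F)
      (emb F : F →+* AlgebraicClosure F) y).symm
  · apply le_antisymm
    · rw [AlgHom.fieldRange_eq_map, ← hS, IntermediateField.adjoin_map]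
      refine IntermediateField.adjoin.mono _ _ _ ?_
      rw [Finset.coe_image]
      exact Set.subset_union_right
    · rw [IntermediateField.adjoin_le_iff]
      rintro a (ha | ha)
      · exact hle ha
      · obtain ⟨y, -, rfl⟩ := Finset.mem_image.1 (Finset.mem_coe.1 ha)
        exact ⟨y, rfl⟩

/-- an extension as in Part R is finite -/
theorem fld_fin [Finite G] {N : IntermediateField ℂ (AlgebraicClosure F)}
    (h : KMR.Fext (fxL G) N) (i : F →ₐ[ℂ] N) (hi : ∀ x, (i x : AlgebraicClosure F) = emb F x) :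
    (i : F →+* N).Finite := by
  classical
  obtain ⟨d, e, he, hs⟩ := h.finite
  letI := (i : F →+* N).toAlgebra
  change Module.Finite F N
  refine ⟨⟨Finset.univ.image fun j => (⟨e j, he j⟩ : N), ?_⟩⟩
  rw [eq_top_iff]
  rintro a -
  obtain ⟨c, hc, hac⟩ := hs a a.2
  have h1 : ∀ j, ∃ y : F, emb F y = c j := fun j => by
    obtain ⟨y, -, hy⟩ := mem_fxL.1 (hc j)
    exact ⟨y, hy⟩
  choose y hy using h1
  have h2 : a = ∑ j, y j • (⟨e j, he j⟩ : N) := by
    apply Subtype.ext
    rw [hac, AddSubmonoidClass.coe_finset_sum]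
    refine Finset.sum_congr rfl fun j _ => ?_
    rw [← hy, ← hi]
    rfl
  rw [h2]
  refine Submodule.sum_mem _ fun j _ => Submodule.smul_mem _ _ (Submodule.subset_span ?_)
  exact Finset.mem_coe.2 (Finset.mem_image_of_mem _ (Finset.mem_univ j))

private theorem fldB_fin {K : Type} [Field K] [Algebra ℂ K] [Algebra F K] [Module.Finite F K]
    (E : Subfield F) [Module.Finite E F] (G' : Subgroup (K ≃ₐ[ℂ] K))
    (h : ∀ γ' ∈ G', ∀ y : E, γ' (algebraMap F K y) = algebraMap F K y) : Finite G' := by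
  have _ : Module.Finite E K := Module.Finite.trans F K
  let ψ : G' → (K ≃ₐ[E] K) := fun γ' =>
    { (γ' : K ≃ₐ[ℂ] K).toRingEquiv with
      commutes' := fun y => h γ' γ'.2 y }
  have hψ : Function.Injective ψ := by
    intro γ₁ γ₂ h12
    apply Subtype.ext
    apply AlgEquiv.ext
    intro z
    exact congrArg (fun σ : K ≃ₐ[E] K => σ z) h12
  exact Finite.of_injective ψ hψ

/-- a finite extension has finitely many automorphisms over a subfield over which it is
finite -/
theorem fld_finG [Finite G] {K : Type} [Field K] [Algebra ℂ K] (i : F →ₐ[ℂ] K)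
    (hi : (i : F →+* K).Finite) (G' : Subgroup (K ≃ₐ[ℂ] K))
    (h : ∀ γ' ∈ G', ∀ y : F, (∀ γ ∈ G, γ y = y) → γ' (i y) = i y) : Finite G' := by
  classical
  let _ : Algebra F K := (i : F →+* K).toAlgebra
  have _ : Module.Finite F K := hi
  exact fldB_fin (FixedPoints.subfield G F) G' fun γ' hγ' y => h γ' hγ' y fun γ hγ => y.2 ⟨γ, hγ⟩

end Pool.Agent.KM
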