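import Pool.Agent.Lib.MP_732f67_ag.X.Tr

/-!
The transfer of a model of the field `F` to the field `F` itself.
-/

namespace Pool.Agent.KMR

variable {k Ω : Type} [Field k] [Field Ω] [Algebra k Ω] {G : Subgroup (Ω ≃ₐ[k] Ω)}

theorem Mdl.tr_coord {n : ℕ} (M : Mdl k Ω G) (h : M.Ok0 n) {x : Fin n → Ω} {x' : Fin n → M.F}
    (hx : ∀ l, (x' l : Ω) = x l) (hc : M.CoordP x) : M.tr.CoordP x' := by
  intro c φ ho
  obtain ⟨φ', hφ⟩ := M.tr_pt' h c φ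
  have ho' : M.Off c φ' := fun j hj => ho j ((M.tr_at h hφ j).2 hj)
  obtain ⟨e, he1, he2⟩ := hc c φ' ho'
  have hz : ∀ i, ((x' i - algebraMap k M.F (e i) : M.F) : Ω) = x i - algebraMap k Ω (e i) := by
    intro i
    rw [AddSubgroupClass.coe_sub, hx]
    rfl
  refine ⟨e, fun i => ?_, fun r hr hr' => ?_⟩
  · rw [hφ, M.tr_un, hz]
    refine ⟨?_, (he1 i).2⟩
    show ((x' i - algebraMap k M.F (e i) : M.F) : Ω) ∈ M.O c φ'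
    rw [hz]
    exact (he1 i).1
  · rw [hφ] at hr hr'
    rw [M.tr_un] at hr'
    obtain ⟨a, ha, hra⟩ := he2 (r : Ω) hr hr'
    refine ⟨fun i => ⟨a i, Mdl.can_F h.toOkR c φ' (a i) (ha i)⟩, fun i => ?_, Subtype.ext ?_⟩
    · rw [hφ]
      exact ha i
    · rw [hra, AddSubmonoidClass.coe_finset_sum]
      refine Finset.sum_congr rfl fun i _ => ?_
      rw [MulMemClass.coe_mul, hz]

theorem Mdl.tr_off {n : ℕ} (M : Mdl k Ω G) (h : M.Ok0 n) {x : Fin n → Ω} {x' : Fin n → M.F}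
    (hx : ∀ l, (x' l : Ω) = x l) {f : Ω} {f' : M.F} (hf : (f' : Ω) = f)
    (hc : ∀ c (φ : M.R c →ₐ[k] k), (∀ l, x l ∈ M.O c φ) → Un (M.O c φ) f → M.Off c φ) :
    ∀ c (φ : M.tr.R c →ₐ[k] k), (∀ l, x' l ∈ M.tr.O c φ) → Un (M.tr.O c φ) f' →
      M.tr.Off c φ := by
  intro c φ hl hu j hj
  obtain ⟨φ', hφ⟩ := M.tr_pt' h c φ
  rw [hφ, M.tr_un, hf] at hu
  refine hc c φ' (fun l => ?_) hu j ((M.tr_at h hφ j).1 hj)
  have h1 := hl l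
  rw [hφ] at h1
  have h2 : ((x' l : M.F) : Ω) ∈ M.O c φ' := h1
  rwa [hx] at h2

/-- PROOF. `σ = M.π g` (`EqJ`, `EqP`, `tr_pt`, `tr_pt'`, `tr_at`). -/
theorem Mdl.tr_act {n : ℕ} (M : Mdl k Ω G) (h : M.Good n) (g : G) (γ : M.F ≃ₐ[k] M.F)
    (hγ : ∀ x : M.F, ((γ x : M.F) : Ω) = (g : Ω ≃ₐ[k] Ω) x) : M.tr.Act γ := by
  have hga : ∀ a : (M.F)ˣ, Units.map (M.F.val : M.F →* Ω) (ga γ a) =
      ga (g : Ω ≃ₐ[k] Ω) (Units.map (M.F.val : M.F →* Ω) a) := fun a => Units.ext (hγ a)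
  refine ⟨M.π g, fun a ha => ?_, fun a ha j => ?_, fun c j hj hj' => h.strict g c j hj hj',
    fun c φ => ?_⟩
  · show Units.map (M.F.val : M.F →* Ω) (ga γ a) ∈ M.Ψ
    rw [hga]
    exact h.Ψ_g g _ ha
  · show M.v (M.π g j) (Units.map (M.F.val : M.F →* Ω) (ga γ a)) = _
    rw [hga]
    exact h.v_g g _ ha j
  · obtain ⟨φ₁, hφ₁⟩ := M.tr_pt' h.toOk0 c φ
    obtain ⟨c', φ₂, h1, h2⟩ := h.eqP g c φ₁
    obtain ⟨φ', hφ'⟩ := M.tr_pt h.toOk0 c' φ₂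
    refine ⟨c', φ', fun a => ?_, fun j => ?_⟩
    · rw [hφ₁, hφ']
      show (a : Ω) ∈ M.O c φ₁ ↔ ((γ a : M.F) : Ω) ∈ M.O c' φ₂
      rw [hγ]
      exact h1 a
    · rw [M.tr_at h.toOk0 hφ₁, M.tr_at h.toOk0 hφ']
      exact h2 j

end Pool.Agent.KMR
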