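import Pool.Agent.Lib.MP_732f67_ag.X.TrA
import Pool.Agent.Lib.MP_732f67_ag.X.TrB
import Pool.Agent.Lib.MP_732f67_ag.X.FldB

/-!
From Part R to Part N: the model inside its own field of functions.
-/

namespace Pool.Agent.KM

variable {F : Type} [Field F] [Algebra ℂ F] {G : Subgroup (F ≃ₐ[ℂ] F)} {d : ℕ}

/-- restriction of automorphisms to a stable subfield -/
def emd_rs {Ω : Type} [Field Ω] [Algebra ℂ Ω] (H : Subgroup (Ω ≃ₐ[ℂ] Ω))
    (N : IntermediateField ℂ Ω) (hN : ∀ g : H, ∀ a ∈ N, (g : Ω ≃ₐ[ℂ] Ω) a ∈ N) :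
    H →* (N ≃ₐ[ℂ] N) where
  toFun g :=
    { toFun := fun a => ⟨(g : Ω ≃ₐ[ℂ] Ω) a, hN g a a.2⟩
      invFun := fun a => ⟨((g⁻¹ : H) : Ω ≃ₐ[ℂ] Ω) a, hN g⁻¹ a a.2⟩
      left_inv := fun a => Subtype.ext ((g : Ω ≃ₐ[ℂ] Ω).symm_apply_apply a)
      right_inv := fun a => Subtype.ext ((g : Ω ≃ₐ[ℂ] Ω).apply_symm_apply a)
      map_mul' := fun a b => Subtype.ext (map_mul (g : Ω ≃ₐ[ℂ] Ω) (a : Ω) b)
      map_add' := fun a b => Subtype.ext (map_add (g : Ω ≃ₐ[ℂ] Ω) (a : Ω) b)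
      commutes' := fun r => Subtype.ext ((g : Ω ≃ₐ[ℂ] Ω).commutes r) }
  map_one' := AlgEquiv.ext fun _ => rfl
  map_mul' _ _ := AlgEquiv.ext fun _ => rfl

/-- PROOF. `Ω = AlgebraicClosure F`, `L = fxL G`, `L' = (emb F).fieldRange`; `MainR` for the `emb (x l)` and the
images of the elements of `Φ`: the model `M`. `K = M.F`, `i` = `emb F` with values in `M.F`, the model
`M.tr`. `G'` = the restrictions to `M.F` of the elements of `L.fixingSubgroup` (`EqF` for `g` and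
`g⁻¹`), `fld_finG`; `grp` is `fld_grp`, `fix` is `fld_fix` and `mem_fxL`. -/
theorem exists_emd (hR : KMR.MainR ℂ (AlgebraicClosure F) d) (hG : Finite G)
    (hF : ∃ S : Finset F, IntermediateField.adjoin ℂ (S : Set F) = ⊤) {x : Fin d → F}
    (hx : IsTranscendenceBasis ℂ x) (hxG : ∀ l, ∀ γ ∈ G, γ (x l) = x l) {Φ : Finset F}
    (hΦ : ∀ φ ∈ Φ, φ ≠ 0 ∧ ∀ γ ∈ G, γ φ = φ) : Nonempty (Emd F d G Φ x) := by
  classical
  obtain ⟨Φ', hΦ'⟩ : ∃ Φ' : Finset (AlgebraicClosure F)ˣ, ∀ u : (AlgebraicClosure F)ˣ,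
      u ∈ Φ' ↔ ∃ φ ∈ Φ, emb F φ = u := by
    have hne : ∀ φ : {y // y ∈ Φ}, emb F φ ≠ 0 := fun φ =>
      (map_ne_zero_iff (emb F) (emb F).injective).2 (hΦ φ φ.2).1
    refine ⟨Φ.attach.image fun φ : {y // y ∈ Φ} => Units.mk0 (emb F φ) (hne φ), fun u => ?_⟩
    rw [Finset.mem_image]
    constructor
    · rintro ⟨φ, -, rfl⟩
      exact ⟨φ, φ.2, rfl⟩
    · rintro ⟨φ, hφ, h⟩
      exact ⟨⟨φ, hφ⟩, Finset.mem_attach _ _, Units.ext h⟩
  obtain ⟨M, hM, hFM, hL', hΦM, hcoord, -, f, hfadj, hfΨ, -, hoff⟩ :=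
    hR (fun l => emb F (x l)) (hx.1.map' (f := emb F) (emb F).injective) (fxL G)
      (emb F).fieldRange
      (by
        change IntermediateField.adjoin ℂ _ ≤ _
        rw [IntermediateField.adjoin_le_iff]
        rintro _ ⟨l, rfl⟩
        exact mem_fxL.2 ⟨x l, hxG l, rfl⟩)
      (by
        intro a ha
        obtain ⟨y, -, rfl⟩ := mem_fxL.1 ha
        exact ⟨y, rfl⟩)
      (fld_ext hx hF) Φ' (by
        intro u hu
        obtain ⟨φ, hφ, h⟩ := (hΦ' u).1 hu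
        rw [← h]
        exact mem_fxL.2 ⟨φ, (hΦ φ hφ).2, rfl⟩)
  let i : F →ₐ[ℂ] M.F :=
    { toFun := fun a => ⟨emb F a, hL' ⟨a, rfl⟩⟩
      map_one' := Subtype.ext (map_one (emb F))
      map_mul' := fun a b => Subtype.ext (map_mul (emb F) a b)
      map_zero' := Subtype.ext (map_zero (emb F))
      map_add' := fun a b => Subtype.ext (map_add (emb F) a b)
      commutes' := fun r => Subtype.ext ((emb F).commutes r) }
  have hi : ∀ a, (i a : AlgebraicClosure F) = emb F a := fun _ => rfl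
  have hfin : (i : F →+* M.F).Finite := fld_fin hFM i hi
  let ρ := emd_rs (fxL G).fixingSubgroup M.F hM.eqF
  have hρ : ∀ g a, ((ρ g a : M.F) : AlgebraicClosure F) = (g : AlgebraicClosure F ≃ₐ[ℂ] _) a :=
    fun _ _ => rfl
  obtain ⟨f₀, hf₀, hff⟩ : ∃ f₀ ∈ Algebra.adjoin ℂ (Set.range x), emb F f₀ = f := by
    have h1 : Set.range (fun l => emb F (x l)) = emb F '' Set.range x := by
      rw [← Set.range_comp]
      rfl
    rw [h1, ← AlgHom.map_adjoin] at hfadj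
    exact hfadj
  have hpsi : ∀ (a : F) (u : (AlgebraicClosure F)ˣ), u ∈ M.Ψ → emb F a = u →
      ∃ b ∈ M.tr.Ψ, (b : M.F) = i a ∧ (M.Cmp u → M.tr.Cmp b) := by
    intro a u hu hau
    obtain ⟨h1, h2, h3⟩ := M.tr_psi hM.toOk0 hu
    refine ⟨KMR.tu M.F u, h1, Subtype.ext ?_, h3⟩
    rw [h2, hi, hau]
  have hfixL : ∀ (g : (fxL G).fixingSubgroup) (y : F), (∀ γ ∈ G, γ y = y) →
      (g : AlgebraicClosure F ≃ₐ[ℂ] _) (emb F y) = emb F y := fun g y hy =>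
    (IntermediateField.mem_fixingSubgroup_iff _ _).1 g.2 _ (mem_fxL.2 ⟨y, hy, rfl⟩)
  refine ⟨{
    K := M.F
    i := i
    fin := hfin
    M := M.tr
    ok := M.tr_ok hM.toOk0
    top := rfl
    G' := ρ.range
    finG := ?_
    grp := ?_
    fix := ?_
    act := ?_
    psi := ?_
    coord := M.tr_coord hM.toOk0 (fun _ => rfl) hcoord
    f := f₀
    f_adj := hf₀
    f_psi := ?_
    off := M.tr_off hM.toOk0 (fun _ => rfl) (by rw [hi, hff]) hoff }⟩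
  · refine fld_finG (G := G) i hfin _ ?_
    rintro _ ⟨g, rfl⟩ y hy
    exact Subtype.ext (hfixL g y hy)
  · rintro _ ⟨g, rfl⟩
    obtain ⟨γ, hγ, h1⟩ := fld_grp g.2
    exact ⟨γ, hγ, fun y => Subtype.ext (h1 y)⟩
  · intro a ha
    have h1 : (a : AlgebraicClosure F) ∈ fxL G := fld_fix fun g hg => by
      have h2 := ha (ρ ⟨g, hg⟩) ⟨⟨g, hg⟩, rfl⟩
      exact congrArg Subtype.val h2
    obtain ⟨y, hy, h2⟩ := mem_fxL.1 h1
    exact ⟨y, hy, Subtype.ext h2⟩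
  · rintro _ ⟨g, rfl⟩
    exact M.tr_act hM g (ρ g) fun _ => rfl
  · intro φ hφ
    have h1 : emb F φ ≠ 0 := (map_ne_zero_iff (emb F) (emb F).injective).2 (hΦ φ hφ).1
    have h2 := hΦM (Units.mk0 (emb F φ) h1) ((hΦ' _).2 ⟨φ, hφ, rfl⟩)
    obtain ⟨b, hb, hb1, hb2⟩ := hpsi φ _ h2.1 rfl
    exact ⟨b, hb, hb1, hb2 h2.2⟩
  · obtain ⟨b, hb, hb1, -⟩ := hpsi f₀ f hfΨ hff
    exact ⟨b, hb, hb1⟩

end Pool.Agent.KM
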