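import Pool.Agent.Lib.MP_732f67_ag.R.Icl
import Pool.Agent.Lib.MP_732f67_ag.R.Spr

/-!
The field of invariants inside the algebraic closure.
-/

namespace Pool.Agent.KM

variable (F : Type) [Field F] [Algebra ℂ F]

/-- the algebraic closure -/
noncomputable def emb : F →ₐ[ℂ] AlgebraicClosure F :=
  IsScalarTower.toAlgHom ℂ F (AlgebraicClosure F)

variable {F}

/-- the field of invariants of `G`, inside the algebraic closure -/
noncomputable def fxL (G : Subgroup (F ≃ₐ[ℂ] F)) : IntermediateField ℂ (AlgebraicClosure F) :=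
  (IntermediateField.fixedField G).map (emb F)

variable {G : Subgroup (F ≃ₐ[ℂ] F)}

theorem mem_fxL {a : AlgebraicClosure F} :
    a ∈ fxL G ↔ ∃ y : F, (∀ γ ∈ G, γ y = y) ∧ emb F y = a := by
  rw [fxL, IntermediateField.mem_map]
  constructor
  · rintro ⟨y, hy, rfl⟩
    exact ⟨y, fun γ hγ => hy ⟨γ, hγ⟩, rfl⟩
  · rintro ⟨y, hy, rfl⟩
    exact ⟨y, fun γ => hy γ.1 γ.2, rfl⟩

/-- PROOF. `x ∈ F` is a root of `∏ γ, (T - γ x)`, whose coefficients are in `F ^ G`, so `g (emb x)` is one of the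
`emb (γ x)`; `g` induces an endomorphism of `F` over `F ^ G`, which is an element of `G`
(`FixedPoints.toAlgHomEquiv` or `FixedPoints.toAlgAut_bijective`, Artin). -/
theorem fld_grp [Finite G] {g : AlgebraicClosure F ≃ₐ[ℂ] AlgebraicClosure F}
    (hg : g ∈ (fxL G).fixingSubgroup) : ∃ γ ∈ G, ∀ x : F, g (emb F x) = emb F (γ x) := by
  let K0 := FixedPoints.subfield G F
  have hfix : ∀ c : K0, g (algebraMap K0 (AlgebraicClosure F) c) =
      algebraMap K0 (AlgebraicClosure F) c := by
    intro c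
    have h1 : algebraMap K0 (AlgebraicClosure F) c ∈ fxL G :=
      mem_fxL.2 ⟨(c : F), fun γ hγ => c.2 ⟨γ, hγ⟩, rfl⟩
    exact (IntermediateField.mem_fixingSubgroup_iff _ _).1 hg _ h1
  let g' : AlgebraicClosure F ≃ₐ[K0] AlgebraicClosure F :=
    AlgEquiv.ofRingEquiv (f := (g : AlgebraicClosure F ≃+* AlgebraicClosure F)) hfix
  obtain ⟨γ, hγ⟩ := FixedPoints.toAlgAut_surjective G F (g'.restrictNormal F)
  refine ⟨γ.1, γ.2, fun x => ?_⟩
  have h2 := g'.restrictNormal_commutes F x
  rw [← hγ] at h2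
  exact h2.symm

/-- PROOF. `AlgebraicClosure F` is an algebraic closure of `L = fxL G` (`F` is finite over `F ^ G`), characteristic
zero, so it is a Galois extension of `L` (`InfiniteGalois`, `IsGalois.mem_bot_iff_fixed`, or
`Stb` in R/AbhO.lean). -/
theorem fld_fix [Finite G] {a : AlgebraicClosure F}
    (h : ∀ g ∈ (fxL G).fixingSubgroup, g a = a) : a ∈ fxL G := by
  let K0 := FixedPoints.subfield G F
  haveI : Algebra.IsAlgebraic K0 (AlgebraicClosure F) :=
    Algebra.IsAlgebraic.trans K0 F (AlgebraicClosure F)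
  haveI : CharZero F := charZero_of_injective_algebraMap (algebraMap ℂ F).injective
  haveI : CharZero K0 := (algebraMap K0 F).charZero
  haveI : IsAlgClosure K0 (AlgebraicClosure F) := ⟨inferInstance, inferInstance⟩
  haveI : Normal K0 (AlgebraicClosure F) := IsAlgClosure.normal K0 (AlgebraicClosure F)
  haveI : IsGalois K0 (AlgebraicClosure F) := ⟨⟩
  have h1 : a ∈ Set.range (algebraMap K0 (AlgebraicClosure F)) := by
    rw [InfiniteGalois.mem_range_algebraMap_iff_fixed]
    intro f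
    have hc : ∀ c : ℂ, f (algebraMap ℂ (AlgebraicClosure F) c) =
        algebraMap ℂ (AlgebraicClosure F) c := by
      intro c
      have h2 : algebraMap ℂ (AlgebraicClosure F) c =
          algebraMap K0 (AlgebraicClosure F) ⟨algebraMap ℂ F c, fun γ => γ.1.commutes c⟩ := rfl
      rw [h2]
      exact f.commutes _
    let f' : AlgebraicClosure F ≃ₐ[ℂ] AlgebraicClosure F :=
      AlgEquiv.ofRingEquiv (f := (f : AlgebraicClosure F ≃+* AlgebraicClosure F)) hc
    refine h f' ((IntermediateField.mem_fixingSubgroup_iff _ _).2 fun x hx => ?_)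
    obtain ⟨y, hy, rfl⟩ := mem_fxL.1 hx
    exact f.commutes (⟨y, fun γ => hy γ.1 γ.2⟩ : K0)
  obtain ⟨c, rfl⟩ := h1
  exact mem_fxL.2 ⟨(c : F), fun γ hγ => c.2 ⟨γ, hγ⟩, rfl⟩

end Pool.Agent.KM
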