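import Pool.Agent.Lib.MP_732f67_ag.N.Defs
import Pool.Agent.Lib.MP_732f67_ag.G.EtE

/-!
Extension of derivations to a finite extension.
-/

namespace Pool.Agent.KM

variable {F : Type} [Field F] [Algebra ℂ F] {d : ℕ} {Δ : Fin d → Derivation ℂ F F}

theorem Frm_alg {K : Type} [Field K] [Algebra ℂ K] (i : F →ₐ[ℂ] K)
    (hi : (i : F →+* K).Finite) :
    letI : Algebra F K := (i : F →+* K).toAlgebra
    Algebra.IsAlgebraic F K := by
  letI : Algebra F K := (i : F →+* K).toAlgebra
  refine ⟨fun y => ?_⟩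
  obtain ⟨p, hp, hp0⟩ := hi.to_isIntegral y
  exact ⟨p, hp.ne_zero, hp0⟩

/-- a derivation to a module which vanishes on a transcendence basis is zero -/
theorem Frm_der {M : Type} [AddCommGroup M] [Module F M] [Module ℂ M] [IsScalarTower ℂ F M]
    {t : Fin d → F} (ht : IsTranscendenceBasis ℂ t) {E : Derivation ℂ F M}
    (h : ∀ j, E (t j) = 0) : E = 0 := by
  obtain ⟨b, hb⟩ := exists_kbasis ht
  have h1 : E.liftKaehlerDifferential = 0 := by
    refine b.ext fun j => ?_
    rw [hb, Derivation.liftKaehlerDifferential_comp_D, h, LinearMap.zero_apply]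
  ext w
  have h2 := congrArg (fun f => f (KaehlerDifferential.D ℂ F w)) h1
  simpa only [Derivation.liftKaehlerDifferential_comp_D, LinearMap.zero_apply,
    Derivation.coe_zero, Pi.zero_apply] using h2

theorem Frm_conj {K : Type} [Field K] [Algebra ℂ K] (γ : K ≃ₐ[ℂ] K) (D : Derivation ℂ K K) :
    ∃ D' : Derivation ℂ K K, ∀ x, D' x = γ.symm (D (γ x)) := by
  refine ⟨Derivation.mk' (γ.symm.toLinearMap ∘ₗ (D : K →ₗ[ℂ] K) ∘ₗ γ.toLinearMap)
    (fun a b => ?_), fun x => rfl⟩
  show γ.symm (D (γ (a * b))) = a • γ.symm (D (γ b)) + b • γ.symm (D (γ a))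
  rw [map_mul, Derivation.leibniz, map_add, smul_eq_mul, smul_eq_mul, smul_eq_mul, smul_eq_mul,
    map_mul, map_mul, AlgEquiv.symm_apply_apply, AlgEquiv.symm_apply_apply]

theorem trdeg_fin {K : Type} [Field K] [Algebra ℂ K] (i : F →ₐ[ℂ] K)
    (hi : (i : F →+* K).Finite) (hd : Algebra.trdeg ℂ F = d) : Algebra.trdeg ℂ K = d := by
  let _ : Algebra F K := (i : F →+* K).toAlgebra
  have htow : IsScalarTower ℂ F K := IsScalarTower.of_algebraMap_eq fun c => (i.commutes c).symm
  have halg : Algebra.IsAlgebraic F K := Frm_alg i hi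
  rw [← trdeg_add_eq ℂ F (A := K), trdeg_eq_zero (R := F), add_zero, hd]

/-- PROOF. Let `x` be a transcendence basis of `F`; the `i (x l)` are one of `K`, with dual derivations `∂ l` (`exists_der`);
`Δ' l = ∑ j, i (Δ l (x j)) ∂ j`. Uniqueness: `der_eq_zero`. -/
theorem exists_frm {K : Type} [Field K] [Algebra ℂ K] (i : F →ₐ[ℂ] K)
    (hi : (i : F →+* K).Finite) (hd : Algebra.trdeg ℂ F = d) (hΔ : LinearIndependent F Δ) :
    ∃ Δ' : Fin d → Derivation ℂ K K, LinearIndependent K Δ' ∧ (∀ l x, Δ' l (i x) = i (Δ l x)) ∧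
      ∀ (γ : F ≃ₐ[ℂ] F) (γ' : K ≃ₐ[ℂ] K), (∀ x, γ' (i x) = i (γ x)) →
        (∀ l x, Δ l (γ x) = γ (Δ l x)) → ∀ l x, Δ' l (γ' x) = γ' (Δ' l x) := by
  classical
  obtain ⟨ι, t0, ht0⟩ := exists_isTranscendenceBasis' ℂ F
  have hc : Cardinal.mk ι = Cardinal.mk (Fin d) := by
    rw [ht0.cardinalMk_eq_trdeg, hd, Cardinal.mk_fin]
  obtain ⟨e⟩ := Cardinal.eq.1 hc
  obtain ⟨t, ht⟩ : ∃ t : Fin d → F, IsTranscendenceBasis ℂ t :=
    ⟨_, (isTranscendenceBasis_equiv e.symm).2 ht0⟩
  let _ : Algebra F K := (i : F →+* K).toAlgebra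
  have htow : IsScalarTower ℂ F K := IsScalarTower.of_algebraMap_eq fun c => (i.commutes c).symm
  have halg : Algebra.IsAlgebraic F K := Frm_alg i hi
  have ht' : IsTranscendenceBasis ℂ (fun j => i (t j)) :=
    IsTranscendenceBasis.algebraMap_comp (A := K) ht
  obtain ⟨D, hD⟩ := exists_der ht'
  have hval : ∀ l j, (∑ a, i (Δ l (t a)) • D a : Derivation ℂ K K) (i (t j)) =
      i (Δ l (t j)) := by
    intro l j
    rw [der_sum_apply]
    have h1 : ∀ a, (i (Δ l (t a)) • D a : Derivation ℂ K K) (i (t j)) =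
        i (Δ l (t a)) * D a (i (t j)) := fun a => rfl
    simp only [h1, hD, mul_ite, mul_one, mul_zero, Finset.sum_ite_eq', Finset.mem_univ, if_true]
  generalize hΔ' : (fun l => (∑ a, i (Δ l (t a)) • D a : Derivation ℂ K K)) = Δ'
  have hv : ∀ l j, Δ' l (i (t j)) = i (Δ l (t j)) := by
    intro l j
    rw [← hΔ']
    exact hval l j
  have hcomp : ∀ l x, Δ' l (i x) = i (Δ l x) := by
    intro l x
    let E : Derivation ℂ F K := (Δ' l).compAlgebraMap F - (Algebra.linearMap F K).compDer (Δ l)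
    have hE : E = 0 := by
      refine Frm_der ht fun j => ?_
      show Δ' l (i (t j)) - i (Δ l (t j)) = 0
      rw [hv, sub_self]
    have h1 : E x = 0 := by rw [hE, Derivation.coe_zero, Pi.zero_apply]
    have h2 : Δ' l (i x) - i (Δ l x) = 0 := h1
    exact sub_eq_zero.1 h2
  refine ⟨Δ', ?_, hcomp, ?_⟩
  · have hdet : (Matrix.of fun l j => Δ l (t j)).det ≠ 0 := by
      intro h0
      obtain ⟨v, hv, hv0⟩ := Matrix.exists_vecMul_eq_zero_iff.2 h0
      have h1 : ∑ l, v l • Δ l = 0 := by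
        refine der_eq_zero ht fun l => ?_
        have := congrFun hv0 l
        simp only [Matrix.vecMul, dotProduct, Matrix.of_apply, Pi.zero_apply] at this
        rw [← this, der_sum_apply]
        rfl
      exact hv (funext fun l => Fintype.linearIndependent_iff.1 hΔ v h1 l)
    rw [Fintype.linearIndependent_iff]
    intro g hg
    have hdet' : (Matrix.of fun l j => i (Δ l (t j))).det ≠ 0 := by
      have h1 : (Matrix.of fun l j => i (Δ l (t j))).det =
          i (Matrix.of fun l j => Δ l (t j)).det := by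
        rw [AlgHom.map_det]
        rfl
      rw [h1]
      exact (map_ne_zero_iff i (i : F →+* K).injective).2 hdet
    have h2 : Matrix.vecMul g (Matrix.of fun l j => i (Δ l (t j))) = 0 := by
      funext j
      have h3 := congrArg (fun E : Derivation ℂ K K => E (i (t j))) hg
      simp only [Derivation.coe_zero, Pi.zero_apply] at h3
      rw [der_sum_apply] at h3
      simp only [Matrix.vecMul, dotProduct, Matrix.of_apply, Pi.zero_apply]
      rw [← h3]
      refine Finset.sum_congr rfl fun l _ => ?_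
      rw [← hv l j]
      rfl
    have h4 : g = 0 := by
      by_contra hg0
      exact hdet' (Matrix.exists_vecMul_eq_zero_iff.1 ⟨g, hg0, h2⟩)
    intro l
    rw [h4, Pi.zero_apply]
  · intro γ γ' hγ hcm l x
    obtain ⟨D', hD'⟩ := Frm_conj γ' (Δ' l)
    have h3 : D' - Δ' l = 0 := by
      refine der_eq_zero ht' fun j => ?_
      rw [Derivation.sub_apply, hD', hγ, hcomp, hcm, ← hγ, AlgEquiv.symm_apply_apply, hcomp,
        sub_self]
    have h4 := congrArg (fun E : Derivation ℂ K K => E x) h3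
    simp only [Derivation.sub_apply, Derivation.coe_zero, Pi.zero_apply, hD', sub_eq_zero] at h4
    rw [← h4, AlgEquiv.apply_symm_apply]

end Pool.Agent.KM
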