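import Pool.Agent.Lib.MP_732f67_ag.X.Pj

/-!
Labels and local equations.
-/

namespace Pool.Agent.KM

variable {K : Type} [Field K] [Algebra ℂ K] {n : ℕ} {M : KMR.Mdl ℂ K ⊥} {Q Q' : Subalgebra ℂ K}
  {c c' : M.ι}

/-- PROOF. `a / ∏ j ∈ S c, x c j ^ v j a` is a unit of `M.R c` (`unit`, `v_mul`, `v_x`, `v_x'`). -/
theorem un_of_v (hM : M.Ok0 n) (hc : M.R c ≤ Q) {a : Kˣ} (ha : a ∈ M.Ψ)
    (h : ∀ j ∈ M.S c, M.v j a ≠ 0 → Un Q (M.x c j : K)) : Un Q (a : K) := by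
  obtain ⟨e, -, he, hae⟩ := hM.toOkV.eq_monomial c a ha
  have he' : Un Q (e : K) := Un.mono hc he
  rw [hae, Units.val_mul, Units.coe_prod]
  refine he'.mul (Un.prod _ fun j hj => ?_)
  rw [Units.val_zpow_eq_zpow_val]
  by_cases h0 : M.v j a = 0
  · rw [h0, zpow_zero]
    exact Un.one Q
  · exact (h j hj h0).zpow _

/-- an element of `Ψ` in terms of the local equations -/
theorem v_exp (hM : M.Ok0 n) {a : Kˣ} (ha : a ∈ M.Ψ) (c : M.ι) :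
    Un (M.R c) ((a : K) / ∏ j ∈ M.S c, (M.x c j : K) ^ M.v j a) := by
  obtain ⟨e, -, he, hae⟩ := hM.toOkV.eq_monomial c a ha
  have h1 : (a : K) = e * ∏ j ∈ M.S c, (M.x c j : K) ^ M.v j a := by
    have h2 := congrArg (fun u : Kˣ => (u : K)) hae
    simp only [Units.val_mul, Units.coe_prod, Units.val_zpow_eq_zpow_val] at h2
    exact h2
  have h0 : (∏ j ∈ M.S c, (M.x c j : K) ^ M.v j a) ≠ 0 :=
    Finset.prod_ne_zero_iff.2 fun j _ => zpow_ne_zero _ (M.x c j).ne_zero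
  have h3 : (a : K) / ∏ j ∈ M.S c, (M.x c j : K) ^ M.v j a = e := by
    rw [div_eq_iff h0]
    exact h1
  rw [h3]
  exact he

/-- PROOF. `s_x`: `(s c' / s c) ^ N / x c j ∈ M.R c ≤ Q`, and `s c / s c' ∈ M.R c' ≤ Q`. -/
theorem x_un (hM : M.Ok0 n) (hc : M.R c ≤ Q) (hc' : M.R c' ≤ Q) {j : M.J} (hj : j ∈ M.S c)
    (hj' : j ∉ M.S c') : Un Q (M.x c j : K) := by
  obtain ⟨N, hN⟩ := hM.s_x c c' j hj hj'
  have h1 : (M.s c / M.s c' : K) ∈ Q := hc' (hM.s_mem c' c)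
  have h2 := hc hN
  refine ⟨(M.x c j).ne_zero, hc (hM.x_R c j hj), ?_⟩
  have h3 : (M.x c j : K)⁻¹ = (M.s c' / M.s c : K) ^ N / M.x c j * (M.s c / M.s c' : K) ^ N := by
    have hs := (M.s c).ne_zero
    have hs' := (M.s c').ne_zero
    have hx := (M.x c j).ne_zero
    have h4 : (M.s c' / M.s c : K) ^ N * (M.s c / M.s c' : K) ^ N = 1 := by
      rw [← mul_pow]
      have h5 : (M.s c' / M.s c : K) * (M.s c / M.s c' : K) = 1 := by field_simp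
      rw [h5, one_pow]
    rw [div_mul_eq_mul_div, h4, one_div]
  rw [h3]
  exact Q.mul_mem h2 (Q.pow_mem h1 N)

/-- PROOF. `un_of_v` for `x c j / x c' j`: the order at `i ∈ S c ∩ S c'` is zero, and for `i ∈ S c`, `i ∉ S c'` the
element `x c i` is a unit by `x_un`. -/
theorem x_div (hM : M.Ok0 n) (hc : M.R c ≤ Q) (hc' : M.R c' ≤ Q) {j : M.J} (hj : j ∈ M.S c)
    (hj' : j ∈ M.S c') : Un Q ((M.x c j : K) / M.x c' j) := by
  have hV := hM.toOkV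
  have ha : M.x c j / M.x c' j ∈ M.Ψ := div_mem (hV.x_Ψ c j hj) (hV.x_Ψ c' j hj')
  have h1 : Un Q ((M.x c j / M.x c' j : Kˣ) : K) := by
    refine un_of_v hM hc ha fun i hi h0 => ?_
    by_cases hi' : i ∈ M.S c'
    · exfalso
      apply h0
      rw [hV.v_div i _ _ (hV.x_Ψ c j hj) (hV.x_Ψ c' j hj')]
      by_cases hij : i = j
      · subst hij
        rw [hV.v_x c i hi, hV.v_x c' i hi', sub_self]
      · rw [hV.v_x' c i hi j hj hij, hV.v_x' c' i hi' j hj' hij, sub_self]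
    · exact x_un hM hc hc' hi hi'
  rw [Units.val_div_eq_div_val] at h1
  exact h1

theorem on_iff (hM : M.Ok0 n) (hc : M.R c ≤ Q) {j : M.J} :
    On M Q j ↔ j ∈ M.S c ∧ ¬ Un Q (M.x c j : K) := by
  constructor
  · rintro ⟨c', hc', hj', hn⟩
    have hj : j ∈ M.S c := by
      by_contra hj
      exact hn (x_un hM hc' hc hj' hj)
    refine ⟨hj, fun hu => hn ?_⟩
    have h1 := (x_div hM hc' hc hj' hj).mul hu
    rwa [div_mul_cancel₀ _ (M.x c j).ne_zero] at h1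
  · rintro ⟨hj, hn⟩
    exact ⟨c, hc, hj, hn⟩

theorem on_mono (hM : M.Ok0 n) (hc : M.R c ≤ Q) (h : Q ≤ Q') {j : M.J} (hj : On M Q' j) :
    On M Q j := by
  obtain ⟨h1, h2⟩ := (on_iff hM (hc.trans h)).1 hj
  exact (on_iff hM hc).2 ⟨h1, fun hu => h2 (hu.mono h)⟩

/-- off the boundary the elements of `Ψ` are units -/
theorem psi_un (hM : M.Ok0 n) (hQ : Q ∈ YS M) (h : ∀ j, ¬ On M Q j) {a : Kˣ} (ha : a ∈ M.Ψ) :
    Un Q (a : K) := by
  obtain ⟨c, hc⟩ := hQ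
  refine un_of_v hM hc.le ha fun j hj _ => ?_
  by_contra hn
  exact h j ⟨c, hc.le, hj, hn⟩

/-- `KMR.Mdl.At` for closed points -/
theorem on_pt (hM : M.Ok0 n) (φ : M.R c →ₐ[ℂ] ℂ) (j : M.J) : On M (M.O c φ) j ↔ M.At c φ j :=
  on_iff hM (KMR.le_loc φ)

/-- PROOF. `exists_clp` with the inverses of the `x c j`, `j ∈ S c`, in `T`, if `Q` is off the boundary. -/
theorem exists_clo_off (hM : M.Ok0 n) (hc : M.R c ≤ Q) (hQ : Q ∈ YS M)
    (h : ∀ j, ¬ On M Q j) : ∃ φ : M.R c →ₐ[ℂ] ℂ, M.O c φ ≤ Q ∧ M.Off c φ := by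
  classical
  obtain ⟨φ, hφ, hT⟩ := exists_clp (hM.fg c) (ys_le hM hQ hc)
    ((M.S c).image fun j => ((M.x c j : K))⁻¹) (by
      intro t ht
      obtain ⟨j, hj, rfl⟩ := Finset.mem_image.1 ht
      by_contra hn
      exact h j ⟨c, hc, hj, fun hu => hn hu.2.2⟩)
  refine ⟨φ, hφ, fun j hj => hj.2 ?_⟩
  exact ⟨(M.x c j).ne_zero, KMR.le_loc φ (hM.x_R c j hj.1),
    hT _ (Finset.mem_image.2 ⟨j, hj.1, rfl⟩)⟩

end Pool.Agent.KM
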