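import Pool.Agent.Lib.MP_732f67_ag.X.PjB
import Pool.Agent.Lib.MP_732f67_ag.X.Lab

/-!
The ample divisor of the model, supported by the boundary.
-/

namespace Pool.Agent.KM

variable {K : Type} [Field K] [Algebra ℂ K] {n : ℕ} {M : KMR.Mdl ℂ K ⊥}

/-- the ample divisor, with its local equations in `Ψ` (`exists_hs`, `m_s`) -/
theorem exists_hm (hM : M.Ok0 n) (hF : M.F = ⊤) : ∃ H : Subalgebra ℂ K → Kˣ,
    IsCar (YS M) H ∧ Amp (YS M) H ∧ ∀ Q ∈ YS M, (∀ j, ¬ On M Q j) → Un Q (H Q : K) := by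
  obtain ⟨H, h1, h2, h3⟩ := exists_hs hM hF
  refine ⟨H, h1, h2, fun Q hQ hoff => ?_⟩
  obtain ⟨c, hc⟩ := hQ
  have hs := h3 Q ⟨c, hc⟩ c hc.le
  have hm : Un Q (M.m c : K) := psi_un hM ⟨c, hc⟩ hoff (hM.m_Ψ c)
  have hsm : Un Q ((M.s c : K) / M.m c) := Un.mono hc.le (hM.m_s c)
  have h4 : Un Q ((M.s c : K) * H Q / ((M.s c : K) / M.m c * M.m c)) := hs.div (hsm.mul hm)
  have h5 : (M.s c : K) * H Q / ((M.s c : K) / M.m c * M.m c) = (H Q : K) := by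
    rw [div_mul_cancel₀ _ (Units.ne_zero (M.m c)), mul_comm, mul_div_assoc,
      div_self (Units.ne_zero (M.s c)), mul_one]
  rwa [h5] at h4

end Pool.Agent.KM
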