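import Pool.Agent.Lib.MP_732f67_ag.G.Ord

/-!
Units and invariants.
-/

namespace Pool.Agent.KM

open Polynomial in
private theorem min_int {K : Type} [Field K] [Algebra ℂ K] {O' : Subalgebra ℂ K} {P : K[X]}
    (hm : P.Monic) (hc : ∀ n, P.coeff n ∈ O') {x : K} (hx : P.eval x = 0) : IsIntegral O' x := by
  have h1 : P ∈ Polynomial.lifts (algebraMap O' K) := by
    rw [Polynomial.lifts_iff_coeff_lifts]
    intro n
    exact ⟨⟨P.coeff n, hc n⟩, rfl⟩
  obtain ⟨q, hq, -, hqm⟩ := Polynomial.lifts_and_degree_eq_and_monic h1 hm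
  refine ⟨q, hqm, ?_⟩
  rw [← Polynomial.eval_map, hq, hx]

variable {F : Type} [Field F] [Algebra ℂ F] {G : Subgroup (F ≃ₐ[ℂ] F)}

open Polynomial in
/-- PROOF. `T` = the non-zero coefficients of the polynomial `∏ γ, (T - γ φ)`; the constant coefficient `∏ γ, (- γ φ)` is not
zero. If they are units of `O'` then `i φ` and its inverse are integral over `O'`. -/
theorem exists_min (hG : Finite G) {φ : F} (hφ : φ ≠ 0) : ∃ T : Finset F,
    (∀ t ∈ T, t ≠ 0 ∧ ∀ γ ∈ G, γ t = t) ∧
      ∀ (K : Type) [Field K] [Algebra ℂ K] (i : F →ₐ[ℂ] K) (O' : Subalgebra ℂ K),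
        (∀ x : K, IsIntegral O' x → x ∈ O') → (∀ t ∈ T, Un O' (i t)) → Un O' (i φ) := by
  classical
  let _ : Fintype G := Fintype.ofFinite G
  set P : F[X] := ∏ γ : G, (X - C (γ.1 φ)) with hP
  have hPm : P.Monic := Polynomial.monic_prod_of_monic _ _ fun γ _ => Polynomial.monic_X_sub_C _
  have hP0 : P.coeff 0 ≠ 0 := by
    rw [Polynomial.coeff_zero_eq_eval_zero, hP, Polynomial.eval_prod]
    refine Finset.prod_ne_zero_iff.2 fun γ _ => ?_
    rw [Polynomial.eval_sub, Polynomial.eval_X, Polynomial.eval_C, zero_sub]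
    exact neg_ne_zero.2 ((map_ne_zero γ.1).2 hφ)
  have hPr : P.eval φ = 0 := by
    rw [hP, Polynomial.eval_prod]
    refine Finset.prod_eq_zero (Finset.mem_univ 1) ?_
    rw [Polynomial.eval_sub, Polynomial.eval_X, Polynomial.eval_C]
    exact sub_self φ
  have hinv : ∀ γ ∈ G, ∀ n, γ (P.coeff n) = P.coeff n := by
    intro γ hγ n
    have h1 : P.map (γ : F →+* F) = P := by
      rw [hP, Polynomial.map_prod]
      refine Fintype.prod_equiv (Equiv.mulLeft (⟨γ, hγ⟩ : G)) _ _ fun δ => ?_
      rw [Polynomial.map_sub, Polynomial.map_X, Polynomial.map_C]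
      rfl
    have h2 := congrArg (fun p => Polynomial.coeff p n) h1
    simp only [Polynomial.coeff_map] at h2
    exact h2
  refine ⟨P.support.image P.coeff, ?_, ?_⟩
  · intro t ht
    obtain ⟨n, hn, rfl⟩ := Finset.mem_image.1 ht
    exact ⟨Polynomial.mem_support_iff.1 hn, fun γ hγ => hinv γ hγ n⟩
  · intro K _ _ i O' hO hT
    have hiφ : i φ ≠ 0 := (map_ne_zero i).2 hφ
    have hco : ∀ n, i (P.coeff n) ∈ O' := by
      intro n
      by_cases hn : P.coeff n = 0
      · rw [hn, map_zero]
        exact O'.zero_mem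
      · exact (hT _ (Finset.mem_image_of_mem _ (Polynomial.mem_support_iff.2 hn))).2.1
    have h0 := hT _ (Finset.mem_image_of_mem P.coeff (Polynomial.mem_support_iff.2 hP0))
    have hr : (P.map (i : F →+* K)).eval (i φ) = 0 := by
      have h1 := Polynomial.eval_map_apply (f := (i : F →+* K)) (p := P) φ
      have h2 : ((i : F →+* K) φ) = i φ := rfl
      rw [h2, hPr, map_zero] at h1
      exact h1
    refine ⟨hiφ, hO _ (min_int (P := P.map (i : F →+* K)) (hPm.map _) (fun n => ?_) hr),
      hO _ (min_int (P := C (i (P.coeff 0))⁻¹ * (P.map (i : F →+* K)).reverse) ?_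
        (fun n => ?_) ?_)⟩
    · rw [Polynomial.coeff_map]
      exact hco n
    · have h1 : (P.map (i : F →+* K)).coeff 0 = i (P.coeff 0) := Polynomial.coeff_map _ _
      rw [Polynomial.Monic, Polynomial.leadingCoeff_mul, Polynomial.leadingCoeff_C,
        Polynomial.reverse_leadingCoeff, Polynomial.trailingCoeff,
        Polynomial.natTrailingDegree_eq_zero_of_constantCoeff_ne_zero, h1,
        inv_mul_cancel₀ h0.1]
      rw [Polynomial.constantCoeff_apply, h1]
      exact h0.1
    · rw [Polynomial.coeff_C_mul, Polynomial.coeff_reverse, Polynomial.coeff_map]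
      exact O'.mul_mem h0.2.2 (hco _)
    · rw [Polynomial.eval_mul]
      let _ : Invertible (i φ) := invertibleOfNonzero hiφ
      have h1 := (Polynomial.eval₂_reverse_eq_zero_iff (RingHom.id K) (i φ)
        (P.map (i : F →+* K))).2 (by
          rw [Polynomial.eval₂_id]
          exact hr)
      rw [Polynomial.eval₂_id, invOf_eq_inv] at h1
      rw [h1, mul_zero]

end Pool.Agent.KM
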