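import Pool.Agent.Lib.MP_732f67_ag.X.Cp
import Pool.Agent.Lib.MP_732f67_ag.G.VA

/-!
The model is a projective variety.
-/

namespace Pool.Agent.KM

variable {K : Type} [Field K] [Algebra ℂ K] {n : ℕ} {M : KMR.Mdl ℂ K ⊥}

/-- PROOF. Let `T c` be a finite set of generators of `M.R c`. By `s_loc`, for `a ∈ T c` and every `c'` there is `N`
with `a (s c / s c') ^ N ∈ R c'`, and then for all larger `N` (`s_mem`). Choose one `N ≥ 1` for all (`M.ι` is finite).
`V` = the span of the `s c ^ N` and the `a * s c ^ N`, `a ∈ T c`. Then `w / s c ^ N ∈ R c` for `w ∈ V`, and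
`cht V (s c ^ N)` contains `T c`. -/
theorem pj_sys (hM : M.Ok0 n) : ∃ (N : ℕ) (V : Submodule ℂ K), 1 ≤ N ∧
    Module.Finite ℂ V ∧ ∀ c, (M.s c : K) ^ N ∈ V ∧ cht V ((M.s c : K) ^ N) = M.R c := by
  classical
  have hfin := hM.fin
  choose T hT using hM.fg
  have hTR : ∀ c, ∀ a ∈ T c, a ∈ M.R c := fun c a ha => by
    rw [← hT c]
    exact Algebra.subset_adjoin ha
  have hmono : ∀ (c c' : M.ι) (a : K) (m m' : ℕ), m ≤ m' →
      a * (M.s c / M.s c' : K) ^ m ∈ M.R c' → a * (M.s c / M.s c' : K) ^ m' ∈ M.R c' := by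
    intro c c' a m m' hm h
    obtain ⟨e, rfl⟩ := Nat.exists_eq_add_of_le hm
    rw [pow_add, ← mul_assoc]
    exact (M.R c').mul_mem h ((M.R c').pow_mem (hM.s_mem c' c) e)
  have hN : ∀ c, ∃ N : ℕ, ∀ c', ∀ a ∈ T c, a * (M.s c / M.s c' : K) ^ N ∈ M.R c' := by
    intro c
    have h1 : ∀ c', ∃ N : ℕ, ∀ a ∈ T c, a * (M.s c / M.s c' : K) ^ N ∈ M.R c' := by
      intro c'
      choose! f hf using fun a (ha : a ∈ T c) => hM.s_loc c c' a (hTR c a ha)
      exact ⟨(T c).sup f, fun a ha => hmono c c' a _ _ (Finset.le_sup ha) (hf a ha)⟩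
    choose g hg using h1
    have := Fintype.ofFinite M.ι
    exact ⟨Finset.univ.sup g, fun c' a ha =>
      hmono c c' a _ _ (Finset.le_sup (Finset.mem_univ c')) (hg c' a ha)⟩
  choose g hg using hN
  have := Fintype.ofFinite M.ι
  let N : ℕ := Finset.univ.sup g + 1
  let B : M.ι → Finset K := fun c => (insert 1 (T c)).image fun a => a * (M.s c : K) ^ N
  let W : Finset K := Finset.univ.biUnion B
  refine ⟨N, Submodule.span ℂ (W : Set K), Nat.le_add_left _ _, ?_, fun c => ⟨?_, ?_⟩⟩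
  · exact Module.Finite.iff_fg.2 ⟨W, rfl⟩
  · refine Submodule.subset_span ?_
    refine Finset.mem_biUnion.2 ⟨c, Finset.mem_univ c, ?_⟩
    exact Finset.mem_image.2 ⟨1, Finset.mem_insert_self _ _, one_mul _⟩
  · have hsc : (M.s c : K) ≠ 0 := (M.s c).ne_zero
    rw [ptc_cht_span]
    apply le_antisymm
    · refine Algebra.adjoin_le ?_
      rintro _ ⟨w, hw, rfl⟩
      obtain ⟨c', -, hw'⟩ := Finset.mem_biUnion.1 hw
      obtain ⟨a, ha, rfl⟩ := Finset.mem_image.1 hw'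
      have e1 : a * (M.s c' : K) ^ N / (M.s c : K) ^ N = a * (M.s c' / M.s c : K) ^ N := by
        rw [div_pow, mul_div_assoc]
      change a * (M.s c' : K) ^ N / (M.s c : K) ^ N ∈ M.R c
      rw [e1]
      rcases Finset.mem_insert.1 ha with rfl | ha
      · rw [one_mul]
        exact (M.R c).pow_mem (hM.s_mem c c') N
      · exact hmono c' c a (g c') N
          ((Finset.le_sup (Finset.mem_univ c')).trans (Nat.le_succ _)) (hg c' c a ha)
    · conv_lhs => rw [← hT c]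
      refine Algebra.adjoin_le fun a ha => Algebra.subset_adjoin ?_
      refine ⟨a * (M.s c : K) ^ N, ?_, mul_div_cancel_right₀ _ (pow_ne_zero N hsc)⟩
      refine Finset.mem_biUnion.2 ⟨c, Finset.mem_univ c, ?_⟩
      exact Finset.mem_image.2 ⟨a, Finset.mem_insert_of_mem ha, rfl⟩

/-- PROOF. `⊆` is clear. Let `Q ∈ Pts V`, a local ring of `cht V v`, `v ∈ V`; a valuation ring `R` which dominates it
(`exists_val`) contains a chart `M.R c = cht V (s c ^ N)` (`complete`); `R` has the center `Q'` on it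
(`locOf`, `dom_locOf`), `Q' ∈ YS M`, and `Q = Q'` by `Pts.eq_of_dom`. -/
theorem pj_eq (hM : M.Ok0 n) {N : ℕ} {V : Submodule ℂ K}
    (h : ∀ c, (M.s c : K) ^ N ∈ V ∧ cht V ((M.s c : K) ^ N) = M.R c) : YS M = Pts V := by
  have hsub : YS M ⊆ Pts V := by
    rintro Q ⟨c, hc⟩
    exact ⟨(M.s c : K) ^ N, (h c).1, pow_ne_zero N (M.s c).ne_zero, by rwa [(h c).2]⟩
  refine Set.Subset.antisymm hsub fun Q hQ => ?_
  have hQ' := hQ
  obtain ⟨v, hv, hv0, hl⟩ := hQ'
  obtain ⟨R, hR, hR'⟩ := exists_val hl.isLocalRing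
  have hRk : ∀ a : ℂ, algebraMap ℂ K a ∈ R := fun a => hR _ (Q.algebraMap_mem a)
  obtain ⟨c, hc⟩ := hM.complete R hRk
  let R' : Subalgebra ℂ K := { R.toSubring with algebraMap_mem' := hRk }
  have hloc : IsLocalRing R' := (inferInstance : IsLocalRing R)
  have hle : M.R c ≤ R' := fun x hx => hc x hx
  have h1 : locOf (M.R c) R' hle ∈ YS M := ⟨c, locAt_locOf hle hloc⟩
  have e : Q = locOf (M.R c) R' hle := Pts.eq_of_dom (R := R') hQ (hsub h1)
    ⟨fun x hx => hR x hx, fun x hx hx' => hR' x hx hx'⟩ (dom_locOf hle)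
  rw [e]
  exact h1

/-- PROOF. `pj_sys`, `pj_eq`. For `v ∈ V`, `v ≠ 0`, the fractions of the elements of `cht V v` contain all `w / w'`,
`w, w' ∈ V`, `w' ≠ 0`, hence `M.R c`, hence everything (`ys_frac`). -/
theorem ys_proj (hM : M.Ok0 n) (hF : M.F = ⊤) : IsProj (YS M) := by
  obtain ⟨N, V, -, hfin, h⟩ := pj_sys hM
  obtain ⟨c⟩ := ys_ne hM
  refine ⟨V, hfin, ?_, fun v hv hv0 => ?_, pj_eq hM h⟩
  · intro hV
    have h1 := (h c).1
    rw [hV, Submodule.mem_bot] at h1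
    exact pow_ne_zero N (M.s c).ne_zero h1
  · have hle : M.R c ≤ locOf (cht V v) ⊤ le_top := by
      rw [← (h c).2]
      refine Algebra.adjoin_le ?_
      rintro _ ⟨w, hw, rfl⟩
      refine ⟨w / v, ptc_div_mem hw, (M.s c : K) ^ N / v, ptc_div_mem (h c).1,
        div_ne_zero (pow_ne_zero N (M.s c).ne_zero) hv0, Algebra.mem_top, ?_⟩
      rw [div_div_div_cancel_right₀ hv0]
    intro x
    obtain ⟨a, b, hb, rfl⟩ := ys_frac hM hF c x
    obtain ⟨a1, ha1, a2, ha2, ha0, -, ha⟩ := hle a.2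
    obtain ⟨b1, hb1, b2, hb2, hb0, -, hb'⟩ := hle b.2
    have hb10 : b1 ≠ 0 := by
      rintro rfl
      rw [zero_div] at hb'
      exact hb hb'
    refine ⟨⟨a1 * b2, mul_mem ha1 hb2⟩, ⟨a2 * b1, mul_mem ha2 hb1⟩, mul_ne_zero ha0 hb10, ?_⟩
    rw [ha, hb', div_div_div_eq]

/-- PROOF. `Pts.locAt`. -/
theorem ys_le (hM : M.Ok0 n) {Q : Subalgebra ℂ K} (hQ : Q ∈ YS M) {c : M.ι}
    (h : M.R c ≤ Q) : LocAt (M.R c) Q := by
  obtain ⟨N, V, -, hfin, hV⟩ := pj_sys hM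
  rw [pj_eq hM hV] at hQ
  rw [← (hV c).2] at h ⊢
  exact Pts.locAt hQ (hV c).1 (pow_ne_zero N (M.s c).ne_zero) h

end Pool.Agent.KM
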