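import Pool.Agent.Lib.MP_732f67_ag.X.Pj

/-!
The ample divisor of the model.
-/

namespace Pool.Agent.KM

variable {K : Type} [Field K] [Algebra ℂ K] {n : ℕ} {M : KMR.Mdl ℂ K ⊥}

/-- the ample divisor. PROOF. `H Q = (s c)⁻¹` for a chosen `c` with `LocAt (M.R c) Q`; `s c / s c'` is a unit of `Q` if
`M.R c ≤ Q` and `M.R c' ≤ Q` (`s_mem`). `IsCar`: `S` = generators of `M.R c`. `VA (YS M) (H ^ N) V` with `V` from
`pj_sys`. -/
theorem exists_hs (hM : M.Ok0 n) (hF : M.F = ⊤) : ∃ H : Subalgebra ℂ K → Kˣ,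
    IsCar (YS M) H ∧ Amp (YS M) H ∧
      ∀ Q ∈ YS M, ∀ c, M.R c ≤ Q → Un Q ((M.s c : K) * H Q) := by
  classical
  let H : Subalgebra ℂ K → Kˣ := fun Q =>
    if h : ∃ c, LocAt (M.R c) Q then (M.s h.choose)⁻¹ else 1
  have hH : ∀ Q ∈ YS M, ∃ c, LocAt (M.R c) Q ∧ H Q = (M.s c)⁻¹ := by
    intro Q hQ
    have h : ∃ c, LocAt (M.R c) Q := hQ
    exact ⟨h.choose, h.choose_spec, dif_pos h⟩
  have hun : ∀ (Q : Subalgebra ℂ K) (c c' : M.ι), M.R c ≤ Q → M.R c' ≤ Q →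
      Un Q ((M.s c : K) / M.s c') := by
    intro Q c c' hc hc'
    refine ⟨div_ne_zero (M.s c).ne_zero (M.s c').ne_zero, hc' (hM.s_mem c' c), ?_⟩
    rw [inv_div]
    exact hc (hM.s_mem c c')
  have hlast : ∀ Q ∈ YS M, ∀ c, M.R c ≤ Q → Un Q ((M.s c : K) * H Q) := by
    intro Q hQ c hc
    obtain ⟨c', hc', e⟩ := hH Q hQ
    rw [e, Units.val_inv_eq_inv_val, ← div_eq_mul_inv]
    exact hun Q c c' hc hc'.le
  obtain ⟨N, V, hN, hfin, hV⟩ := pj_sys hM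
  refine ⟨H, fun O hO => ?_, ⟨N, hN, V, ⟨hfin, fun w hw O hO => ?_, fun O hO => ?_⟩,
    pj_eq hM hV⟩, hlast⟩
  · obtain ⟨c, hc, e⟩ := hH O hO
    obtain ⟨S, hS⟩ := hM.fg c
    refine ⟨S, fun s hs => hc.le ?_, fun O' hO' h => ?_⟩
    · rw [← hS]
      exact Algebra.subset_adjoin hs
    · obtain ⟨c', hc', e'⟩ := hH O' hO'
      have hle : M.R c ≤ O' := by
        rw [← hS]
        exact Algebra.adjoin_le fun s hs => h s hs
      have h1 : ((H O / H O' : Kˣ) : K) = (M.s c' : K) / M.s c := by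
        rw [e, e', Units.val_div_eq_div_val, Units.val_inv_eq_inv_val, Units.val_inv_eq_inv_val,
          inv_div_inv]
      rw [h1]
      exact hun O' c' c hc'.le hle
  · obtain ⟨c, hc, e⟩ := hH O hO
    have h1 : w * (((H ^ N) O : Kˣ) : K) = w / (M.s c : K) ^ N := by
      rw [Pi.pow_apply, e, inv_pow, Units.val_inv_eq_inv_val, Units.val_pow_eq_pow_val,
        div_eq_mul_inv]
    rw [h1]
    apply hc.le
    rw [← (hV c).2]
    exact ptc_div_mem hw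
  · obtain ⟨c, hc, e⟩ := hH O hO
    refine ⟨(M.s c : K) ^ N, (hV c).1, ?_⟩
    have h1 : (M.s c : K) ^ N * (((H ^ N) O : Kˣ) : K) = 1 := by
      rw [Pi.pow_apply, e, inv_pow, Units.val_inv_eq_inv_val, Units.val_pow_eq_pow_val,
        mul_inv_cancel₀ (pow_ne_zero N (M.s c).ne_zero)]
    rw [h1]
    exact Un.one O

end Pool.Agent.KM
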