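import Pool.Agent.Lib.MP_732f67_ag.X.PrmB

/-!
The local equations of the boundary are prime elements; prime divisors.
-/

namespace Pool.Agent.KM

variable {K : Type} [Field K] [Algebra ℂ K] {n : ℕ} {M : KMR.Mdl ℂ K ⊥}
  {Q V V' : Subalgebra ℂ K} {c : M.ι} {j j' : M.J}

/-- the prime ideal of a boundary divisor in a chart is minimal over the local equation -/
private theorem prm_min (hM : M.Ok0 n) (hF : M.F = ⊤) (hV : V ∈ YS M) (hp : PrimDiv V)
    (hc : M.R c ≤ V) (hj : j ∈ M.S c) (hu : ¬ Un V (M.x c j : K)) :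
    ∃ P ∈ (Ideal.span {(⟨(M.x c j : K), hM.x_R c j hj⟩ : M.R c)}).minimalPrimes,
      ∀ x : K, x ∈ V ↔ ∃ a b : M.R c, b ∉ P ∧ x = a / b := by
  obtain ⟨P, hP, h⟩ := ys_le hM hV hc
  have hPu : ∀ a : M.R c, a ∈ P ↔ ¬ Un V (a : K) := by
    intro a
    constructor
    · intro ha hun
      obtain ⟨b, d, hd, hbd⟩ := (h (a : K)⁻¹).1 hun.2.2
      have hd0 : (d : K) ≠ 0 := fun h0 => hd (by
        rw [show d = 0 from Subtype.ext h0]
        exact P.zero_mem)
      have h1 : a * b = d := by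
        apply Subtype.ext
        change (a : K) * b = d
        have h2 : (b : K) = (a : K)⁻¹ * d := by
          rw [hbd, div_mul_cancel₀ _ hd0]
        rw [h2, mul_inv_cancel_left₀ hun.1]
      exact hd (h1 ▸ P.mul_mem_right b ha)
    · intro hun
      by_contra ha
      have ha0 : (a : K) ≠ 0 := fun h0 => ha (by
        rw [show a = 0 from Subtype.ext h0]
        exact P.zero_mem)
      exact hun ⟨ha0, hc a.2, (h _).2 ⟨1, a, ha, by
        change (a : K)⁻¹ = (1 : K) / a
        rw [one_div]⟩⟩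
  refine ⟨P, ⟨⟨hP, ?_⟩, ?_⟩, h⟩
  · rw [Ideal.span_singleton_le_iff_mem, hPu]
    exact hu
  · rintro Q' ⟨hQ', hx⟩ hle a ha
    rw [Ideal.span_singleton_le_iff_mem] at hx
    have hun := div_unif hM hF hV hp hc hj hu
    by_cases ha0 : (a : K) = 0
    · rw [show a = 0 from Subtype.ext ha0]
      exact Q'.zero_mem
    · have h1 : (a : K) / (M.x c j : K) ∈ V := by
        rcases hun.2.2 (a : K) (hc a.2) with h2 | h2
        · exact absurd ⟨ha0, hc a.2, h2⟩ ((hPu a).1 ha)
        · exact h2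
      obtain ⟨b, d, hd, hbd⟩ := (h _).1 h1
      have hd0 : (d : K) ≠ 0 := fun h0 => hd (by
        rw [show d = 0 from Subtype.ext h0]
        exact P.zero_mem)
      have h3 : a * d = ⟨(M.x c j : K), hM.x_R c j hj⟩ * b := by
        apply Subtype.ext
        change (a : K) * d = (M.x c j : K) * b
        rw [div_eq_div_iff (Units.ne_zero _) hd0] at hbd
        rw [hbd, mul_comm]
      have h4 : a * d ∈ Q' := h3 ▸ Q'.mul_mem_right b hx
      rcases hQ'.mem_or_mem h4 with h5 | h5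
      · exact h5
      · exact absurd (hle h5) hd

/-- PROOF. Such a `V` is the local ring of a chart `c` at a minimal prime ideal over some `x c j`, `j ∈ S c`
(a discrete valuation ring has only two prime ideals): `Ideal.finite_minimalPrimes_of_isNoetherianRing`. -/
theorem div_fin (hM : M.Ok0 n) (hF : M.F = ⊤) :
    {V : Subalgebra ℂ K | V ∈ YS M ∧ PrimDiv V ∧ ∃ j, On M V j}.Finite := by
  classical
  have hι : Finite M.ι := hM.fin
  let g : (c : M.ι) → Ideal (M.R c) → Subalgebra ℂ K := fun c P =>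
    if h : ∃ V : Subalgebra ℂ K, ∀ x : K, x ∈ V ↔ ∃ a b : M.R c, b ∉ P ∧ x = a / b then
      h.choose else ⊥
  let A : (c : M.ι) → M.S c → Set (Subalgebra ℂ K) := fun c j =>
    g c '' (Ideal.span {(⟨(M.x c j : K), hM.x_R c j j.2⟩ : M.R c)}).minimalPrimes
  have hA : ∀ c j, (A c j).Finite := by
    intro c j
    have hft : Algebra.FiniteType ℂ (M.R c) := (Subalgebra.fg_iff_finiteType (M.R c)).1 (hM.fg c)
    have hN : IsNoetherianRing (M.R c) := Algebra.FiniteType.isNoetherianRing ℂ (M.R c)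
    exact (Ideal.finite_minimalPrimes_of_isNoetherianRing (M.R c) _).image _
  refine (Set.finite_iUnion fun c => Set.finite_iUnion fun j => hA c j).subset ?_
  rintro V ⟨hV, hp, j, c, hc, hj, hu⟩
  obtain ⟨P, hP, h⟩ := prm_min hM hF hV hp hc hj hu
  refine Set.mem_iUnion.2 ⟨c, Set.mem_iUnion.2 ⟨⟨j, hj⟩, P, hP, ?_⟩⟩
  have hex : ∃ V : Subalgebra ℂ K, ∀ x : K, x ∈ V ↔ ∃ a b : M.R c, b ∉ P ∧ x = a / b := ⟨V, h⟩
  have h1 : g c P = hex.choose := dif_pos hex
  rw [h1]
  ext x
  rw [hex.choose_spec x, h x]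

/-- the order of an element of `Ψ` along a boundary divisor -/
theorem div_ord (hM : M.Ok0 n) (hF : M.F = ⊤) (hV : V ∈ YS M) (hp : PrimDiv V)
    (hj : On M V j) {a : Kˣ} (ha : a ∈ M.Ψ) : IsOrd V (a : K) (M.v j a) := by
  classical
  have hj' := hj
  obtain ⟨c, hc, hjc, hu⟩ := hj
  refine ⟨M.x c j, div_unif hM hF hV hp hc hjc hu, ?_⟩
  have hmul : ∀ {x y : K}, Un V x → Un V y → Un V (x * y) := by
    intro x y hx hy
    refine ⟨mul_ne_zero hx.1 hy.1, V.mul_mem hx.2.1 hy.2.1, ?_⟩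
    rw [mul_inv]
    exact V.mul_mem hx.2.2 hy.2.2
  have hpow : ∀ {x : K} (e : ℤ), Un V x → Un V (x ^ e) := by
    have h0 : ∀ {x : K} (e : ℕ), Un V x → Un V (x ^ e) := by
      intro x e hx
      refine ⟨pow_ne_zero _ hx.1, V.pow_mem hx.2.1 e, ?_⟩
      rw [← inv_pow]
      exact V.pow_mem hx.2.2 e
    intro x e hx
    rcases e with e | e
    · rw [Int.ofNat_eq_natCast, zpow_natCast]
      exact h0 e hx
    · rw [zpow_negSucc]
      have h1 := h0 (e + 1) hx
      exact ⟨inv_ne_zero h1.1, h1.2.2, by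
        rw [inv_inv]
        exact h1.2.1⟩
  have hprod : ∀ s : Finset M.J, (∀ i ∈ s, Un V (M.x c i : K)) →
      Un V (∏ i ∈ s, (M.x c i : K) ^ M.v i a) := by
    intro s
    induction s using Finset.induction_on with
    | empty =>
      intro _
      rw [Finset.prod_empty]
      exact ⟨one_ne_zero, V.one_mem, by
        rw [inv_one]
        exact V.one_mem⟩
    | insert i s his ih =>
      intro hs
      rw [Finset.prod_insert his]
      exact hmul (hpow _ (hs i (Finset.mem_insert_self i s)))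
        (ih fun k hk => hs k (Finset.mem_insert_of_mem hk))
  have h1 := v_exp hM ha c
  have h2 : Un V ((a : K) / ∏ i ∈ M.S c, (M.x c i : K) ^ M.v i a) :=
    ⟨h1.1, hc h1.2.1, hc h1.2.2⟩
  have h3 := hprod ((M.S c).erase j) fun i hi => by
    by_contra h4
    exact (Finset.mem_erase.1 hi).1
      (div_lab hM hF hV hp hj' ⟨c, hc, (Finset.mem_erase.1 hi).2, h4⟩).symm
  have h5 := hmul h2 h3
  have h6 : ∏ i ∈ M.S c, (M.x c i : K) ^ M.v i a =
      (M.x c j : K) ^ M.v j a * ∏ i ∈ (M.S c).erase j, (M.x c i : K) ^ M.v i a :=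
    (Finset.mul_prod_erase _ _ hjc).symm
  rw [h6] at h5
  have h7 : (a : K) / (M.x c j : K) ^ M.v j a =
      (a : K) / ((M.x c j : K) ^ M.v j a * ∏ i ∈ (M.S c).erase j, (M.x c i : K) ^ M.v i a) *
        ∏ i ∈ (M.S c).erase j, (M.x c i : K) ^ M.v i a := by
    rw [← div_div, div_mul_cancel₀ _ h3.1]
  rw [h7]
  exact h5

end Pool.Agent.KM
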