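import Pool.Agent.Lib.MP_732f67_ag.X.Lab
import Pool.Agent.Lib.MP_732f67_ag.R.Reg
import Pool.Agent.Lib.MP_732f67_ag.R.PrdA
import Pool.Agent.Lib.MP_732f67_ag.G.OrdP

/-!
The local equations of the boundary are prime elements; prime divisors.
-/

namespace Pool.Agent.KM

variable {K : Type} [Field K] [Algebra ℂ K] {n : ℕ} {M : KMR.Mdl ℂ K ⊥}
  {Q V V' : Subalgebra ℂ K} {c : M.ι} {j j' : M.J}

/-- PROOF. A closed point `M.O c φ ≤ Q` (`exists_clp`): `x c j` is not a unit of it, so it is one of the parameters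
(`OkP.par`), and a prime element (`KMR.reg_of_par`, `ys_dim`). `Q` is a local ring of `M.O c φ`. -/
theorem on_prime (hM : M.Ok0 n) (hF : M.F = ⊤) (hQ : Q ∈ YS M) (hc : M.R c ≤ Q)
    (hj : j ∈ M.S c) (hu : ¬ Un Q (M.x c j : K)) {a b : K} (ha : a ∈ Q) (hb : b ∈ Q)
    (h : a * b / M.x c j ∈ Q) : a / M.x c j ∈ Q ∨ b / M.x c j ∈ Q := by
  classical
  obtain ⟨φ, hφ, hT⟩ := exists_clp (hM.fg c) (ys_le hM hQ hc) {a, b, a * b / M.x c j} (by
    intro t ht
    rcases Finset.mem_insert.1 ht with rfl | ht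
    · exact ha
    rcases Finset.mem_insert.1 ht with rfl | ht
    · exact hb
    · rw [Finset.mem_singleton.1 ht]
      exact h)
  have hat : M.At c φ j := ⟨hj, fun h1 => hu (Un.mono hφ h1)⟩
  obtain ⟨z, hz, hz'⟩ := hM.par c φ
  obtain ⟨i, hi⟩ := hz' j hat
  have hreg := KMR.reg_of_par (ys_dim hM hF c) φ z hz
  have h1 := hreg.prime i a (hT a (by simp)) b (hT b (by simp)) (by
    rw [hi]
    exact hT _ (by simp))
  rw [hi] at h1
  exact h1.imp (fun h2 => hφ h2) fun h2 => hφ h2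

/-- PROOF. The same, with `Reg.indep`: let `P` be the ideal of `Q` in `O = M.O c φ`; `x c j / x c j' ∈ Q` gives `s ∈ O`, not
in `P`, with `s * x c j / x c j' ∈ O`; as `x c j / x c j' ∉ O` and `x c j'` is prime `s / x c j' ∈ O`, and `s` is
not a unit of `Q`. -/
theorem on_ne (hM : M.Ok0 n) (hF : M.F = ⊤) (hQ : Q ∈ YS M) (hc : M.R c ≤ Q)
    (hj : j ∈ M.S c) (hu : ¬ Un Q (M.x c j : K)) (hj' : j' ∈ M.S c)
    (hu' : ¬ Un Q (M.x c j' : K)) (hne : j ≠ j') : (M.x c j : K) / M.x c j' ∉ Q := by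
  classical
  intro h
  obtain ⟨φ, hφ, hT⟩ := exists_clp (hM.fg c) (ys_le hM hQ hc) {(M.x c j : K) / M.x c j'} (by
    intro t ht
    rw [Finset.mem_singleton.1 ht]
    exact h)
  have hat : M.At c φ j := ⟨hj, fun h1 => hu (Un.mono hφ h1)⟩
  have hat' : M.At c φ j' := ⟨hj', fun h1 => hu' (Un.mono hφ h1)⟩
  obtain ⟨z, hz, hz'⟩ := hM.par c φ
  obtain ⟨i, hi⟩ := hz' j hat
  obtain ⟨i', hi'⟩ := hz' j' hat'
  have hii : i' ≠ i := by
    rintro rfl
    have h1 : M.x c j = M.x c j' := Units.ext (hi.symm.trans hi')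
    have h2 := hM.v_x c j hj
    rw [h1, hM.v_x' c j hj j' hj' hne] at h2
    exact zero_ne_one h2
  have hreg := KMR.reg_of_par (ys_dim hM hF c) φ z hz
  apply hreg.indep i' i hii
  rw [hi, hi']
  exact hT _ (Finset.mem_singleton_self _)

/-- the ideal of `Q` generated by `x` -/
def prmI (Q : Subalgebra ℂ K) (x : K) : Ideal Q where
  carrier := {a | (a : K) / x ∈ Q}
  add_mem' := by
    intro a b ha hb
    change ((a + b : Q) : K) / x ∈ Q
    rw [AddMemClass.coe_add, add_div]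
    exact Q.add_mem ha hb
  zero_mem' := by
    change ((0 : Q) : K) / x ∈ Q
    rw [ZeroMemClass.coe_zero, zero_div]
    exact Q.zero_mem
  smul_mem' := by
    intro a b hb
    change ((a * b : Q) : K) / x ∈ Q
    rw [MulMemClass.coe_mul, mul_div_assoc]
    exact Q.mul_mem a.2 hb

theorem mem_prmI {Q : Subalgebra ℂ K} {x : K} {a : Q} : a ∈ prmI Q x ↔ (a : K) / x ∈ Q := Iff.rfl

/-- a noetherian local ring with a uniformizer is a discrete valuation ring -/
theorem dvr_of_unif {V : Subalgebra ℂ K} (hN : IsNoetherianRing V) (hl : IsLocalRing V) {π : K}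
    (h : Unif V π) : IsDiscreteValuationRing V := by
  have hnf : ¬ IsField V := by
    intro hf
    obtain ⟨y, hy⟩ := hf.mul_inv_cancel (a := (⟨π, h.1⟩ : V))
      (fun h0 => h.ne_zero (congrArg Subtype.val h0))
    have h1 : π * (y : K) = 1 := congrArg Subtype.val hy
    apply h.2.1
    rw [inv_eq_of_mul_eq_one_right h1]
    exact y.2
  have h5 : (IsLocalRing.maximalIdeal V).IsPrincipal → IsDiscreteValuationRing V :=
    ((IsDiscreteValuationRing.TFAE V hnf).out 0 4).2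
  refine h5 ⟨⟨⟨π, h.1⟩, ?_⟩⟩
  apply le_antisymm
  · intro a ha
    rw [IsLocalRing.mem_maximalIdeal, mem_nonunits_iff, pt_isUnit_iff] at ha
    have h1 : (a : K) / π ∈ V := by
      rcases h.2.2 a a.2 with h2 | h2
      · by_cases h0 : (a : K) = 0
        · rw [h0, zero_div]
          exact V.zero_mem
        · exact absurd ⟨h0, h2⟩ ha
      · exact h2
    refine Submodule.mem_span_singleton.2 ⟨⟨(a : K) / π, h1⟩, Subtype.ext ?_⟩
    exact div_mul_cancel₀ _ h.ne_zero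
  · rw [Submodule.span_singleton_le_iff_mem, IsLocalRing.mem_maximalIdeal, mem_nonunits_iff,
      pt_isUnit_iff]
    exact fun h1 => h.2.1 h1.2

/-- The prime divisor through `Q` with the local equation `x c j`.

PROOF. The localization `V` of `Q` at the prime ideal generated by `x c j` (`on_prime`) is a noetherian local
domain (`LocAt.isNoetherianRing`) with a principal maximal ideal, not zero: a discrete valuation ring. It is a
local ring of `M.R c` (`LocAt.trans`). -/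
theorem exists_div (hM : M.Ok0 n) (hF : M.F = ⊤) (hQ : Q ∈ YS M) (hc : M.R c ≤ Q)
    (hj : j ∈ M.S c) (hu : ¬ Un Q (M.x c j : K)) :
    ∃ V ∈ YS M, Q ≤ V ∧ PrimDiv V ∧ Unif V (M.x c j : K) ∧
      ∀ a ∈ Q, ¬ Un V a → a / M.x c j ∈ Q := by
  have hQc := ys_le hM hQ hc
  have hx0 : (M.x c j : K) ≠ 0 := (M.x c j).ne_zero
  have hxQ : (M.x c j : K) ∈ Q := hc (hM.x_R c j hj)
  have hxi : (M.x c j : K)⁻¹ ∉ Q := fun h1 => hu ⟨hx0, hxQ, h1⟩
  have hP : (prmI Q (M.x c j : K)).IsPrime := by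
    refine ⟨fun h1 => hxi ?_, fun {a b} hab => ?_⟩
    · have h2 := (Ideal.eq_top_iff_one _).1 h1
      rw [mem_prmI, OneMemClass.coe_one, one_div] at h2
      exact h2
    · exact on_prime hM hF hQ hc hj hu a.2 b.2 hab
  let V : Subalgebra ℂ K := KMR.LocI Q (prmI Q (M.x c j : K)) hP
  have hQV : Q ≤ V := KMR.le_locI hP
  have hlQ : LocAt Q V := ⟨prmI Q (M.x c j : K), hP, fun _ => Iff.rfl⟩
  have hlc : LocAt (M.R c) V := hQc.trans hlQ
  have hunif : Unif V (M.x c j : K) := by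
    refine ⟨hQV hxQ, ?_, ?_⟩
    · rintro ⟨b, s, hs, h1⟩
      apply hs
      have hs0 : (s : K) ≠ 0 := KMR.locI_ne hs
      rw [mem_prmI]
      have h2 : (s : K) / M.x c j = b := by
        rw [div_eq_mul_inv, h1, mul_div_cancel₀ _ hs0]
      rw [h2]
      exact b.2
    · rintro _ ⟨a, s, hs, rfl⟩
      by_cases ha : a ∈ prmI Q (M.x c j : K)
      · right
        refine ⟨⟨(a : K) / M.x c j, ha⟩, s, hs, ?_⟩
        rw [div_right_comm]
      · left
        exact ⟨s, a, ha, inv_div _ _⟩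
  have hl : IsLocalRing V := hlc.isLocalRing
  refine ⟨V, ⟨c, hlc⟩, hQV, ⟨dvr_of_unif (hlc.isNoetherianRing (hM.fg c)) hl hunif, ?_,
    M.R c, hM.fg c, hlc⟩, hunif, ?_⟩
  · intro x
    obtain ⟨a, b, hb, rfl⟩ := ys_frac hM hF c x
    exact ⟨⟨a, hlc.le a.2⟩, ⟨b, hlc.le b.2⟩, hb, rfl⟩
  · intro a ha hua
    by_contra h1
    have h2 : (⟨a, ha⟩ : Q) ∉ prmI Q (M.x c j : K) := h1
    exact hua ((KMR.un_locI hP ⟨a, ha⟩).2 h2)

end Pool.Agent.KM
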