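import Pool.Agent.Lib.MP_732f67_ag.X.PrmA

/-!
The local equations of the boundary are prime elements; prime divisors.
-/

namespace Pool.Agent.KM

variable {K : Type} [Field K] [Algebra ℂ K] {n : ℕ} {M : KMR.Mdl ℂ K ⊥}
  {Q V V' : Subalgebra ℂ K} {c : M.ι} {j j' : M.J}

/-- a prime divisor through `Q` at which `x` vanishes is the one given by the prime element `x` -/
theorem prmB_eq {V₀ : Subalgebra ℂ K} {x : K} (hQV : LocAt Q V) (hp : PrimDiv V)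
    (hx : x ∈ Q) (hx0 : x ≠ 0) (hu : ¬ Un V x) (hV₀ : Q ≤ V₀) (hp₀ : PrimDiv V₀)
    (hg : ∀ a ∈ Q, ¬ Un V₀ a → a / x ∈ Q) : V = V₀ := by
  refine hp.eq_of_le hp₀ fun y hy => ?_
  have hQV' : Q ≤ V := hQV.le
  obtain ⟨P, hP, h1⟩ := hQV
  obtain ⟨a, b, hb, rfl⟩ := (h1 y).1 hy
  have hb0 : (b : K) ≠ 0 := fun h0 => hb (by rw [show b = 0 from Subtype.ext h0]; exact P.zero_mem)
  have hbV : Un V (b : K) := by
    refine ⟨hb0, hQV' b.2, (h1 _).2 ⟨1, b, hb, ?_⟩⟩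
    rw [OneMemClass.coe_one, one_div]
  have hb₀ : Un V₀ (b : K) := by
    by_contra h2
    have h3 := hg _ b.2 h2
    refine hu ⟨hx0, hQV' hx, ?_⟩
    have h4 : x⁻¹ = (b : K) / x * (b : K)⁻¹ := by
      rw [div_mul_eq_mul_div, mul_inv_cancel₀ hb0, one_div]
    rw [h4]
    exact V.mul_mem (hQV' h3) hbV.2.2
  rw [div_eq_mul_inv]
  exact V₀.mul_mem (hV₀ a.2) hb₀.2.2

/-- PROOF. Let `V₀` be as in `exists_div`. `V ∈ YS M` is a local ring of `Q` (`IsProj.locAt_of_le`) at a prime ideal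
`p` which contains `x c j`, hence the prime ideal `(x c j)` of `V₀`: so `V ≤ V₀`, and `V = V₀` by
`PrimDiv.eq_of_le`. -/
theorem div_eq (hM : M.Ok0 n) (hF : M.F = ⊤) (hQ : Q ∈ YS M) (hc : M.R c ≤ Q)
    (hj : j ∈ M.S c) (hV : V ∈ YS M) (hp : PrimDiv V) (hQV : Q ≤ V)
    (hu : ¬ Un V (M.x c j : K)) (hV' : V' ∈ YS M) (hp' : PrimDiv V') (hQV' : Q ≤ V')
    (hu' : ¬ Un V' (M.x c j : K)) : V = V' := by
  obtain ⟨V₀, hV₀, h1, h2, h3, h4⟩ := exists_div hM hF hQ hc hj fun h => hu (h.mono hQV)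
  have hx : (M.x c j : K) ∈ Q := hc (hM.x_R c j hj)
  have hproj := ys_proj hM hF
  rw [prmB_eq (hproj.locAt_of_le hQ hV hQV) hp hx (M.x c j).ne_zero hu h1 h2 h4,
    prmB_eq (hproj.locAt_of_le hQ hV' hQV') hp' hx (M.x c j).ne_zero hu' h1 h2 h4]

theorem div_unif (hM : M.Ok0 n) (hF : M.F = ⊤) (hV : V ∈ YS M) (hp : PrimDiv V)
    (hc : M.R c ≤ V) (hj : j ∈ M.S c) (hu : ¬ Un V (M.x c j : K)) : Unif V (M.x c j : K) := by
  obtain ⟨V₀, hV₀, h1, h2, h3, h4⟩ := exists_div hM hF hV hc hj hu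
  rw [hp.eq_of_le h2 h1]
  exact h3

/-- the ideal of the prime divisor `V` in `Q` is generated by `x c j` -/
theorem div_gen (hM : M.Ok0 n) (hF : M.F = ⊤) (hQ : Q ∈ YS M) (hc : M.R c ≤ Q)
    (hj : j ∈ M.S c) (hV : V ∈ YS M) (hp : PrimDiv V) (hQV : Q ≤ V)
    (hu : ¬ Un V (M.x c j : K)) : ∀ a ∈ Q, ¬ Un V a → a / M.x c j ∈ Q := by
  obtain ⟨V₀, hV₀, h1, h2, h3, h4⟩ := exists_div hM hF hQ hc hj fun h => hu (h.mono hQV)
  rw [prmB_eq ((ys_proj hM hF).locAt_of_le hQ hV hQV) hp (hc (hM.x_R c j hj))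
    (M.x c j).ne_zero hu h1 h2 h4]
  exact h4

/-- PROOF. Both `x c j` and `x c j'` are uniformizers of `V`, `V` a point of the chart `c`: `on_ne` for `Q = V`. -/
theorem div_lab (hM : M.Ok0 n) (hF : M.F = ⊤) (hV : V ∈ YS M) (hp : PrimDiv V)
    (hj : On M V j) (hj' : On M V j') : j = j' := by
  obtain ⟨c, hc, -⟩ := id hj
  by_contra hne
  have h1 := (on_iff hM hc).1 hj
  have h2 := (on_iff hM hc).1 hj'
  exact on_ne hM hF hV hc h1.1 h1.2 h2.1 h2.2 hne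
    ((div_unif hM hF hV hp hc h1.1 h1.2).un_div (div_unif hM hF hV hp hc h2.1 h2.2)).2.1

/-- two prime divisors through a point with the same label -/
theorem div_on (hM : M.Ok0 n) (hF : M.F = ⊤) (hQ : Q ∈ YS M) (hV : V ∈ YS M)
    (hp : PrimDiv V) (hQV : Q ≤ V) (hj : On M V j) (hV' : V' ∈ YS M) (hp' : PrimDiv V')
    (hQV' : Q ≤ V') (hj' : On M V' j) : V = V' := by
  obtain ⟨c, hc⟩ := hQ
  have h1 := (on_iff hM (hc.le.trans hQV)).1 hj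
  have h2 := (on_iff hM (hc.le.trans hQV')).1 hj'
  exact div_eq hM hF ⟨c, hc⟩ hc.le h1.1 hV hp hQV h1.2 hV' hp' hQV' h2.2

end Pool.Agent.KM
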