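import Pool.Agent.Lib.MP_732f67_ag.N.InE
import Pool.Agent.Lib.MP_732f67_ag.N.AmpE
import Pool.Agent.Lib.MP_732f67_ag.G.EqA

/-!
Invariant sections without common zeros, and the functions given by them.
-/

namespace Pool.Agent.KM

variable {F : Type} [Field F] [Algebra ℂ F] {Y : Set (Subalgebra ℂ F)} {d : ℕ}
  {G : Subgroup (F ≃ₐ[ℂ] F)} {Δ : Fin d → Derivation ℂ F F} {H D : Subalgebra ℂ F → Fˣ}

/-- the function field is finitely generated -/
theorem proj_fg (hY : IsProj Y) : ∃ S : Finset F, IntermediateField.adjoin ℂ (S : Set F) = ⊤ := by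
  obtain ⟨V, hVf, hV0, hfr, -⟩ := hY
  obtain ⟨v, hv, hv0⟩ := Submodule.exists_mem_ne_zero_of_ne_bot hV0
  obtain ⟨T, hT⟩ := cht_fg hVf v
  refine ⟨T, eq_top_iff.2 fun x _ => ?_⟩
  obtain ⟨a, b, -, rfl⟩ := hfr v hv hv0 x
  have h1 : ∀ a : cht V v, (a : F) ∈ IntermediateField.adjoin ℂ (T : Set F) := fun a => by
    have h2 : (a : F) ∈ Algebra.adjoin ℂ (T : Set F) := by
      rw [hT]
      exact a.2
    exact IntermediateField.algebra_adjoin_le_adjoin ℂ (T : Set F) h2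
  exact div_mem (h1 a) (h1 b)

/-- PROOF. `Y ⊆ Pts V'` (`BF.cht_le`, `LocAt.of_le`), and `IsProj.eq_pts`. -/
theorem va_le (hY : IsProj Y) {V V' : Submodule ℂ F} (h : VA Y D V) (hV : V ≤ V')
    (hf : Module.Finite ℂ V') (hs : V' ≤ Sec Y D) : VA Y D V' :=
  ⟨⟨hf, hs, fun O hO => by
    obtain ⟨f, hfV, hu⟩ := h.gen O hO
    exact ⟨f, hV hfV, hu⟩⟩, h.pts_of_le hY hV hs⟩

/-- powers of algebraically independent elements -/
theorem scn_pow {ι : Type} {x : ι → F} (hx : AlgebraicIndependent ℂ x) {m : ℕ} (hm : 1 ≤ m) :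
    AlgebraicIndependent ℂ fun l => x l ^ m := by
  rw [algebraicIndependent_iff_injective_aeval] at hx ⊢
  have h1 : ∀ p : MvPolynomial ι ℂ, MvPolynomial.aeval (fun l => x l ^ m) p =
      MvPolynomial.aeval x (MvPolynomial.expand m p) := fun p => by
    rw [MvPolynomial.aeval_expand]
    rfl
  intro p q hpq
  rw [h1, h1] at hpq
  exact MvPolynomial.expand_injective hm (hx hpq)

/-- invariant sections `s l` without common zeros of a very ample multiple of `H`

PROOF. `exists_inv_noe`: `n`, `y`. `Amp Y H`: `m`. `e = n m`, `s l = y l ^ m`; the quotients `(y l / y 0) ^ m` are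
algebraically independent, so they are a transcendence basis (`Base.dim`). `VA.pow` for `H ^ m` and `n`; add the
`s l` to the linear system (`va_le`). -/
theorem exists_secs (hY : Base d Y G Δ) (hH : GC Y G H) (hA : Amp Y H) :
    ∃ (e : ℕ) (s : Fin (d + 1) → F) (V : Submodule ℂ F), 1 ≤ e ∧ VA Y (H ^ e) V ∧
      (∀ l, s l ∈ V ∧ s l ≠ 0 ∧ ∀ γ ∈ G, γ (s l) = s l) ∧
      (∀ O ∈ Y, ∃ l, Un O (s l * (H ^ e) O)) ∧
      IsTranscendenceBasis ℂ fun l : Fin d => s l.succ / s 0 := by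
  obtain ⟨n, hn, y, hy, hyg, hyi⟩ := exists_inv_noe hY hH hA
  obtain ⟨m, hm, V, hV⟩ := hA
  have hV' := hV.pow hY.proj hn
  have he : (H ^ m) ^ n = H ^ (n * m) := by
    rw [← pow_mul, mul_comm]
  rw [he] at hV'
  have hs : ∀ l, y l ^ m ∈ Sec Y (H ^ (n * m)) := fun l => by
    have h1 := sec_pow (hy l).2.1 m
    rw [← pow_mul] at h1
    exact h1
  have hfin : Module.Finite ℂ (V ^ n : Submodule ℂ F) := hV'.fin
  have hfin' : Module.Finite ℂ (Submodule.span ℂ (Set.range fun l => y l ^ m)) :=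
    FiniteDimensional.span_of_finite ℂ (Set.finite_range _)
  refine ⟨n * m, fun l => y l ^ m, V ^ n ⊔ Submodule.span ℂ (Set.range fun l => y l ^ m),
    Nat.mul_pos hn hm, ?_, fun l => ⟨?_, pow_ne_zero _ (hy l).1, fun γ hγ => ?_⟩, fun O hO => ?_,
    ?_⟩
  · refine va_le hY.proj hV' le_sup_left inferInstance (sup_le hV'.sec ?_)
    rw [Submodule.span_le]
    rintro _ ⟨l, rfl⟩
    exact hs l
  · exact (le_sup_right : _ ≤ V ^ n ⊔ Submodule.span ℂ (Set.range fun l => y l ^ m))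
      (Submodule.subset_span ⟨l, rfl⟩)
  · rw [map_pow, (hy l).2.2 γ hγ]
  · obtain ⟨l, hl⟩ := hyg O hO
    refine ⟨l, ?_⟩
    have h1 : y l ^ m * ((H ^ (n * m)) O : Fˣ) = (y l * ((H ^ n) O : Fˣ)) ^ m := by
      simp only [Pi.pow_apply, Units.val_pow_eq_pow_val, mul_pow, ← pow_mul]
    rw [h1]
    exact hl.pow m
  · have h1 := scn_pow hyi hm
    have h2 : (fun l : Fin d => y l.succ ^ m / y 0 ^ m) = fun l : Fin d => (y l.succ / y 0) ^ m := by
      funext l
      rw [div_pow]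
    dsimp only
    rw [h2]
    refine h1.isTranscendenceBasis_of_trdeg_le_of_finite ?_
    rw [hY.dim, Cardinal.mk_fin]

end Pool.Agent.KM
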