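import Pool.Agent.Lib.MP_732f67_ag.N.CarE
import Pool.Agent.Lib.MP_732f67_ag.N.DmC
import Pool.Agent.Lib.MP_732f67_ag.N.AmpE
import Pool.Agent.Lib.MP_732f67_ag.KM.AtGen

/-!
The functions given by sections without common zeros.
-/

namespace Pool.Agent.KM

variable {F : Type} [Field F] [Algebra ℂ F] {Y : Set (Subalgebra ℂ F)} {d : ℕ}
  {G : Subgroup (F ≃ₐ[ℂ] F)} {Δ : Fin d → Derivation ℂ F F} {H D : Subalgebra ℂ F → Fˣ}

/-- PROOF. An element which belongs to all valuation rings containing a ring is integral over it. Let `R` be a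
valuation ring which contains all `s j / s k`, `O ∈ Y` its center (`IsProj.exists_center`), `s l * D O` a unit of
`O`. `s l / s k ∈ R`, `s k / s l ∈ O`, so `s l / s k ∈ O` (domination) and `s k * D O` is a unit of `O`:
`w / s k ∈ O ⊆ R`. -/
theorem secs_int (hY : IsProj Y) {R : ℕ} {s : Fin (R + 1) → F}
    (hs : ∀ l, s l ∈ Sec Y D ∧ s l ≠ 0) (h : ∀ O ∈ Y, ∃ l, Un O (s l * D O)) {w : F}
    (hw : w ∈ Sec Y D) (k : Fin (R + 1)) :
    IsIntegral (Algebra.adjoin ℂ (Set.range fun j => s j / s k)) (w / s k) := by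
  have h1 : IsIntegral (Algebra.adjoin ℂ (Set.range fun j => s j / s k)).toSubring (w / s k) := by
    refine _root_.KM.AtGen.integral_of_val fun T hT => ?_
    obtain ⟨O, hO, h2, h3⟩ := hY.exists_center T fun c => hT _ (Subalgebra.algebraMap_mem _ c)
    obtain ⟨l, hl⟩ := h O hO
    have h4 : s l / s k ∈ T := hT _ (Algebra.subset_adjoin ⟨l, rfl⟩)
    have h5 : s k / s l ∈ O := by
      have h51 : s k / s l = s k * (D O : F) * (s l * (D O : F))⁻¹ := by
        rw [← div_eq_mul_inv, mul_div_mul_right _ _ (D O).ne_zero]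
      rw [h51]
      exact O.mul_mem ((hs k).1 O hO) hl.2.2
    have h6 : s l / s k ∈ O := by
      have h61 := h3 (s k / s l) h5 (by rwa [inv_div])
      rwa [inv_div] at h61
    refine h2 _ ?_
    have h7 : w / s k = w * (D O : F) * (s l * (D O : F))⁻¹ * (s l / s k) := by
      have h71 := (D O).ne_zero
      have h72 := (hs l).2
      have h73 := (hs k).2
      field_simp
    rw [h7]
    exact O.mul_mem (O.mul_mem (hw O hO) hl.2.2) h6
  exact h1

/-- polynomials in the `s j / s 0`: induction on `Algebra.adjoin` -/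
theorem secs_poly {R : ℕ} {s : Fin (R + 1) → F} (hs : ∀ l, s l ∈ Sec Y D ∧ s l ≠ 0) {f : F}
    (hf : f ∈ Algebra.adjoin ℂ (Set.range fun j => s j / s 0)) :
    ∃ N : ℕ, s 0 ^ N * f ∈ Sec Y (D ^ N) := by
  induction hf using Algebra.adjoin_induction with
  | mem x hx =>
    obtain ⟨j, rfl⟩ := hx
    refine ⟨1, ?_⟩
    have h1 : s 0 ^ 1 * (s j / s 0) = s j := by
      rw [pow_one, mul_div_cancel₀ _ (hs 0).2]
    dsimp only
    rw [h1, pow_one]
    exact (hs j).1
  | algebraMap c =>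
    refine ⟨0, fun O _ => ?_⟩
    rw [pow_zero, pow_zero, one_mul, Pi.one_apply, Units.val_one, mul_one]
    exact O.algebraMap_mem c
  | add x y _ _ hx hy =>
    obtain ⟨N, hN⟩ := hx
    obtain ⟨M, hM⟩ := hy
    refine ⟨N + M, ?_⟩
    have h1 : s 0 ^ (N + M) * (x + y) = s 0 ^ N * x * s 0 ^ M + s 0 ^ N * (s 0 ^ M * y) := by
      ring
    rw [h1, pow_add]
    exact Submodule.add_mem _ (sec_mul hN (sec_pow (hs 0).1 M)) (sec_mul (sec_pow (hs 0).1 N) hM)
  | mul x y _ _ hx hy =>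
    obtain ⟨N, hN⟩ := hx
    obtain ⟨M, hM⟩ := hy
    refine ⟨N + M, ?_⟩
    have h1 : s 0 ^ (N + M) * (x * y) = s 0 ^ N * x * (s 0 ^ M * y) := by
      ring
    rw [h1, pow_add]
    exact sec_mul hN hM

/-- PROOF. `O'.comap i` is a local ring (`DmC_local`). For `w ∈ V` the element `i (w / s k)` is integral over `O'`
(`secs_int`), hence in `O'`: `cht V (s k) ≤ O'.comap i`. It has a center `O ∈ Pts V = Y` (`exists_center`). -/
theorem secs_dom (hY : IsProj Y) {V : Submodule ℂ F} (hV : VA Y D V) {R : ℕ}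
    {s : Fin (R + 1) → F} (hs : ∀ l, s l ∈ V ∧ s l ≠ 0)
    (h : ∀ O ∈ Y, ∃ l, Un O (s l * D O)) {K : Type} [Field K] [Algebra ℂ K] (i : F →ₐ[ℂ] K)
    {O' : Subalgebra ℂ K} (hl : IsLocalRing O') (hn : ∀ x : K, IsIntegral O' x → x ∈ O')
    {k : Fin (R + 1)} (hk : ∀ j, i (s j / s k) ∈ O') : ∃ O ∈ Y, Dm i O O' := by
  have hA : Algebra.adjoin ℂ (Set.range fun j => s j / s k) ≤ O'.comap i := by
    refine Algebra.adjoin_le ?_
    rintro _ ⟨j, rfl⟩
    exact hk j
  have hle : cht V (s k) ≤ O'.comap i := by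
    refine Algebra.adjoin_le ?_
    rintro _ ⟨w, hw, rfl⟩
    have h1 := secs_int hY (fun l => ⟨hV.sec (hs l).1, (hs l).2⟩) h (hV.sec hw) k
    let g : Algebra.adjoin ℂ (Set.range fun j => s j / s k) →+* O' :=
      { toFun := fun x => ⟨i x, hA x.2⟩
        map_one' := Subtype.ext (map_one i)
        map_mul' := fun x y => Subtype.ext (map_mul i _ _)
        map_zero' := Subtype.ext (map_zero i)
        map_add' := fun x y => Subtype.ext (map_add i _ _) }
    have h2 : IsIntegral O' (i (w / s k)) :=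
      IsIntegral.map_of_comp_eq g (i : F →+* K) (RingHom.ext fun x => rfl) h1
    exact hn _ h2
  obtain ⟨O, hO, hd⟩ := exists_center (hs k).1 (hs k).2 (DmC_local i hl) hle
  refine ⟨O, ?_, fun x hx => hd.1 hx, fun x hx hx' => hd.2 x hx ?_⟩
  · rw [hV.eq]
    exact hO
  · change i x⁻¹ ∈ O'
    rw [map_inv₀]
    exact hx'

end Pool.Agent.KM
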