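import Pool.Agent.Lib.MP_732f67_ag.X.Emd
import Pool.Agent.Lib.MP_732f67_ag.X.CdnB
import Pool.Agent.Lib.MP_732f67_ag.X.Hm
import Pool.Agent.Lib.MP_732f67_ag.X.Act
import Pool.Agent.Lib.MP_732f67_ag.X.Scn
import Pool.Agent.Lib.MP_732f67_ag.X.ScnB
import Pool.Agent.Lib.MP_732f67_ag.X.Min
import Pool.Agent.Lib.MP_732f67_ag.X.Frm

/-!
Existence of Galois models with normal crossings: Part N from Part R.
-/

namespace Pool.Agent.KM

variable {F : Type} [Field F] [Algebra ℂ F] {d : ℕ} {G : Subgroup (F ≃ₐ[ℂ] F)} {Φ : Finset F}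
  {x : Fin d → F}

theorem Emd.off_un (E : Emd F d G Φ x) {φ : F} (hφ : φ ∈ Φ) {Q : Subalgebra ℂ E.K}
    (hQ : Q ∈ YS E.M) (h : ∀ j, ¬ On E.M Q j) : Un Q (E.i φ) := by
  obtain ⟨a, ha, h1, -⟩ := E.psi φ hφ
  rw [← h1]
  exact psi_un E.ok hQ h ha

theorem Emd.off_f (E : Emd F d G Φ x) {Q : Subalgebra ℂ E.K}
    (hQ : Q ∈ YS E.M) (h : ∀ j, ¬ On E.M Q j) : Un Q (E.i E.f) := by
  obtain ⟨a, ha, h1⟩ := E.f_psi
  rw [← h1]
  exact psi_un E.ok hQ h ha

theorem rx_zpow {K : Type} [Field K] [Algebra ℂ K] {O : Subalgebra ℂ K} {a : K} (ha : a ∈ O)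
    {e : ℤ} (he : 0 ≤ e) : a ^ e ∈ O := by
  obtain ⟨m, rfl⟩ := Int.eq_ofNat_of_zero_le he
  rw [zpow_natCast]
  exact O.pow_mem ha m

theorem Emd.cmp (E : Emd F d G Φ x) {φ : F} (hφ : φ ∈ Φ) (c : E.M.ι) :
    E.i φ ∈ E.M.R c ∨ (E.i φ)⁻¹ ∈ E.M.R c := by
  obtain ⟨a, ha, h1, h2⟩ := E.psi φ hφ
  have hu := v_exp E.ok ha c
  rw [← h1]
  set P : E.K := ∏ j ∈ E.M.S c, (E.M.x c j : E.K) ^ E.M.v j a with hP
  have hP0 : P ≠ 0 := Finset.prod_ne_zero_iff.2 fun j _ => zpow_ne_zero _ (E.M.x c j).ne_zero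
  rcases h2 c with h | h
  · refine Or.inl ?_
    have h3 : (a : E.K) = (a : E.K) / P * P := (div_mul_cancel₀ _ hP0).symm
    rw [h3]
    refine (E.M.R c).mul_mem hu.2.1 ((E.M.R c).prod_mem fun j hj => ?_)
    exact rx_zpow (E.ok.x_R c j hj) (h j hj)
  · refine Or.inr ?_
    have h3 : (a : E.K)⁻¹ = ((a : E.K) / P)⁻¹ * P⁻¹ := by
      rw [← mul_inv, div_mul_cancel₀ _ hP0]
    rw [h3]
    refine (E.M.R c).mul_mem hu.2.2 ?_
    rw [hP, ← Finset.prod_inv_distrib]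
    refine (E.M.R c).prod_mem fun j hj => ?_
    rw [← zpow_neg]
    exact rx_zpow (E.ok.x_R c j hj) (neg_nonneg.2 (h j hj))

/-- PROOF. `exists_clp` with the `i (x l)`, `i f` and its inverse; `Emd.off`, `on_pt`, `on_mono`. -/
theorem Emd.off_of (E : Emd F d G Φ x) {Q : Subalgebra ℂ E.K}
    (hQ : Q ∈ YS E.M) (h : ∀ l, E.i (x l) ∈ Q) (hf : Un Q (E.i E.f)) : ∀ j, ¬ On E.M Q j := by
  classical
  intro j hj
  obtain ⟨c, hc⟩ := hQ
  obtain ⟨φ, h1, h2⟩ := exists_clp (E.ok.fg c) hc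
    (insert (E.i E.f) (insert (E.i E.f)⁻¹ (Finset.univ.image fun l => E.i (x l)))) (by
      intro t ht
      rw [Finset.mem_insert, Finset.mem_insert, Finset.mem_image] at ht
      rcases ht with rfl | rfl | ⟨l, -, rfl⟩
      · exact hf.2.1
      · exact hf.2.2
      · exact h l)
  have h3 : E.M.Off c φ := E.off c φ
    (fun l => h2 _ (Finset.mem_insert_of_mem (Finset.mem_insert_of_mem
      (Finset.mem_image_of_mem _ (Finset.mem_univ l)))))
    ⟨hf.1, h2 _ (Finset.mem_insert_self _ _),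
      h2 _ (Finset.mem_insert_of_mem (Finset.mem_insert_self _ _))⟩
  exact h3 j ((on_pt E.ok φ j).1 (on_mono E.ok (KMR.le_loc φ) h1 hj))

/-- one of finitely many functions has the smallest value on a chart -/
theorem Emd.exists_min (E : Emd F d G Φ x) {R : ℕ} {s : Fin (R + 1) → F} (hs : ∀ l, s l ≠ 0)
    (h : ∀ j k, s j / s k ∈ Φ) (c : E.M.ι) : ∃ k, ∀ j, E.i (s j / s k) ∈ E.M.R c := by
  classical
  have key : ∀ T : Finset (Fin (R + 1)), T.Nonempty →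
      ∃ k ∈ T, ∀ j ∈ T, E.i (s j / s k) ∈ E.M.R c := by
    intro T hT
    induction hT using Finset.Nonempty.cons_induction with
    | singleton a =>
      refine ⟨a, Finset.mem_singleton_self a, fun j hj => ?_⟩
      rw [Finset.mem_singleton.1 hj, div_self (hs a), map_one]
      exact (E.M.R c).one_mem
    | cons a T ha hT ih =>
      obtain ⟨k, hk, h1⟩ := ih
      rcases E.cmp (h a k) c with h2 | h2
      · refine ⟨k, Finset.mem_cons.2 (Or.inr hk), fun j hj => ?_⟩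
        rcases Finset.mem_cons.1 hj with rfl | hj
        · exact h2
        · exact h1 j hj
      · refine ⟨a, Finset.mem_cons_self a T, fun j hj => ?_⟩
        rcases Finset.mem_cons.1 hj with rfl | hj
        · rw [div_self (hs j), map_one]
          exact (E.M.R c).one_mem
        · have h3 : s j / s a = s j / s k * (s a / s k)⁻¹ := by
            have h4 := hs k
            have h5 := hs a
            field_simp
          rw [h3, map_mul, map_inv₀]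
          exact (E.M.R c).mul_mem (h1 j hj) h2
  obtain ⟨k, -, hk⟩ := key Finset.univ ⟨0, Finset.mem_univ _⟩
  exact ⟨k, fun j => hk j (Finset.mem_univ j)⟩

theorem un_mul_iff {K : Type} [Field K] [Algebra ℂ K] {O : Subalgebra ℂ K} {a b : K}
    (ha : a ∈ O) (hb : b ∈ O) : Un O (a * b) ↔ Un O a ∧ Un O b := by
  refine ⟨fun h => ?_, fun h => h.1.mul h.2⟩
  have ha0 : a ≠ 0 := left_ne_zero_of_mul h.1
  have hb0 : b ≠ 0 := right_ne_zero_of_mul h.1
  refine ⟨⟨ha0, ha, ?_⟩, hb0, hb, ?_⟩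
  · have h1 : a⁻¹ = b * (a * b)⁻¹ := by
      rw [mul_inv, mul_comm a⁻¹, ← mul_assoc, mul_inv_cancel₀ hb0, one_mul]
    rw [h1]
    exact O.mul_mem hb h.2.2
  · have h1 : b⁻¹ = a * (a * b)⁻¹ := by
      rw [mul_inv, ← mul_assoc, mul_inv_cancel₀ ha0, one_mul]
    rw [h1]
    exact O.mul_mem ha h.2.2

/-- PROOF. `O = cen O'`. `a * H O ^ l = (s 0 * D O) * (s 0 ^ N * f * D O ^ N)`, `D = H ^ e`, both factors in `O`. If `O'` is
off the boundary then the `i (s j / s 0)` and `i f` are units of `O'` (`off_un`, `off_f`), and some `s j * D O` is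
a unit of `O`. Conversely both factors are units of `O'`, so the `i (s j / s 0)` are in `O'` and `i f` is a unit:
`off_of`. -/
theorem Emd.a_un (E : Emd F d G Φ x) {Y : Set (Subalgebra ℂ F)} {D : Subalgebra ℂ F → Fˣ}
    {s : Fin (d + 1) → F} (hs : ∀ l, s l ∈ Sec Y D ∧ s l ≠ 0) (h1 : ∀ j k, s j / s k ∈ Φ)
    (hx : ∀ l : Fin d, x l = s l.succ / s 0) (hgen : ∀ O ∈ Y, ∃ l, Un O (s l * D O)) {N : ℕ}
    (hN : s 0 ^ N * E.f ∈ Sec Y (D ^ N)) {O : Subalgebra ℂ F} (hO : O ∈ Y)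
    {Q : Subalgebra ℂ E.K} (hQ : Q ∈ YS E.M) (hd : Dm E.i O Q) :
    (∀ j, ¬ On E.M Q j) ↔ Un Q (E.i (s 0 ^ (N + 1) * E.f * (D O : F) ^ (N + 1))) := by
  have h2 : s 0 ^ (N + 1) * E.f * (D O : F) ^ (N + 1) =
      (s 0 * D O) * (s 0 ^ N * E.f * ((D ^ N) O : Fˣ)) := by
    rw [Pi.pow_apply, Units.val_pow_eq_pow_val]
    ring
  have h3 : s 0 * D O ∈ O := (hs 0).1 O hO
  have h4 : s 0 ^ N * E.f * ((D ^ N) O : Fˣ) ∈ O := hN O hO
  have hm : ∀ j, E.i (s j * D O) ∈ Q := fun j => hd.1 _ ((hs j).1 O hO)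
  rw [h2, map_mul, un_mul_iff (hd.1 _ h3) (hd.1 _ h4)]
  have h0 : s 0 * (D O : F) ≠ 0 := mul_ne_zero (hs 0).2 (D O).ne_zero
  have h5 : ∀ j, s j / s 0 = s j * D O / (s 0 * D O) := fun j => by
    rw [mul_div_mul_right _ _ (D O).ne_zero]
  have h6 : E.f = s 0 ^ N * E.f * ((D ^ N) O : Fˣ) / (s 0 * D O) ^ N := by
    rw [Pi.pow_apply, Units.val_pow_eq_pow_val, mul_pow, mul_assoc, mul_left_comm,
      mul_div_assoc, div_self (mul_ne_zero (pow_ne_zero _ (hs 0).2)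
        (pow_ne_zero _ (D O).ne_zero)), mul_one]
  constructor
  · intro h
    obtain ⟨j, hj⟩ := hgen O hO
    have h7 : Un Q (E.i (s j * D O)) := hd.un hj
    have h8 : Un Q (E.i (s 0 * D O)) := by
      have h9 := (E.off_un (h1 j 0) hQ h).inv.mul h7
      have h10 : (E.i (s j / s 0))⁻¹ * E.i (s j * D O) = E.i (s 0 * D O) := by
        rw [← map_inv₀, ← map_mul]
        congr 1
        have := (hs j).2
        have := (hs 0).2
        field_simp
      rwa [h10] at h9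
    refine ⟨h8, ?_⟩
    have h9 := (E.off_f hQ h).mul (h8.pow N)
    have h10 : E.i E.f * E.i (s 0 * D O) ^ N = E.i (s 0 ^ N * E.f * ((D ^ N) O : Fˣ)) := by
      rw [← map_pow, ← map_mul]
      congr 1
      rw [Pi.pow_apply, Units.val_pow_eq_pow_val]
      ring
    rwa [h10] at h9
  · rintro ⟨h7, h8⟩
    refine E.off_of hQ (fun l => ?_) ?_
    · rw [hx, h5, map_div₀, div_eq_mul_inv]
      exact Q.mul_mem (hm _) h7.2.2
    · rw [h6, map_div₀, map_pow]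
      exact h8.div (h7.pow N)

/-- PROOF. `exists_secs`, `x l = s (l + 1) / s 0`; `Φ₁` = the elements of `Φ` which are invariant, the sets of `exists_min` for
all `φ ∈ Φ`, the `s j / s k` and `δ = nj Δ x`; `exists_emd`, `exists_frm`, `exists_bx`, `exists_kap`, `exists_hm`,
`secs_poly` for `f`. -/
theorem rx_of (d : ℕ)
    (hR : ∀ (Ω : Type) [Field Ω] [Algebra ℂ Ω] [IsAlgClosed Ω], KMR.MainR ℂ Ω d) : RX d := by
  classical
  intro F _ _ Y G Δ Φ H hY hΦ hH hA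
  obtain ⟨e, s, V, he, hV, hs, hgen, hx⟩ := exists_secs hY hH hA
  have hG := hY.fin
  have hsec : ∀ l, s l ∈ Sec Y (H ^ e) ∧ s l ≠ 0 := fun l => ⟨hV.sec (hs l).1, (hs l).2.1⟩
  set x : Fin d → F := fun l => s l.succ / s 0 with hxdef
  have hq : ∀ j k, ∀ γ ∈ G, γ (s j / s k) = s j / s k := by
    intro j k γ hγ
    rw [map_div₀, (hs j).2.2 γ hγ, (hs k).2.2 γ hγ]
  have hxG : ∀ l, ∀ γ ∈ G, γ (x l) = x l := fun l => hq _ _
  have hδ : nj Δ x ≠ 0 := nj_ne hx hY.frame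
  have hδG : ∀ γ ∈ G, γ (nj Δ x) = nj Δ x := by
    intro γ hγ
    rw [nj, ← AlgEquiv.coe_toAlgHom, AlgHom.map_det]
    congr 1
    ext i l
    simp only [AlgHom.mapMatrix_apply, Matrix.map_apply, Matrix.of_apply, AlgEquiv.coe_toAlgHom]
    rw [← hY.comm γ hγ, hxG l γ hγ]
  choose! T hT1 hT2 using fun (φ : F) (h : φ ≠ 0) => exists_min hG h
  set Φ₁ : Finset F := (Φ.biUnion T ∪ Φ.filter fun φ => ∀ γ ∈ G, γ φ = φ) ∪
    (insert (nj Δ x) (Finset.univ.image fun p : Fin (d + 1) × Fin (d + 1) => s p.1 / s p.2))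
    with hΦ₁
  have hΦ₁' : ∀ φ ∈ Φ₁, φ ≠ 0 ∧ ∀ γ ∈ G, γ φ = φ := by
    intro φ hφ
    rw [hΦ₁, Finset.mem_union, Finset.mem_union, Finset.mem_biUnion, Finset.mem_filter,
      Finset.mem_insert, Finset.mem_image] at hφ
    rcases hφ with (⟨ψ, h1, h2⟩ | ⟨h1, h2⟩) | (rfl | ⟨p, -, rfl⟩)
    · exact hT1 ψ (hΦ ψ h1) φ h2
    · exact ⟨hΦ φ h1, h2⟩
    · exact ⟨hδ, hδG⟩
    · exact ⟨div_ne_zero (hs _).2.1 (hs _).2.1, hq _ _⟩
  have hδΦ : nj Δ x ∈ Φ₁ := Finset.mem_union_right _ (Finset.mem_insert_self _ _)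
  have hsΦ : ∀ j k, s j / s k ∈ Φ₁ := fun j k => Finset.mem_union_right _
    (Finset.mem_insert_of_mem (Finset.mem_image.2 ⟨(j, k), Finset.mem_univ _, rfl⟩))
  obtain ⟨E⟩ := exists_emd (hR _) hG (proj_fg hY.proj) hx hxG hΦ₁'
  obtain ⟨Δ', hΔ', hder, hcomm⟩ := exists_frm E.i E.fin hY.dim hY.frame
  obtain ⟨J, hJ, P, B, lab, hB⟩ := exists_bx E.ok E.top
  obtain ⟨κ, hκ, hκ'⟩ := exists_kap E.ok E.top hΔ'
  obtain ⟨H', hH', hA', hu'⟩ := exists_hm E.ok E.top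
  have hproj : IsProj (YS E.M) := ys_proj E.ok E.top
  have hnorm : Normal (YS E.M) := ys_normal E.ok E.top
  have hdom : ∀ O' ∈ YS E.M, ∃ O ∈ Y, Dm E.i O O' := by
    intro O' hO'
    obtain ⟨c, hc⟩ := hO'
    obtain ⟨k, hk⟩ := E.exists_min (fun l => (hs l).2.1) hsΦ c
    exact secs_dom hY.proj hV (fun l => ⟨(hs l).1, (hs l).2.1⟩) hgen E.i
      (hproj.isLocalRing ⟨c, hc⟩) (hnorm _ ⟨c, hc⟩) fun j => hc.le (hk j)
  obtain ⟨N, hN⟩ := secs_poly hsec (f := E.f) (by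
    refine Algebra.adjoin_mono ?_ E.f_adj
    rintro _ ⟨l, rfl⟩
    exact ⟨l.succ, rfl⟩)
  have hoff : ∀ O' ∈ YS E.M, (∀ i, Un O' (B i O' : E.K)) ↔ ∀ j, ¬ On E.M O' j :=
    fun O' hO' => hB.off_iff E.ok hO'
  refine ⟨{ F' := E.K, i := E.i, fin := E.fin, Y' := YS E.M, G' := E.G', Δ' := Δ', J := J,
            P := P, B := B, κ := κ,
            base := ⟨hproj, hnorm, ys_trdeg E.ok E.top, E.finG,
              fun γ hγ O hO => act_gm E.ok (E.act γ hγ) hO, hΔ', ?_⟩,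
            snc := ys_snc E.ok E.top hΔ' hB hκ hκ',
            bd := hB.bd, dom := hdom, grp := E.grp, fix := E.fix, der := hder,
            strict := fun γ hγ j O' hO' h1 h2 =>
              act_strict E.ok E.top hB (E.act γ hγ) j hO' h1 h2,
            un := ?_, cmp := ?_, can := ?_, H' := H', hcar := hH', hamp := hA',
            hun := fun O' hO' h => hu' O' hO' ((hoff O' hO').1 h),
            l := e * (N + 1), l_pos := Nat.mul_pos he (Nat.succ_pos _), a := s 0 ^ (N + 1) * E.f,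
            a_inv := ?_, a_sec := ?_, a_un := ?_ }⟩
  · intro γ' hγ' l y
    obtain ⟨γ, hγ, h1⟩ := E.grp γ' hγ'
    exact hcomm γ γ' h1 (hY.comm γ hγ) l y
  · intro φ hφ O' hO' h
    refine hT2 φ (hΦ φ hφ) E.K E.i O' (hnorm O' hO') fun t ht => E.off_un ?_ hO' ((hoff O' hO').1 h)
    exact Finset.mem_union_left _ (Finset.mem_union_left _ (Finset.mem_biUnion.2 ⟨φ, hφ, ht⟩))
  · intro φ hφ hinv O' hO'
    obtain ⟨c, hc⟩ := hO'
    have h1 : φ ∈ Φ₁ := Finset.mem_union_left _ (Finset.mem_union_right _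
      (Finset.mem_filter.2 ⟨hφ, hinv⟩))
    exact (E.cmp h1 c).imp (fun h => hc.le h) fun h => hc.le h
  · intro O' hO' h
    have h1 := (hoff O' hO').1 h
    have h2 := hκ' O' hO' _ (off_cd E.ok E.top E.coord hO' h1)
    have h3 : nj Δ' (fun l => E.i (x l)) = E.i (nj Δ x) := by
      rw [nj, nj, AlgHom.map_det]
      congr 1
      ext i l
      simp only [AlgHom.mapMatrix_apply, Matrix.map_apply, Matrix.of_apply]
      exact hder _ _
    rw [h3] at h2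
    have h4 := h2.div (E.off_un hδΦ hO' h1)
    rwa [mul_div_cancel_right₀ _ ((map_ne_zero E.i).2 hδ)] at h4
  · intro γ hγ
    have h1 : γ E.f = E.f := by
      have h2 : E.f ∈ Algebra.adjoin ℂ (Set.range x) := E.f_adj
      have h3 : Algebra.adjoin ℂ (Set.range x) ≤
          AlgHom.equalizer (γ : F →ₐ[ℂ] F) (AlgHom.id ℂ F) := by
        refine Algebra.adjoin_le ?_
        rintro _ ⟨l, rfl⟩
        exact hxG l γ hγ
      exact h3 h2
    rw [map_mul, map_pow, (hs 0).2.2 γ hγ, h1]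
  · have h1 : s 0 ^ (N + 1) * E.f = s 0 * (s 0 ^ N * E.f) := by ring
    have h2 : H ^ (e * (N + 1)) = H ^ e * (H ^ e) ^ N := by
      rw [pow_mul, pow_succ']
    rw [h1, h2]
    exact sec_mul (hsec 0).1 hN
  · intro O' hO'
    have hc := cen_spec (hdom O' hO')
    rw [hoff O' hO', E.a_un hsec hsΦ (fun _ => rfl) hgen hN hc.1 hO' hc.2]
    have h1 : (H (cen E.i Y O') : F) ^ (e * (N + 1)) =
        ((H ^ e) (cen E.i Y O') : F) ^ (N + 1) := by
      rw [Pi.pow_apply, Units.val_pow_eq_pow_val, ← pow_mul]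
    rw [h1]

end Pool.Agent.KM
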