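import Pool.Agent.Lib.MP_732f67_ag.X.Defs
import Pool.Agent.Lib.MP_732f67_ag.G.EtE
import Pool.Agent.Lib.MP_732f67_ag.R.EtCh
import Pool.Agent.Lib.MP_732f67_ag.X.SmA

/-!
Standard étale charts are smooth, their coordinates give bases of the differentials.
-/

namespace Pool.Agent.KM

variable {K : Type} [Field K] [Algebra ℂ K] {n : ℕ} {A Q : Subalgebra ℂ K} {z : Fin n → K}
  {y u : K}

/-- the two notions of standard étale charts -/
theorem isCh_of_ch (h : KMR.Ch A z y u) (hA : FracEq A) (hd : Algebra.trdeg ℂ K = n) :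
    IsCh A z y u := by
  obtain ⟨f, hfm, hfi, hf0, hfd, hfdA⟩ := h.pol
  refine ⟨?_, ⟨f, hfm, hfi, hf0, hfd, hfdA⟩, h.u_ne, h.u_inv, h.A_eq, fun a => ?_⟩
  · refine h.ind.isTranscendenceBasis_of_trdeg_le ?_ ?_
    · rw [hd]
      exact Cardinal.natCast_lt_aleph0
    · rw [hd, Cardinal.mk_fin]
  · obtain ⟨b, c, hc, hbc⟩ := hA a
    have hmem : ∀ w : A, (w : K) ∈ Algebra.adjoin ℂ (Set.range z ∪ {y, u}) := fun w => by
      rw [← h.A_eq]
      exact w.2
    obtain ⟨N, hN⟩ := SmA_den h.u_ne h.u_inv (hmem b)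
    obtain ⟨M, hM⟩ := SmA_den h.u_ne h.u_inv (hmem c)
    have hu := inv_ne_zero h.u_ne
    refine ⟨b * u⁻¹ ^ N * u⁻¹ ^ M, mul_mem hN (pow_mem h.u_inv M), c * u⁻¹ ^ M * u⁻¹ ^ N,
      mul_mem hM (pow_mem h.u_inv N),
      mul_ne_zero (mul_ne_zero hc (pow_ne_zero _ hu)) (pow_ne_zero _ hu), ?_⟩
    have h1 := pow_ne_zero N hu
    have h2 := pow_ne_zero M hu
    rw [hbc, mul_assoc, mul_assoc, mul_comm (u⁻¹ ^ N), mul_div_mul_right _ _ (mul_ne_zero h2 h1)]

/-- PROOF. `Ω[Q⁄ℂ]` is generated by the `d a`, `a ∈ A` (`Q` is a localization of `A`), so by the `d (z i)`, `dy` and `du`;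
`f' (y) dy` is a combination of the `d (z i)`, `u⁻¹ ∈ ℂ[z, y]`. They are linearly independent: the derivations
dual to the `z i` preserve `A` and `Q` (`exists_der`, `IsCh.der`, `der_locAt`). -/
theorem ch_cd (h : IsCh A z y u) (hQ : LocAt A Q) : Cd Q z := (SmA_main h hQ).2

theorem cd_sub {e : Fin n → ℂ} (h : Cd Q fun i => z i - algebraMap ℂ K (e i)) : Cd Q z := by
  obtain ⟨x, hx, b, hb⟩ := h
  refine ⟨fun i => x i + algebraMap ℂ Q (e i), fun i => ?_, b, fun i => ?_⟩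
  · show (x i : K) + algebraMap ℂ K (e i) = z i
    rw [hx, sub_add_cancel]
  · rw [hb, map_add, Derivation.map_algebraMap, add_zero]

end Pool.Agent.KM
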