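import Pool.Agent.Lib.MP_732f67_ag.X.Defs

/-!
The transfer of a model of the field `F` to the field `F` itself.
-/

namespace Pool.Agent.KMR

variable {k Ω : Type} [Field k] [Field Ω] [Algebra k Ω] {G : Subgroup (Ω ≃ₐ[k] Ω)}

/-- an element of `F` as a unit of the field `F` -/
noncomputable def tu (F : IntermediateField k Ω) (a : Ωˣ) : (F)ˣ := by
  classical exact if h : (a : Ω) ∈ F then
    Units.mk0 ⟨a, h⟩ (fun h0 => a.ne_zero (congrArg Subtype.val h0)) else 1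

theorem tu_val {F : IntermediateField k Ω} {a : Ωˣ} (h : (a : Ω) ∈ F) :
    ((tu F a : F) : Ω) = a := by
  rw [tu, dif_pos h]
  rfl

theorem tu_map {F : IntermediateField k Ω} {a : Ωˣ} (h : (a : Ω) ∈ F) :
    Units.map (F.val : F →* Ω) (tu F a) = a :=
  Units.ext (tu_val h)

/-- the model `M` inside its own field of functions -/
noncomputable def Mdl.tr (M : Mdl k Ω G) : Mdl k M.F ⊥ where
  F := ⊤
  ι := M.ι
  J := M.J
  R c := (M.R c).comap M.F.val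
  S := M.S
  x c j := tu M.F (M.x c j)
  s c := tu M.F (M.s c)
  m c := tu M.F (M.m c)
  Ψ := M.Ψ.comap (Units.map (M.F.val : M.F →* Ω))
  v j a := M.v j (Units.map (M.F.val : M.F →* Ω) a)
  h := M.h
  π := 1

/-- the sections `s c` are in the field `F` -/
theorem Mdl.s_F {n : ℕ} (M : Mdl k Ω G) (h : M.Ok0 n) (c : M.ι) : (M.s c : Ω) ∈ M.F := by
  have h1 : (M.s c : Ω) = (M.s c / M.m c : Ω) * M.m c := by
    rw [div_mul_cancel₀ _ (M.m c).ne_zero]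
  rw [h1]
  exact M.F.mul_mem (h.le c _ (h.m_s c).2.1) (h.Ψ_F _ (h.m_Ψ c))

/-- the inclusion of the ring of a chart -/
def tr_inc (F : IntermediateField k Ω) (R : Subalgebra k Ω) : R.comap F.val →ₐ[k] R where
  toFun a := ⟨((a : F) : Ω), a.2⟩
  map_one' := rfl
  map_mul' _ _ := rfl
  map_zero' := rfl
  map_add' _ _ := rfl
  commutes' _ := rfl

/-- and its inverse -/
def tr_inv (F : IntermediateField k Ω) (R : Subalgebra k Ω) (hR : ∀ a ∈ R, a ∈ F) :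
    R →ₐ[k] R.comap F.val where
  toFun a := ⟨⟨a, hR a a.2⟩, a.2⟩
  map_one' := rfl
  map_mul' _ _ := rfl
  map_zero' := rfl
  map_add' _ _ := rfl
  commutes' _ := rfl

theorem tr_loc (F : IntermediateField k Ω) (R : Subalgebra k Ω) (hR : ∀ a ∈ R, a ∈ F)
    (φ : R.comap F.val →ₐ[k] k) (φ' : R →ₐ[k] k) (h : ∀ a, φ a = φ' (tr_inc F R a)) :
    Loc (R.comap F.val) φ = (Loc R φ').comap F.val := by
  ext a
  constructor
  · rintro ⟨b, c, hc, rfl⟩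
    rw [h] at hc
    exact ⟨tr_inc F R b, tr_inc F R c, hc, rfl⟩
  · rintro ⟨b, c, hc, hbc⟩
    have hbc' : (a : Ω) = b / c := hbc
    refine ⟨tr_inv F R hR b, tr_inv F R hR c, ?_, Subtype.ext ?_⟩
    · rw [h]
      exact hc
    · rw [hbc']
      rfl

/-- the closed points of the chart `c` -/
theorem Mdl.tr_pt {n : ℕ} (M : Mdl k Ω G) (h : M.Ok0 n) (c : M.ι) (φ' : M.R c →ₐ[k] k) :
    ∃ φ : M.tr.R c →ₐ[k] k, M.tr.O c φ = (M.O c φ').comap M.F.val :=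
  ⟨φ'.comp (tr_inc M.F (M.R c)), tr_loc M.F (M.R c) (h.le c) _ φ' fun _ => rfl⟩

theorem Mdl.tr_pt' {n : ℕ} (M : Mdl k Ω G) (h : M.Ok0 n) (c : M.ι) (φ : M.tr.R c →ₐ[k] k) :
    ∃ φ' : M.R c →ₐ[k] k, M.tr.O c φ = (M.O c φ').comap M.F.val :=
  ⟨φ.comp (tr_inv M.F (M.R c) (h.le c)),
    tr_loc M.F (M.R c) (h.le c) φ (φ.comp (tr_inv M.F (M.R c) (h.le c))) fun _ => rfl⟩

theorem Mdl.tr_un (M : Mdl k Ω G) {O : Subalgebra k Ω} (a : M.F) :
    Un (O.comap M.F.val) a ↔ Un O (a : Ω) := by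
  refine ⟨fun h => ⟨fun h0 => h.1 (Subtype.ext h0), h.2.1, ?_⟩,
    fun h => ⟨fun h0 => h.1 (congrArg Subtype.val h0), h.2.1, ?_⟩⟩
  · have h2 : ((a⁻¹ : M.F) : Ω) ∈ O := h.2.2
    exact h2
  · show ((a⁻¹ : M.F) : Ω) ∈ O
    exact h.2.2

theorem Mdl.tr_at {n : ℕ} (M : Mdl k Ω G) (h : M.Ok0 n) {c : M.ι} {φ : M.tr.R c →ₐ[k] k}
    {φ' : M.R c →ₐ[k] k} (hφ : M.tr.O c φ = (M.O c φ').comap M.F.val) (j : M.J) :
    M.tr.At c φ j ↔ M.At c φ' j := by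
  refine and_congr_right fun hj => not_congr ?_
  have hj' : j ∈ M.S c := hj
  have h1 : (M.x c j : Ω) ∈ M.F := h.le c _ (h.x_R c j hj')
  have h2 : Un ((M.O c φ').comap M.F.val) (tu M.F (M.x c j) : M.F) ↔
      Un (M.O c φ') (M.x c j : Ω) := by
    rw [Mdl.tr_un, tu_val h1]
  rw [hφ]
  exact h2

theorem Mdl.tr_psi {n : ℕ} (M : Mdl k Ω G) (h : M.Ok0 n) {a : Ωˣ} (ha : a ∈ M.Ψ) :
    tu M.F a ∈ M.tr.Ψ ∧ ((tu M.F a : M.F) : Ω) = a ∧ (M.Cmp a → M.tr.Cmp (tu M.F a)) := by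
  have h1 : (a : Ω) ∈ M.F := h.Ψ_F a ha
  refine ⟨?_, tu_val h1, fun hc c => ?_⟩
  · change Units.map (M.F.val : M.F →* Ω) (tu M.F a) ∈ M.Ψ
    rw [tu_map h1]
    exact ha
  · have h2 : ∀ j, M.tr.v j (tu M.F a) = M.v j a := by
      intro j
      change M.v j (Units.map (M.F.val : M.F →* Ω) (tu M.F a)) = _
      rw [tu_map h1]
    rcases hc c with h3 | h3
    · exact Or.inl fun j hj => by
        rw [h2]
        exact h3 j hj
    · exact Or.inr fun j hj => by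
        rw [h2]
        exact h3 j hj

end Pool.Agent.KMR
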