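import Pool.Agent.Lib.MP_732f67_ag.X.Tr

/-!
The transfer of a model of the field `F` to the field `F` itself.
-/

namespace Pool.Agent.KMR

variable {k Ω : Type} [Field k] [Field Ω] [Algebra k Ω] {G : Subgroup (Ω ≃ₐ[k] Ω)}

/-- transcendence bases of an intermediate field -/
theorem trA_trd {n : ℕ} {F : IntermediateField k Ω} (h : ∃ t : Fin n → Ω, (∀ i, t i ∈ F) ∧
    AlgebraicIndependent k t ∧ ∀ a ∈ F, IsAlgebraic (Algebra.adjoin k (Set.range t)) a) :
    ∃ t : Fin n → F, AlgebraicIndependent k t ∧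
      ∀ a : F, IsAlgebraic (Algebra.adjoin k (Set.range t)) a := by
  obtain ⟨t, ht, hi, ha⟩ := h
  refine ⟨fun i => ⟨t i, ht i⟩, ?_, fun a => ?_⟩
  · exact AlgebraicIndependent.of_comp F.val hi
  · have h1 := ha a a.2
    have h2 : (Algebra.adjoin k (Set.range fun i => (⟨t i, ht i⟩ : F))).map F.val =
        Algebra.adjoin k (Set.range t) := by
      rw [AlgHom.map_adjoin, ← Set.range_comp]
      rfl
    let f : Algebra.adjoin k (Set.range fun i => (⟨t i, ht i⟩ : F)) →+*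
        Algebra.adjoin k (Set.range t) :=
      { toFun := fun x => ⟨((x : F) : Ω), by
          rw [← h2]
          exact ⟨x, x.2, rfl⟩⟩
        map_one' := rfl
        map_mul' := fun _ _ => rfl
        map_zero' := rfl
        map_add' := fun _ _ => rfl }
    have hf : Function.Surjective f := by
      rintro ⟨y, hy⟩
      rw [← h2] at hy
      obtain ⟨x, hx, hxy⟩ := hy
      exact ⟨⟨x, hx⟩, Subtype.ext hxy⟩
    exact IsAlgebraic.of_ringHom_of_comp_eq f (F.val : F →+* Ω) h1 hf F.val.injective rfl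

/-- valuation rings of an intermediate field extend -/
theorem trA_val {F : IntermediateField k Ω} (V : ValuationSubring F) :
    ∃ V' : ValuationSubring Ω, ∀ a : F, a ∈ V ↔ (a : Ω) ∈ V' := by
  let A : LocalSubring F := @LocalSubring.mk F _ V.toSubring (inferInstanceAs (IsLocalRing V))
  let B : LocalSubring Ω := LocalSubring.map (F.val : F →+* Ω) A
  obtain ⟨V', hV'⟩ := B.exists_le_valuationSubring
  obtain ⟨h1, h2⟩ := hV'
  have hmem : ∀ a ∈ V, (a : Ω) ∈ B.toSubring := fun a ha => ⟨a, ha, rfl⟩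
  refine ⟨V', fun a => ⟨fun ha => h1 (hmem a ha), fun ha => ?_⟩⟩
  by_contra haV
  have ha0 : a ≠ 0 := by
    rintro rfl
    exact haV V.zero_mem
  have hiV : a⁻¹ ∈ V := (V.mem_or_inv_mem a).resolve_left haV
  have ha0' : (a : Ω) ≠ 0 := fun h => ha0 (Subtype.ext h)
  have h3 : IsUnit (Subring.inclusion h1 ⟨((a⁻¹ : F) : Ω), hmem _ hiV⟩) := by
    refine IsUnit.of_mul_eq_one (⟨(a : Ω), ha⟩ : V'.toLocalSubring.toSubring) ?_
    exact Subtype.ext (inv_mul_cancel₀ ha0')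
  have h4 : IsUnit (⟨((a⁻¹ : F) : Ω), hmem _ hiV⟩ : B.toSubring) := h2.map_nonunit _ h3
  obtain ⟨u, hu⟩ := h4.exists_right_inv
  obtain ⟨⟨c, hc⟩, hcu⟩ : ∃ c : V, ((c : F) : Ω) = u := by
    obtain ⟨c, hc, hcu⟩ := u.2
    exact ⟨⟨c, hc⟩, hcu⟩
  have h5 : ((a⁻¹ : F) : Ω) * u = 1 := congrArg Subtype.val hu
  rw [← hcu] at h5
  have h6 : a⁻¹ * c = 1 := Subtype.ext h5
  have h7 : c = a := by
    rw [inv_mul_eq_one₀ ha0] at h6
    exact h6.symm
  rw [h7] at hc
  exact haV hc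

/-- subgroups of the group of units of an intermediate field -/
theorem trA_fg {F : IntermediateField k Ω} {Ψ : Subgroup Ωˣ} (h : Ψ.FG)
    (hF : ∀ a ∈ Ψ, (a : Ω) ∈ F) : (Ψ.comap (Units.map (F.val : F →* Ω))).FG := by
  classical
  obtain ⟨S, hS⟩ := h
  have hinj : Function.Injective (Units.map (F.val : F →* Ω)) := by
    intro a b hab
    refine Units.ext (Subtype.ext ?_)
    exact congrArg (fun u : Ωˣ => (u : Ω)) hab
  refine ⟨S.image (tu F), ?_⟩
  apply Subgroup.map_injective hinj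
  have hSΨ : ∀ a ∈ S, a ∈ Ψ := fun a ha => by
    rw [← hS]
    exact Subgroup.subset_closure ha
  rw [MonoidHom.map_closure, Finset.coe_image, ← Set.image_comp]
  have h1 : (⇑(Units.map (F.val : F →* Ω)) ∘ tu F) '' (S : Set Ωˣ) = S := by
    ext a
    constructor
    · rintro ⟨b, hb, rfl⟩
      change Units.map (F.val : F →* Ω) (tu F b) ∈ (S : Set Ωˣ)
      rw [tu_map (hF b (hSΨ b hb))]
      exact hb
    · intro ha
      exact ⟨a, ha, tu_map (hF a (hSΨ a ha))⟩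
  rw [h1, hS, Subgroup.map_comap_eq_self]
  intro a ha
  exact ⟨tu F a, tu_map (hF a ha)⟩

/-- PROOF. `trd`, `fg`, `frac` are clear (`R c ≤ F`, the comap of `R c` is isomorphic to `R c`).
`complete`: let `V` be a valuation ring of the field `F` containing `k`; its image in `Ω` is a local ring,
dominated by a valuation ring `V'` of `Ω` (`LocalSubring.exists_le_valuationSubring` or
`exists_factor_valuationRing`, see `exists_val` in G/PtC.lean), and `V' ∩ F = V` (an element `x` of the difference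
has `x⁻¹ ∈ V`, not a unit of `V`, but a unit of `V'`). `par`: `tr_pt'`, `Par` for `O` and for its comap are the
same thing, as `O ≤ F`. The others are direct. -/
theorem Mdl.tr_ok {n : ℕ} (M : Mdl k Ω G) (h : M.Ok0 n) : M.tr.Ok0 n := by
  classical
  have hxF : ∀ c, ∀ j ∈ M.S c, (M.x c j : Ω) ∈ M.F := fun c j hj => h.Ψ_F _ (h.x_Ψ c j hj)
  have hx : ∀ c, ∀ j ∈ M.S c, Units.map (M.F.val : M.F →* Ω) (tu M.F (M.x c j)) = M.x c j :=
    fun c j hj => tu_map (hxF c j hj)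
  have hs : ∀ c, ((tu M.F (M.s c) : M.F) : Ω) = M.s c := fun c => tu_val (M.s_F h c)
  have hm : ∀ c, ((tu M.F (M.m c) : M.F) : Ω) = M.m c := fun c => tu_val (h.Ψ_F _ (h.m_Ψ c))
  have hOF : ∀ c (φ : M.R c →ₐ[k] k), ∀ a ∈ M.O c φ, a ∈ M.F := by
    rintro c φ _ ⟨a, b, -, rfl⟩
    exact M.F.div_mem (h.le c a a.2) (h.le c b b.2)
  refine ⟨⟨h.fin, ?_, ?_, fun c a _ => trivial, ?_, ?_⟩,
    ⟨trA_fg h.Ψ_fg h.Ψ_F, fun a _ => trivial, ?_, ?_, ?_, ?_, ?_, ?_⟩, ⟨?_⟩,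
    ⟨?_, ?_, ?_, ?_, ?_, ?_⟩⟩
  · obtain ⟨t, ht, ht'⟩ := trA_trd h.trd
    exact ⟨t, fun i => trivial, ht, fun a _ => ht' a⟩
  · intro c
    refine Subalgebra.fg_of_fg_map _ M.F.val M.F.val.injective ?_
    have h1 : ((M.R c).comap M.F.val).map M.F.val = M.R c := by
      ext a
      constructor
      · rintro ⟨b, hb, rfl⟩
        exact hb
      · intro ha
        exact ⟨⟨a, h.le c a ha⟩, ha, rfl⟩
    rw [show M.tr.R c = (M.R c).comap M.F.val from rfl, h1]
    exact h.fg c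
  · intro c a _
    obtain ⟨b, hb, d, hd, hd0, had⟩ := h.frac c a a.2
    exact ⟨⟨b, h.le c b hb⟩, hb, ⟨d, h.le c d hd⟩, hd, fun h0 => hd0 (congrArg Subtype.val h0),
      Subtype.ext had⟩
  · intro V hV
    obtain ⟨V', hV'⟩ := trA_val V
    obtain ⟨c, hc⟩ := h.complete V' fun a => (hV' (algebraMap k M.F a)).1 (hV a)
    exact ⟨c, fun a ha => (hV' a).2 (hc _ ha)⟩
  · intro c j hj
    change Units.map (M.F.val : M.F →* Ω) (tu M.F (M.x c j)) ∈ M.Ψ
    rw [hx c j hj]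
    exact h.x_Ψ c j hj
  · intro c j hj
    change ((tu M.F (M.x c j) : M.F) : Ω) ∈ M.R c
    rw [tu_val (hxF c j hj)]
    exact h.x_R c j hj
  · intro j a ha b hb
    change M.v j (Units.map (M.F.val : M.F →* Ω) (a * b)) = _
    rw [map_mul]
    exact h.v_mul j _ ha _ hb
  · intro c j hj
    change M.v j (Units.map (M.F.val : M.F →* Ω) (tu M.F (M.x c j))) = 1
    rw [hx c j hj]
    exact h.v_x c j hj
  · intro c i hi j hj hij
    change M.v i (Units.map (M.F.val : M.F →* Ω) (tu M.F (M.x c j))) = 0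
    rw [hx c j hj]
    exact h.v_x' c i hi j hj hij
  · intro c a ha hv
    exact (M.tr_un (O := M.R c) a).2 (h.unit c _ ha hv)
  · intro c φ
    obtain ⟨φ', hφ'⟩ := M.tr_pt' h c φ
    obtain ⟨z, ⟨hz1, hz2⟩, hz3⟩ := h.par c φ'
    refine ⟨fun i => ⟨z i, hOF c φ' _ (hz1 i).1⟩, ⟨fun i => ?_, fun r hr hur => ?_⟩,
      fun j hj => ?_⟩
    · rw [hφ', M.tr_un]
      exact hz1 i
    · rw [hφ'] at hr hur
      rw [M.tr_un] at hur
      obtain ⟨a, ha, hra⟩ := hz2 r hr hur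
      refine ⟨fun i => ⟨a i, hOF c φ' _ (ha i)⟩, fun i => ?_, Subtype.ext ?_⟩
      · rw [hφ']
        exact ha i
      · rw [hra]
        simp
    · have hj' := (M.tr_at h hφ' j).1 hj
      obtain ⟨i, hi⟩ := hz3 j hj'
      refine ⟨i, Subtype.ext ?_⟩
      change z i = ((tu M.F (M.x c j) : M.F) : Ω)
      rw [hi, tu_val (hxF c j hj'.1)]
  · intro (c : M.ι) (c' : M.ι)
    change (((tu M.F (M.s c') : M.F) : Ω) / ((tu M.F (M.s c) : M.F) : Ω)) ∈ M.R c
    rw [hs, hs]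
    exact h.s_mem c c'
  · intro (c : M.ι) (c' : M.ι) (a : M.F) ha
    obtain ⟨N, hN⟩ := h.s_loc c c' a ha
    refine ⟨N, ?_⟩
    change (a : Ω) * (((tu M.F (M.s c) : M.F) : Ω) / ((tu M.F (M.s c') : M.F) : Ω)) ^ N ∈ M.R c'
    rw [hs, hs]
    exact hN
  · intro (c : M.ι) (c' : M.ι) (j : M.J) hj hj'
    obtain ⟨N, hN⟩ := h.s_x c c' j hj hj'
    refine ⟨N, ?_⟩
    change (((tu M.F (M.s c') : M.F) : Ω) / ((tu M.F (M.s c) : M.F) : Ω)) ^ N /
      ((tu M.F (M.x c j) : M.F) : Ω) ∈ M.R c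
    rw [hs, hs, tu_val (hxF c j hj)]
    exact hN
  · intro c
    change Units.map (M.F.val : M.F →* Ω) (tu M.F (M.m c)) ∈ M.Ψ
    rw [tu_map (h.Ψ_F _ (h.m_Ψ c))]
    exact h.m_Ψ c
  · intro (c : M.ι)
    refine (M.tr_un (O := M.R c) _).2 ?_
    change Un (M.R c) (((tu M.F (M.s c) : M.F) : Ω) / ((tu M.F (M.m c) : M.F) : Ω))
    rw [hs, hm]
    exact h.m_s c
  · intro c j hj
    change M.v j (Units.map (M.F.val : M.F →* Ω) (tu M.F (M.m c))) = _
    rw [tu_map (h.Ψ_F _ (h.m_Ψ c))]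
    exact h.m_v c j hj

end Pool.Agent.KMR
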